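import Pool.Agent.KS6_91.PL.W152_PCFix

/-!
# Words with a small image: the combinatorics and the components of the domains
-/
set_option autoImplicit false
open Set Topology

namespace Pool.Agent.KS6_91.PL.Conv

open Pool.Agent.KS6_91.PL.W983.PL
open Pool.Agent.KS6_91.PL.W152.PCFix

/-- A long word, or a word with two letters of large index, has two letters which are far from
the two ends or of large index. -/
theorem split (M : ℕ) (L : List (ℕ × Bool)) :
    (L.length ≤ 2 * M + 1 ∧ ∀ s ∈ L, s.1 < M) ∨
    (∃ u s v, L = u ++ s :: v ∧ u.length + v.length ≤ 2 * M ∧ (∀ t ∈ u, t.1 < M) ∧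
      ∀ t ∈ v, t.1 < M) ∨
    (∃ x s m t y, L = x ++ ((s :: m ++ [t]) ++ y) ∧ M ≤ x.length + s.1 ∧
      M ≤ y.length + t.1) := by
  by_cases hL : L.length ≤ 2 * M + 1
  · by_cases hs : ∀ s ∈ L, s.1 < M
    · exact Or.inl ⟨hL, hs⟩
    · right
      push Not at hs
      obtain ⟨s, hs, hM⟩ := hs
      obtain ⟨u, v, rfl⟩ := List.append_of_mem hs
      by_cases hu : ∀ t ∈ u, t.1 < M
      · by_cases hv : ∀ t ∈ v, t.1 < M
        · left
          refine ⟨u, s, v, rfl, ?_, hu, hv⟩
          rw [List.length_append, List.length_cons] at hL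
          omega
        · right
          push Not at hv
          obtain ⟨t, ht, hM'⟩ := hv
          obtain ⟨m, y, rfl⟩ := List.append_of_mem ht
          exact ⟨u, s, m, t, y, by simp, by omega, by omega⟩
      · right
        push Not at hu
        obtain ⟨t, ht, hM'⟩ := hu
        obtain ⟨x, m, rfl⟩ := List.append_of_mem ht
        exact ⟨x, t, m, s, v, by simp, by omega, by omega⟩
  · right; right
    push Not at hL
    obtain ⟨s, R, hR⟩ : ∃ s R, L.drop M = s :: R := by
      cases h : L.drop M with
      | nil =>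
        have := congrArg List.length h
        rw [List.length_drop, List.length_nil] at this
        omega
      | cons s R => exact ⟨s, R, rfl⟩
    have hRl : M + 1 ≤ R.length := by
      have := congrArg List.length hR
      rw [List.length_drop, List.length_cons] at this
      omega
    obtain ⟨t, y, hy⟩ : ∃ t y, R.drop (R.length - M - 1) = t :: y := by
      cases h : R.drop (R.length - M - 1) with
      | nil =>
        have := congrArg List.length h
        rw [List.length_drop, List.length_nil] at this
        omega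
      | cons t y => exact ⟨t, y, rfl⟩
    have hyl : y.length = M := by
      have := congrArg List.length hy
      rw [List.length_drop, List.length_cons] at this
      omega
    refine ⟨L.take M, s, R.take (R.length - M - 1), t, y, ?_, ?_, by omega⟩
    · have e1 : R = R.take (R.length - M - 1) ++ t :: y := by
        rw [← hy, List.take_append_drop]
      have e2 : L = L.take M ++ s :: R := by rw [← hR, List.take_append_drop]
      conv_lhs => rw [e2, e1]
      simp
    · rw [List.length_take]
      omega

/-- the words of bounded length with letters of bounded index are finite in number -/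
theorem finite_words (M N : ℕ) :
    {L : List (ℕ × Bool) | L.length ≤ N ∧ ∀ s ∈ L, s.1 < M}.Finite := by
  have h := (List.finite_length_le (Fin M × Bool) N).image
    (List.map fun s : Fin M × Bool => ((s.1 : ℕ), s.2))
  refine h.subset ?_
  rintro L ⟨h1, h2⟩
  refine ⟨L.pmap (fun s (hs : s.1 < M) => ((⟨s.1, hs⟩ : Fin M), s.2)) h2, ?_, ?_⟩
  · simpa using h1
  · rw [List.map_pmap]
    simp

/-! ## The components of the domains -/

/-- endpoints of the components of the domain of a letter -/
noncomputable def lo (s : ℕ × Bool) (b : Bool) : ℝ :=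
  if s.2 then (if b then 1 / 2 + bb s.1 else 1 / 2 - cc s.1)
  else (if b then 1 - cc s.1 else bb s.1)

noncomputable def hi (s : ℕ × Bool) (b : Bool) : ℝ :=
  if s.2 then (if b then 1 / 2 + cc s.1 else 1 / 2 - bb s.1)
  else (if b then 1 - bb s.1 else cc s.1)

/-- the two components of the domain of a letter -/
def Cp (s : ℕ × Bool) (b : Bool) : Set Circle := {z | lo s b ≤ co z ∧ co z ≤ hi s b}

theorem Dm_eq (s : ℕ × Bool) : Dm s = Cp s false ∪ Cp s true := by
  obtain ⟨k, _ | _⟩ := s <;> simp [Dm, Cp, lo, hi, DX, DA, DY, DR]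

theorem Cp_sub (s : ℕ × Bool) (b : Bool) : Cp s b ⊆ Dm s := by
  rw [Dm_eq]
  cases b
  · exact subset_union_left
  · exact subset_union_right

theorem lo_pos (hBC : S_BC) (s : ℕ × Bool) (b : Bool) : 0 < lo s b ∧ lo s b < hi s b ∧
    hi s b < 1 := by
  obtain ⟨h1, h2, h3, h4, h5, h6⟩ := hBC.1 s.1
  obtain ⟨k, _ | _⟩ := s <;> cases b <;> simp only [lo, hi, if_true, if_false,
    Bool.false_eq_true] at * <;> refine ⟨?_, ?_, ?_⟩ <;> linarith

theorem hi_sub_lo (s : ℕ × Bool) (b : Bool) : hi s b - lo s b = 1 / 2 ^ (s.1 + 6) := by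
  obtain ⟨k, _ | _⟩ := s <;> cases b <;> simp only [lo, hi, cc, if_true, if_false,
    Bool.false_eq_true] <;> ring

theorem diam_Cp (s : ℕ × Bool) (b : Bool) : ∀ z ∈ Cp s b, ∀ w ∈ Cp s b,
    |co z - co w| ≤ 1 / 2 ^ (s.1 + 6) := by
  rintro z ⟨h1, h2⟩ w ⟨h3, h4⟩
  rw [← hi_sub_lo s b, abs_le]
  constructor <;> linarith

/-- a letter maps the domain of any letter except its inverse into one component -/
theorem step1 (hBC : S_BC) {g : ℕ → HC}
    (hMAP : ∀ k z, (z ∈ LL k → g k z ∈ DX k) ∧ (z ∈ RT k → g k z ∈ DA k) ∧
      (z ∈ II k → (g k)⁻¹ z ∈ DY k) ∧ (z ∈ OO k → (g k)⁻¹ z ∈ DR k)) (s t : ℕ × Bool)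
    (hst : t ≠ inv s) : ∃ b, ∀ z ∈ Dm t, lt g s z ∈ Cp s b := by
  obtain ⟨k, ε⟩ := s
  obtain ⟨m, δ⟩ := t
  obtain ⟨k1, k2, k3, k4, k5, k6⟩ := hBC.1 k
  obtain ⟨m1, m2, m3, m4, m5, m6⟩ := hBC.1 m
  cases ε with
  | true =>
    have c1 : Cp (k, true) false = DX k := by ext; simp [Cp, lo, hi, DX]
    have c2 : Cp (k, true) true = DA k := by ext; simp [Cp, lo, hi, DA]
    cases δ with
    | true =>
      refine ⟨true, fun z hz => ?_⟩
      rw [c2]
      refine (hMAP k z).2.1 ?_
      rcases hz with hz | hz
      · exact ⟨by linarith [hz.1], by linarith [hz.2]⟩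
      · exact ⟨by linarith [hz.1], by linarith [hz.2]⟩
    | false =>
      rcases lt_trichotomy m k with h | h | h
      · refine ⟨false, fun z hz => ?_⟩
        have h1 := hBC.2.1 m k h
        rw [c1]
        refine (hMAP k z).1 ?_
        rcases hz with hz | hz
        · left; linarith [hz.2]
        · right; linarith [hz.1]
      · exact absurd (by rw [h]; rfl) hst
      · refine ⟨true, fun z hz => ?_⟩
        have h1 := hBC.2.1 k m h
        rw [c2]
        refine (hMAP k z).2.1 ?_
        rcases hz with hz | hz
        · exact ⟨by linarith [hz.1], by linarith [hz.2]⟩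
        · exact ⟨by linarith [hz.1], by linarith [hz.2]⟩
  | false =>
    have c1 : Cp (k, false) false = DY k := by ext; simp [Cp, lo, hi, DY]
    have c2 : Cp (k, false) true = DR k := by ext; simp [Cp, lo, hi, DR]
    cases δ with
    | false =>
      refine ⟨true, fun z hz => ?_⟩
      rw [c2]
      refine (hMAP k z).2.2.2 ?_
      rcases hz with hz | hz
      · left; linarith [hz.2]
      · right; linarith [hz.1]
    | true =>
      rcases lt_trichotomy m k with h | h | h
      · refine ⟨false, fun z hz => ?_⟩
        have h1 := hBC.2.1 m k h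
        rw [c1]
        refine (hMAP k z).2.2.1 ?_
        rcases hz with hz | hz
        · exact ⟨by linarith [hz.1], by linarith [hz.2]⟩
        · exact ⟨by linarith [hz.1], by linarith [hz.2]⟩
      · exact absurd (by rw [h]; rfl) hst
      · refine ⟨true, fun z hz => ?_⟩
        have h1 := hBC.2.1 k m h
        rw [c2]
        refine (hMAP k z).2.2.2 ?_
        rcases hz with hz | hz
        · left; linarith [hz.2]
        · right; linarith [hz.1]

end Pool.Agent.KS6_91.PL.Conv
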