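import Pool.Agent.KS6_91.PL.ConvA

/-!
# Words with a small image: the maps
-/
set_option autoImplicit false
open Set Topology

namespace Pool.Agent.KS6_91.PL.Conv

open Pool.Agent.KS6_91.PL.W983.PL
open Pool.Agent.KS6_91.PL.W152.PCFix

/-- the properties of the generators which are used -/
structure Good (g : ℕ → HC) : Prop where
  BC : S_BC
  map : ∀ k z, (z ∈ LL k → g k z ∈ DX k) ∧ (z ∈ RT k → g k z ∈ DA k) ∧
      (z ∈ II k → (g k)⁻¹ z ∈ DY k) ∧ (z ∈ OO k → (g k)⁻¹ z ∈ DR k)
  pp : ∀ s z, z ∉ Dm (inv s) → lt g s z ∈ Dm s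
  dis : ∀ s t, s ≠ t → Disjoint (Dm s) (Dm t)
  con : ∀ s t, t ≠ inv s → ∀ z ∈ Dm t, ∀ w ∈ Dm t,
      |co (lt g s z) - co (lt g s w)| ≤ 1 / 2 * |co z - co w|

theorem inv_ne (s : ℕ × Bool) : s ≠ inv s := by
  intro h
  have := congrArg Prod.snd h
  simp [inv] at this

theorem lt_inv (g : ℕ → HC) (s : ℕ × Bool) : lt g (inv s) = (lt g s)⁻¹ := by
  obtain ⟨k, _ | _⟩ := s
  · simp [lt, inv]
  · simp [lt, inv]

/-- the inverse word -/
def iw (L : List (ℕ × Bool)) : List (ℕ × Bool) := (L.map inv).reverse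

theorem pr_iw (g : ℕ → HC) (L : List (ℕ × Bool)) : pr g (iw L) = (pr g L)⁻¹ := by
  induction L with
  | nil => simp [iw, pr]
  | cons s L ih =>
    have h1 : iw (s :: L) = iw L ++ [inv s] := by simp [iw]
    rw [h1, pr_append, ih, pr_cons, pr_cons, pr_nil, mul_one, lt_inv, mul_inv_rev]

theorem red_iw {L : List (ℕ × Bool)} (h : FreeGroup.IsReduced L) :
    FreeGroup.IsReduced (iw L) := by
  unfold FreeGroup.IsReduced at h ⊢
  unfold iw
  rw [List.isChain_reverse, List.isChain_map]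
  refine h.imp ?_
  rintro ⟨a, x⟩ ⟨b, y⟩ hab hba
  have h2 : x = y := hab hba.symm
  show (!y) = !x
  rw [h2]

variable {g : ℕ → HC}

/-- the complement of the domain of the inverse of the last letter goes into one component -/
theorem step2 (hg : Good g) (s t : ℕ × Bool) (M : List (ℕ × Bool))
    (hr : FreeGroup.IsReduced (s :: t :: M)) :
    ∃ b, ∀ z, z ∉ Dm (inv ((t :: M).getLast (by simp))) → pr g (s :: t :: M) z ∈ Cp s b := by
  have hr' : FreeGroup.IsReduced (t :: M) := by
    unfold FreeGroup.IsReduced at hr ⊢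
    exact (List.isChain_cons_cons.1 hr).2
  have h1 : s.1 = t.1 → s.2 = t.2 := by
    unfold FreeGroup.IsReduced at hr
    exact (List.isChain_cons_cons.1 hr).1
  obtain ⟨b, hb⟩ := step1 hg.BC hg.map s t (ne_inv_of h1)
  refine ⟨b, fun z hz => ?_⟩
  have h2 := maps hg.dis hg.pp M t hr' z hz
  rw [pr_cons]
  exact hb _ h2

/-- the same with the last letter made explicit -/
theorem step2' (hg : Good g) (s t : ℕ × Bool) (m : List (ℕ × Bool))
    (hr : FreeGroup.IsReduced (s :: m ++ [t])) :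
    ∃ b, ∀ z, z ∉ Dm (inv t) → pr g (s :: m ++ [t]) z ∈ Cp s b := by
  cases m with
  | nil => simpa using step2 hg s t [] (by simpa using hr)
  | cons a m =>
    obtain ⟨b, hb⟩ := step2 hg s a (m ++ [t]) (by simpa using hr)
    refine ⟨b, fun z hz => ?_⟩
    have h1 : (a :: (m ++ [t])).getLast (by simp) = t := by
      rw [List.getLast_cons (by simp), List.getLast_append_singleton]
    rw [h1] at hb
    simpa using hb z hz

theorem step3 (hg : Good g) (s t : ℕ × Bool) (m : List (ℕ × Bool))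
    (hr : FreeGroup.IsReduced (s :: m ++ [t])) :
    ∃ b', ∀ z, z ∉ Cp (inv t) b' → pr g (s :: m ++ [t]) z ∈ Dm s := by
  have e1 : iw (s :: m ++ [t]) = inv t :: iw m ++ [inv s] := by simp [iw]
  have h1 := red_iw hr
  rw [e1] at h1
  obtain ⟨b', hb'⟩ := step2' hg (inv t) (inv s) (iw m) h1
  refine ⟨b', fun z hz => ?_⟩
  by_contra hcon
  apply hz
  have h2 := hb' (pr g (s :: m ++ [t]) z) (by rw [inv_inv']; exact hcon)
  rw [← e1, pr_iw] at h2
  have h3 : (pr g (s :: m ++ [t]))⁻¹ (pr g (s :: m ++ [t]) z) = z :=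
    (pr g (s :: m ++ [t])).symm_apply_apply z
  rwa [h3] at h2

/-! ### connectedness -/

theorem compl_Cp (hBC : S_BC) (s : ℕ × Bool) (b : Bool) :
    (Cp s b)ᶜ = E '' Ioo (hi s b) (lo s b + 1) := by
  obtain ⟨h1, h2, h3⟩ := lo_pos hBC s b
  ext z
  constructor
  · intro hz
    by_cases h : lo s b ≤ co z
    · have h4 : hi s b < co z := by
        by_contra h5
        exact hz ⟨h, not_lt.1 h5⟩
      exact ⟨co z, ⟨h4, by linarith [co_lt_one z]⟩, E_co z⟩
    · push Not at h
      refine ⟨co z + 1, ⟨by linarith [co_nonneg z], by linarith⟩, ?_⟩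
      rw [E_add_one, E_co]
  · rintro ⟨t, ⟨ht1, ht2⟩, rfl⟩ ⟨h4, h5⟩
    rcases lt_or_ge t 1 with ht | ht
    · rw [co_E_of (by linarith) ht] at h4 h5
      linarith
    · have e : co (E t) = t - 1 := by
        have : E t = E (t - 1) := by
          rw [← E_add_one (t - 1), sub_add_cancel]
        rw [this, co_E_of (by linarith) (by linarith)]
      rw [e] at h4 h5
      linarith

theorem conn (hBC : S_BC) (s : ℕ × Bool) (b : Bool) : IsPreconnected (Cp s b)ᶜ := by
  rw [compl_Cp hBC]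
  exact isPreconnected_Ioo.image _ continuous_E.continuousOn

theorem Cp_closed (hBC : S_BC) (s : ℕ × Bool) (b : Bool) : IsClosed (Cp s b) := by
  obtain ⟨h1, h2, h3⟩ := lo_pos hBC s b
  have : Cp s b = E '' Icc (lo s b) (hi s b) := by
    ext z
    constructor
    · rintro ⟨h4, h5⟩
      exact ⟨co z, ⟨h4, h5⟩, E_co z⟩
    · rintro ⟨t, ⟨ht1, ht2⟩, rfl⟩
      have e := co_E_of (t := t) (by linarith) (by linarith)
      exact ⟨by rw [e]; exact ht1, by rw [e]; exact ht2⟩
  rw [this]
  exact (isCompact_Icc.image continuous_E).isClosed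

theorem Cp_disj (hBC : S_BC) (s : ℕ × Bool) : Disjoint (Cp s false) (Cp s true) := by
  rw [Set.disjoint_left]
  rintro z ⟨h1, h2⟩ ⟨h3, h4⟩
  obtain ⟨k1, k2, k3, k4, k5, k6⟩ := hBC.1 s.1
  obtain ⟨k, _ | _⟩ := s <;> simp only [lo, hi, if_true, if_false,
    Bool.false_eq_true] at * <;> linarith

/-- Reduced words of length at least two: the complement of one component of the domain of the
inverse of the last letter goes into one component of the domain of the first letter. -/
theorem comp (hg : Good g) (s t : ℕ × Bool) (m : List (ℕ × Bool))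
    (hr : FreeGroup.IsReduced (s :: m ++ [t])) :
    ∃ b b', ∀ z, z ∉ Cp (inv t) b' → pr g (s :: m ++ [t]) z ∈ Cp s b := by
  obtain ⟨b', hb'⟩ := step3 hg s t m hr
  set w := pr g (s :: m ++ [t]) with hw
  have h1 : IsPreconnected (w '' (Cp (inv t) b')ᶜ) :=
    (conn hg.BC (inv t) b').image _ w.continuous.continuousOn
  have h2 : w '' (Cp (inv t) b')ᶜ ⊆ Cp s false ∪ Cp s true := by
    rintro _ ⟨z, hz, rfl⟩
    rw [← Dm_eq]
    exact hb' z hz
  have h3 := isPreconnected_iff_subset_of_disjoint_closed.1 h1 (Cp s false) (Cp s true)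
    (Cp_closed hg.BC s false) (Cp_closed hg.BC s true) h2 (by
      rw [Set.disjoint_iff_inter_eq_empty.1 (Cp_disj hg.BC s), Set.inter_empty])
  rcases h3 with h3 | h3
  · exact ⟨false, b', fun z hz => h3 ⟨z, hz, rfl⟩⟩
  · exact ⟨true, b', fun z hz => h3 ⟨z, hz, rfl⟩⟩

/-! ### contraction -/

/-- a reduced word contracts the domain of a letter which may follow it -/
theorem contr_word (hg : Good g) (t : ℕ × Bool) (m : List (ℕ × Bool)) :
    ∀ x : List (ℕ × Bool), FreeGroup.IsReduced (x ++ t :: m) → ∀ z ∈ Dm t, ∀ w ∈ Dm t,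
      |co (pr g x z) - co (pr g x w)| ≤ (1 / 2) ^ x.length * |co z - co w| ∧
      pr g x z ∈ Dm ((x ++ [t]).head (by simp)) := by
  intro x
  induction x with
  | nil => intro _ z hz w _; simpa [pr_nil] using hz
  | cons s x ih =>
    intro hr z hz w hw
    have hr' : FreeGroup.IsReduced (x ++ t :: m) := by
      unfold FreeGroup.IsReduced at hr ⊢
      exact List.IsChain.tail hr
    obtain ⟨h1, h2⟩ := ih hr' z hz w hw
    obtain ⟨-, h3⟩ := ih hr' w hw z hz
    have h4 : (x ++ [t]).head (by simp) ≠ inv s := by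
      cases x with
      | nil =>
        unfold FreeGroup.IsReduced at hr
        simp only [List.cons_append, List.nil_append, List.isChain_cons_cons] at hr
        exact ne_inv_of hr.1
      | cons a x =>
        unfold FreeGroup.IsReduced at hr
        simp only [List.cons_append, List.isChain_cons_cons] at hr
        exact ne_inv_of hr.1
    constructor
    · rw [pr_cons]
      have h5 := hg.con s _ h4 _ h2 _ h3
      calc |co (lt g s (pr g x z)) - co (lt g s (pr g x w))|
          ≤ 1 / 2 * |co (pr g x z) - co (pr g x w)| := h5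
        _ ≤ 1 / 2 * ((1 / 2) ^ x.length * |co z - co w|) := by linarith
        _ = (1 / 2) ^ (s :: x).length * |co z - co w| := by
          rw [List.length_cons, pow_succ]; ring
    · rw [pr_cons]
      have h6 : lt g s (pr g x z) ∈ Dm s := by
        apply hg.pp
        exact Set.disjoint_left.1 (hg.dis _ _ h4) h2
      simpa using h6

/-- `h` maps the complement of a set of small diameter to a set of small diameter -/
def Small (δ : ℝ) (h : HC) : Prop :=
  ∃ A B : Set Circle, A.Nonempty ∧ B.Nonempty ∧ (∀ z ∈ A, ∀ w ∈ A, |co z - co w| ≤ δ) ∧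
    (∀ z ∈ B, ∀ w ∈ B, |co z - co w| ≤ δ) ∧ ∀ z, z ∉ B → h z ∈ A

theorem Cp_nonempty (hBC : S_BC) (s : ℕ × Bool) (b : Bool) : (Cp s b).Nonempty := by
  obtain ⟨h1, h2, h3⟩ := lo_pos hBC s b
  have e := co_E_of (t := lo s b) (by linarith) (by linarith)
  exact ⟨E (lo s b), by rw [e], by rw [e]; exact h2.le⟩

theorem image_small (hg : Good g) (M : ℕ) (s : ℕ × Bool) (m x : List (ℕ × Bool)) (b : Bool)
    (hr : FreeGroup.IsReduced (x ++ s :: m)) (hM : M ≤ x.length + s.1) :
    ∀ z ∈ pr g x '' Cp s b, ∀ w ∈ pr g x '' Cp s b, |co z - co w| ≤ (1 / 2) ^ M := by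
  rintro _ ⟨z, hz, rfl⟩ _ ⟨w, hw, rfl⟩
  have h1 := (contr_word hg s m x hr z (Cp_sub s b hz) w (Cp_sub s b hw)).1
  have h2 := diam_Cp s b z hz w hw
  calc |co (pr g x z) - co (pr g x w)| ≤ (1 / 2) ^ x.length * |co z - co w| := h1
    _ ≤ (1 / 2) ^ x.length * (1 / 2 ^ (s.1 + 6)) := by gcongr
    _ = (1 / 2 : ℝ) ^ (x.length + s.1 + 6) := by
      rw [← one_div_pow, ← pow_add, add_assoc]
    _ ≤ (1 / 2) ^ M := pow_le_pow_of_le_one (by norm_num) (by norm_num) (by omega)

theorem small (hg : Good g) (M : ℕ) (x m y : List (ℕ × Bool)) (s t : ℕ × Bool)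
    (hr : FreeGroup.IsReduced (x ++ ((s :: m ++ [t]) ++ y))) (h1 : M ≤ x.length + s.1)
    (h2 : M ≤ y.length + t.1) : Small ((1 / 2) ^ M) (pr g (x ++ ((s :: m ++ [t]) ++ y))) := by
  have hrm : FreeGroup.IsReduced (s :: m ++ [t]) := by
    have hr' := hr
    unfold FreeGroup.IsReduced at hr' ⊢
    exact (List.isChain_append.1 (List.isChain_append.1 hr').2.1).1
  obtain ⟨b, b', hb⟩ := comp hg s t m hrm
  have hry : FreeGroup.IsReduced (iw y ++ inv t :: (iw (x ++ s :: m))) := by
    have h3 := red_iw hr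
    have e : iw (x ++ ((s :: m ++ [t]) ++ y)) = iw y ++ inv t :: (iw (x ++ s :: m)) := by
      simp [iw]
    rwa [e] at h3
  refine ⟨pr g x '' Cp s b, pr g (iw y) '' Cp (inv t) b', (Cp_nonempty hg.BC s b).image _,
    (Cp_nonempty hg.BC _ _).image _, ?_, ?_, ?_⟩
  · exact image_small hg M s (m ++ [t] ++ y) x b (by simpa using hr) h1
  · refine image_small hg M (inv t) (iw (x ++ s :: m)) (iw y) b' hry ?_
    simpa [iw, inv] using h2
  · intro z hz
    rw [pr_append, pr_append]
    refine ⟨pr g (s :: m ++ [t]) (pr g y z), hb _ ?_, rfl⟩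
    intro h3
    apply hz
    refine ⟨pr g y z, h3, ?_⟩
    rw [pr_iw]
    exact (pr g y).symm_apply_apply z

end Pool.Agent.KS6_91.PL.Conv
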