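import Pool.Agent.KS6_91.PL.W983_PL_Stm

/-!
# MP_fe6d1a_gt, part NF: the group is not Fuchsian (cross ratio)
-/
set_option autoImplicit false
open Set Topology Filter

namespace Pool.Agent.KS6_91.PL.W791.PC.NF

open Pool.Agent.KS6_91.PL.W983.PL

theorem den_ne {α β : ℂ} (h : ‖α‖ ^ 2 - ‖β‖ ^ 2 = 1) (z : Circle) :
    (starRingEnd ℂ) β * (z : ℂ) + (starRingEnd ℂ) α ≠ 0 := by
  intro h0
  have h1 : (starRingEnd ℂ) β * (z : ℂ) = - (starRingEnd ℂ) α := by linear_combination h0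
  have h2 : ‖(starRingEnd ℂ) β * (z : ℂ)‖ = ‖- (starRingEnd ℂ) α‖ := by rw [h1]
  rw [norm_mul, norm_neg, RCLike.norm_conj, RCLike.norm_conj, Circle.norm_coe, mul_one] at h2
  rw [h2] at h
  simp at h

theorem sub_moeb {α β : ℂ} (h : ‖α‖ ^ 2 - ‖β‖ ^ 2 = 1) {f : HC}
    (hf : ∀ z : Circle, (f z : ℂ) = (α * z + β) / ((starRingEnd ℂ) β * z + (starRingEnd ℂ) α))
    (z w : Circle) :
    ((f z : ℂ) - (f w : ℂ)) * (((starRingEnd ℂ) β * (z : ℂ) + (starRingEnd ℂ) α)
      * ((starRingEnd ℂ) β * (w : ℂ) + (starRingEnd ℂ) α)) = (z : ℂ) - (w : ℂ) := by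
  have hz := den_ne h z
  have hw := den_ne h w
  rw [hf z, hf w, div_sub_div _ _ hz hw, div_mul_cancel₀ _ (mul_ne_zero hz hw)]
  have h1 : α * (starRingEnd ℂ) α - β * (starRingEnd ℂ) β = 1 := by
    rw [Complex.mul_conj, Complex.mul_conj, Complex.normSq_eq_norm_sq, Complex.normSq_eq_norm_sq,
      ← Complex.ofReal_sub, h, Complex.ofReal_one]
  linear_combination ((z : ℂ) - w) * h1

/-- the cross ratio is preserved, written without division -/
theorem cross {f : HC} (hf : IsMoebius f) (z₁ z₂ z₃ z₄ : Circle) :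
    ((f z₁ : ℂ) - f z₃) * ((f z₂ : ℂ) - f z₄) * (((z₁ : ℂ) - z₄) * ((z₂ : ℂ) - z₃)) =
      ((f z₁ : ℂ) - f z₄) * ((f z₂ : ℂ) - f z₃) * (((z₁ : ℂ) - z₃) * ((z₂ : ℂ) - z₄)) := by
  obtain ⟨α, β, h, hf⟩ := hf
  rw [← sub_moeb h hf z₁ z₄, ← sub_moeb h hf z₂ z₃, ← sub_moeb h hf z₁ z₃, ← sub_moeb h hf z₂ z₄]
  ring

theorem main (hBC : S_BC) (hMAP : S_MAP) : S_NF := by
  rintro F g hg ⟨φ, H, -, hMo, -, -, hGH⟩
  obtain ⟨hb, -, hlim⟩ := hBC
  -- limits
  have hbl : Tendsto bb atTop (𝓝 (1 / 8)) := by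
    rw [Metric.tendsto_atTop]
    intro ε hε
    obtain ⟨N, hN⟩ := hlim ε hε
    refine ⟨N, fun k hk => ?_⟩
    have h1 := hN k hk
    have h2 := (hb k).2.2.2.1
    rw [Real.dist_eq, abs_lt]
    constructor <;> linarith
  have hcl : Tendsto cc atTop (𝓝 (1 / 8)) := by
    refine tendsto_of_tendsto_of_tendsto_of_le_of_le hbl tendsto_const_nhds ?_ ?_
    · intro k; exact (hb k).2.1.le
    · intro k; exact (hb k).2.2.2.2.1.le
  have lim1 : ∀ p : Circle, (∀ k, p ∈ LL k) →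
      Tendsto (fun k => ((φ (g k p) : Circle) : ℂ)) atTop (𝓝 ((φ (E (3 / 8)) : Circle) : ℂ)) := by
    intro p hp
    have h1 : Tendsto (fun k => co (g k p)) atTop (𝓝 (3 / 8)) := by
      have ha : Tendsto (fun k => 1 / 2 - cc k) atTop (𝓝 (3 / 8)) := by
        have := hcl.const_sub (1 / 2)
        norm_num at this ⊢
        exact this
      have hb' : Tendsto (fun k => 1 / 2 - bb k) atTop (𝓝 (3 / 8)) := by
        have := hbl.const_sub (1 / 2)
        norm_num at this ⊢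
        exact this
      refine tendsto_of_tendsto_of_tendsto_of_le_of_le ha hb' ?_ ?_
      · intro k; exact ((hMAP F g hg k p).1 (hp k)).1
      · intro k; exact ((hMAP F g hg k p).1 (hp k)).2
    have h2 : Tendsto (fun k => E (co (g k p))) atTop (𝓝 (E (3 / 8))) :=
      (continuous_E.tendsto _).comp h1
    simp only [E_co] at h2
    have h3 : Continuous fun z : Circle => ((φ z : Circle) : ℂ) :=
      continuous_subtype_val.comp φ.continuous
    exact (h3.tendsto _).comp h2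
  have lim2 : ∀ p : Circle, (∀ k, p ∈ RT k) →
      Tendsto (fun k => ((φ (g k p) : Circle) : ℂ)) atTop (𝓝 ((φ (E (5 / 8)) : Circle) : ℂ)) := by
    intro p hp
    have h1 : Tendsto (fun k => co (g k p)) atTop (𝓝 (5 / 8)) := by
      have ha : Tendsto (fun k => 1 / 2 + bb k) atTop (𝓝 (5 / 8)) := by
        have := hbl.const_add (1 / 2)
        norm_num at this ⊢
        exact this
      have hb' : Tendsto (fun k => 1 / 2 + cc k) atTop (𝓝 (5 / 8)) := by
        have := hcl.const_add (1 / 2)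
        norm_num at this ⊢
        exact this
      refine tendsto_of_tendsto_of_tendsto_of_le_of_le ha hb' ?_ ?_
      · intro k; exact ((hMAP F g hg k p).2.1 (hp k)).1
      · intro k; exact ((hMAP F g hg k p).2.1 (hp k)).2
    have h2 : Tendsto (fun k => E (co (g k p))) atTop (𝓝 (E (5 / 8))) :=
      (continuous_E.tendsto _).comp h1
    simp only [E_co] at h2
    have h3 : Continuous fun z : Circle => ((φ z : Circle) : ℂ) :=
      continuous_subtype_val.comp φ.continuous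
    exact (h3.tendsto _).comp h2
  -- the four points
  have hp1 : ∀ k, E (1 / 32) ∈ LL k := by
    intro k
    left
    rw [co_E_of (by norm_num) (by norm_num)]
    have := (hb k).1
    linarith
  have hp2 : ∀ k, E (31 / 32) ∈ LL k := by
    intro k
    right
    rw [co_E_of (by norm_num) (by norm_num)]
    have := (hb k).1
    linarith
  have hq1 : ∀ k, E (1 / 4) ∈ RT k := by
    intro k
    have := (hb k).2.2.2.2.1
    constructor
    · rw [co_E_of (by norm_num) (by norm_num)]; linarith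
    · rw [co_E_of (by norm_num) (by norm_num)]; linarith
  have hq2 : ∀ k, E (1 / 2) ∈ RT k := by
    intro k
    have := (hb k).2.2.2.2.1
    constructor
    · rw [co_E_of (by norm_num) (by norm_num)]; linarith
    · rw [co_E_of (by norm_num) (by norm_num)]; linarith
  have hcr : ∀ k, ((φ (g k (E (1 / 32))) : ℂ) - φ (g k (E (1 / 4)))) *
      ((φ (g k (E (31 / 32))) : ℂ) - φ (g k (E (1 / 2)))) *
      (((φ (E (1 / 32)) : ℂ) - φ (E (1 / 2))) * ((φ (E (31 / 32)) : ℂ) - φ (E (1 / 4)))) =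
      ((φ (g k (E (1 / 32))) : ℂ) - φ (g k (E (1 / 2)))) *
      ((φ (g k (E (31 / 32))) : ℂ) - φ (g k (E (1 / 4)))) *
      (((φ (E (1 / 32)) : ℂ) - φ (E (1 / 4))) * ((φ (E (31 / 32)) : ℂ) - φ (E (1 / 2)))) := by
    intro k
    have hk : g k ∈ (FreeGroup.lift g).range := ⟨FreeGroup.of k, by simp⟩
    have hm := hMo _ ((hGH (g k)).1 hk)
    have e : ∀ z, (φ * g k * φ⁻¹) (φ z) = φ (g k z) := by
      intro z
      change φ (g k (φ.symm (φ z))) = φ (g k z)
      rw [φ.symm_apply_apply]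
    have := cross hm (φ (E (1 / 32))) (φ (E (31 / 32))) (φ (E (1 / 4))) (φ (E (1 / 2)))
    simpa only [e] using this
  have l1 := lim1 _ hp1
  have l2 := lim1 _ hp2
  have l3 := lim2 _ hq1
  have l4 := lim2 _ hq2
  have L := ((l1.sub l3).mul (l2.sub l4)).mul_const
    (((φ (E (1 / 32)) : ℂ) - φ (E (1 / 2))) * ((φ (E (31 / 32)) : ℂ) - φ (E (1 / 4))))
  have R := ((l1.sub l4).mul (l2.sub l3)).mul_const
    (((φ (E (1 / 32)) : ℂ) - φ (E (1 / 4))) * ((φ (E (31 / 32)) : ℂ) - φ (E (1 / 2))))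
  have hfun : (fun k => ((φ (g k (E (1 / 32))) : ℂ) - φ (g k (E (1 / 4)))) *
      ((φ (g k (E (31 / 32))) : ℂ) - φ (g k (E (1 / 2)))) *
      (((φ (E (1 / 32)) : ℂ) - φ (E (1 / 2))) * ((φ (E (31 / 32)) : ℂ) - φ (E (1 / 4))))) =
      fun k => ((φ (g k (E (1 / 32))) : ℂ) - φ (g k (E (1 / 2)))) *
      ((φ (g k (E (31 / 32))) : ℂ) - φ (g k (E (1 / 4)))) *
      (((φ (E (1 / 32)) : ℂ) - φ (E (1 / 4))) * ((φ (E (31 / 32)) : ℂ) - φ (E (1 / 2)))) :=
    funext hcr
  rw [hfun] at L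
  have hU := tendsto_nhds_unique L R
  -- distinctness
  have inj : ∀ s t : ℝ, 0 ≤ s → s < 1 → 0 ≤ t → t < 1 → s ≠ t →
      ((φ (E s) : Circle) : ℂ) - ((φ (E t) : Circle) : ℂ) ≠ 0 := by
    intro s t h1 h2 h3 h4 h5 h6
    have h7 : φ (E s) = φ (E t) := Subtype.ext (sub_eq_zero.1 h6)
    have h8 : E s = E t := φ.injective h7
    exact h5 (E_injOn h1 (by linarith) h3 (by linarith) h8)
  have hxa := inj (3 / 8) (5 / 8) (by norm_num) (by norm_num) (by norm_num) (by norm_num)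
    (by norm_num)
  have hpp := inj (1 / 32) (31 / 32) (by norm_num) (by norm_num) (by norm_num) (by norm_num)
    (by norm_num)
  have hqq := inj (1 / 4) (1 / 2) (by norm_num) (by norm_num) (by norm_num) (by norm_num)
    (by norm_num)
  have key : (((φ (E (3 / 8)) : ℂ) - φ (E (5 / 8))) * ((φ (E (3 / 8)) : ℂ) - φ (E (5 / 8)))) *
      (((φ (E (1 / 32)) : ℂ) - φ (E (31 / 32))) * ((φ (E (1 / 4)) : ℂ) - φ (E (1 / 2)))) = 0 := by
    linear_combination -hU
  exact mul_ne_zero (mul_ne_zero hxa hxa) (mul_ne_zero hpp hqq) key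

end Pool.Agent.KS6_91.PL.W791.PC.NF
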