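import Pool.Agent.KS6_91.PL.ConvB
import Pool.Agent.KS6_91.PL.W791_PC_NF

/-!
# Convergence groups
-/
set_option autoImplicit false
open Set Topology Filter

namespace Pool.Agent.KS6_91.PL.Conv

open Pool.Agent.KS6_91.PL.W983.PL
open Pool.Agent.KS6_91.PL.W152.PCFix

/-- `G` is a (discrete) convergence group on the circle: every sequence of distinct elements of
`G` has a subsequence which converges to a point `a`, uniformly on the compact subsets of the
complement of a point `b`. -/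
def IsConvergence (G : Subgroup HC) : Prop :=
  ∀ h : ℕ → HC, Function.Injective h → (∀ j, h j ∈ G) →
    ∃ ψ : ℕ → ℕ, StrictMono ψ ∧ ∃ a b : Circle, ∀ K : Set Circle, IsCompact K → b ∉ K →
      ∀ U : Set Circle, IsOpen U → a ∈ U → ∀ᶠ j in atTop, ∀ z ∈ K, h (ψ j) z ∈ U

variable {g : ℕ → HC}

theorem finite_not_small (hg : Good g) (H : Subgroup HC) (hH : H ≤ (FreeGroup.lift g).range)
    (hfin : ∀ u ∈ (FreeGroup.lift g).range, ∀ v ∈ (FreeGroup.lift g).range,
      {k | u * g k * v ∈ H}.Finite) (M : ℕ) :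
    {h | h ∈ H ∧ ¬ Small ((1 / 2) ^ M) h}.Finite := by
  have hF := finite_words M (2 * M + 1)
  set F := {L : List (ℕ × Bool) | L.length ≤ 2 * M + 1 ∧ ∀ s ∈ L, s.1 < M} with hFd
  have hpr : ∀ L, pr g L ∈ (FreeGroup.lift g).range := fun L => ⟨FreeGroup.mk L, lift_mk g L⟩
  have hbig : ((pr g '' F) ∪ ⋃ p ∈ F ×ˢ F,
      ((fun k => pr g p.1 * g k * pr g p.2) '' {k | pr g p.1 * g k * pr g p.2 ∈ H} ∪
        (fun k => pr g p.1 * (g k)⁻¹ * pr g p.2) ''
          {k | pr g p.1 * (g k)⁻¹ * pr g p.2 ∈ H})).Finite := by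
    refine (hF.image _).union ((hF.prod hF).biUnion fun p _ =>
      (((hfin _ (hpr _) _ (hpr _)).image _).union (Set.Finite.image _ ?_)))
    refine (hfin _ (inv_mem (hpr p.2)) _ (inv_mem (hpr p.1))).subset ?_
    intro k hk
    have h0 : pr g p.1 * (g k)⁻¹ * pr g p.2 ∈ H := hk
    have h1 := inv_mem h0
    have h2 : (pr g p.1 * (g k)⁻¹ * pr g p.2)⁻¹ = (pr g p.2)⁻¹ * g k * (pr g p.1)⁻¹ := by group
    rw [h2] at h1
    exact h1
  refine hbig.subset ?_
  rintro h ⟨hh, hns⟩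
  obtain ⟨w, rfl⟩ := hH hh
  have hw : FreeGroup.lift g w = pr g w.toWord := by
    conv_lhs => rw [← FreeGroup.mk_toWord (x := w)]
    exact lift_mk g _
  have hr := FreeGroup.isReduced_toWord (x := w)
  rw [hw] at hh hns ⊢
  rcases split M w.toWord with ⟨h1, h2⟩ | ⟨u, s, v, e, h1, h2, h3⟩ | ⟨x, s, m, t, y, e, h1, h2⟩
  · left; exact ⟨_, ⟨h1, h2⟩, rfl⟩
  · right
    rw [e] at hh ⊢
    have e1 : pr g (u ++ s :: v) = pr g u * lt g s * pr g v := by
      rw [pr_append, pr_cons, mul_assoc]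
    rw [e1] at hh ⊢
    have hu : u.length ≤ 2 * M + 1 := by omega
    have hv : v.length ≤ 2 * M + 1 := by omega
    refine Set.mem_biUnion (x := (u, v)) ⟨⟨hu, h2⟩, ⟨hv, h3⟩⟩ ?_
    obtain ⟨k, b⟩ := s
    cases b with
    | true => left; exact ⟨k, hh, rfl⟩
    | false => right; exact ⟨k, hh, rfl⟩
  · exfalso
    rw [e] at hns hr
    exact hns (small hg M x m y s t hr h1 h2)

theorem unif (ε : ℝ) (hε : 0 < ε) :
    ∃ M : ℕ, ∀ z w : Circle, |co z - co w| ≤ (1 / 2) ^ M → dist z w < ε := by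
  have h1 : UniformContinuousOn (fun t => (E t : ℂ)) (Icc 0 1) :=
    isCompact_Icc.uniformContinuousOn_of_continuous
      (continuous_subtype_val.comp continuous_E).continuousOn
  rw [Metric.uniformContinuousOn_iff] at h1
  obtain ⟨δ, hδ, h2⟩ := h1 ε hε
  obtain ⟨M, hM⟩ := exists_pow_lt_of_lt_one hδ (by norm_num : (1 / 2 : ℝ) < 1)
  refine ⟨M, fun z w h => ?_⟩
  have := h2 (co z) ⟨co_nonneg z, (co_lt_one z).le⟩ (co w) ⟨co_nonneg w, (co_lt_one w).le⟩
    (by rw [Real.dist_eq]; linarith)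
  simp only [E_co] at this
  exact this

theorem convergence_of (H : Subgroup HC)
    (hfin : ∀ M : ℕ, {h | h ∈ H ∧ ¬ Small ((1 / 2) ^ M) h}.Finite) : IsConvergence H := by
  intro h hinj hH
  have h1 : ∀ M : ℕ, ∀ᶠ j in atTop, Small ((1 / 2) ^ M) (h j) := by
    intro M
    have h2 : {j | ¬ Small ((1 / 2) ^ M) (h j)}.Finite := by
      refine ((hfin M).preimage hinj.injOn).subset ?_
      intro j hj
      exact ⟨hH j, hj⟩
    obtain ⟨N, hN⟩ := h2.bddAbove
    filter_upwards [eventually_gt_atTop N] with j hj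
    by_contra hc
    exact absurd (hN hc) (not_le.2 hj)
  obtain ⟨ψ, hψ, hs⟩ := Filter.extraction_forall_of_eventually h1
  choose A B hA hB hdA hdB hAB using hs
  choose a ha using hA
  choose b hb using hB
  obtain ⟨⟨a0, b0⟩, -, φ, hφ, hlim⟩ :=
    (isCompact_univ : IsCompact (univ : Set (Circle × Circle))).tendsto_subseq
      (x := fun n => (a n, b n)) (fun _ => mem_univ _)
  have hla : Tendsto (fun j => a (φ j)) atTop (𝓝 a0) := (continuous_fst.tendsto _).comp hlim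
  have hlb : Tendsto (fun j => b (φ j)) atTop (𝓝 b0) := (continuous_snd.tendsto _).comp hlim
  refine ⟨ψ ∘ φ, hψ.comp hφ, a0, b0, fun K hK hbK U hU haU => ?_⟩
  obtain ⟨ε, hε, hεU⟩ := Metric.isOpen_iff.1 hU a0 haU
  obtain ⟨η, hη, hηK⟩ := Metric.isOpen_iff.1 hK.isClosed.isOpen_compl b0 hbK
  obtain ⟨M1, hM1⟩ := unif (ε / 2) (by positivity)
  obtain ⟨M2, hM2⟩ := unif (η / 2) (by positivity)
  have e1 : ∀ᶠ j in atTop, dist (a (φ j)) a0 < ε / 2 :=
    (Metric.tendsto_nhds.1 hla) _ (by positivity)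
  have e2 : ∀ᶠ j in atTop, dist (b (φ j)) b0 < η / 2 :=
    (Metric.tendsto_nhds.1 hlb) _ (by positivity)
  filter_upwards [e1, e2, eventually_ge_atTop M1, eventually_ge_atTop M2] with j h1 h2 h3 h4 z hz
  have hφj : j ≤ φ j := hφ.le_apply
  have p1 : ((1 : ℝ) / 2) ^ φ j ≤ (1 / 2) ^ M1 :=
    pow_le_pow_of_le_one (by norm_num) (by norm_num) (h3.trans hφj)
  have p2 : ((1 : ℝ) / 2) ^ φ j ≤ (1 / 2) ^ M2 :=
    pow_le_pow_of_le_one (by norm_num) (by norm_num) (h4.trans hφj)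
  have hzB : z ∉ B (φ j) := by
    intro hzB
    have h5 := hM2 z (b (φ j)) ((hdB (φ j) z hzB (b (φ j)) (hb _)).trans p2)
    have h6 : dist z b0 < η := by
      have := dist_triangle z (b (φ j)) b0
      linarith
    exact hηK (Metric.mem_ball.2 h6) hz
  have hzA := hAB (φ j) z hzB
  have h5 := hM1 _ _ ((hdA (φ j) _ hzA (a (φ j)) (ha _)).trans p1)
  refine hεU (Metric.mem_ball.2 ?_)
  have := dist_triangle (h (ψ (φ j)) z) (a (φ j)) a0
  show dist (h (ψ (φ j)) z) a0 < ε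
  linarith

/-! ### The sequence of the generators does not converge -/

theorem bl (hBC : S_BC) : Tendsto bb atTop (𝓝 (1 / 8)) := by
  obtain ⟨hb, -, hlim⟩ := hBC
  rw [Metric.tendsto_atTop]
  intro ε hε
  obtain ⟨N, hN⟩ := hlim ε hε
  refine ⟨N, fun k hk => ?_⟩
  have h1 := hN k hk
  have h2 := (hb k).2.2.2.1
  rw [Real.dist_eq, abs_lt]
  constructor <;> linarith

theorem cl (hBC : S_BC) : Tendsto cc atTop (𝓝 (1 / 8)) := by
  refine tendsto_of_tendsto_of_tendsto_of_le_of_le (bl hBC) tendsto_const_nhds ?_ ?_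
  · intro k; exact (hBC.1 k).2.1.le
  · intro k; exact (hBC.1 k).2.2.2.2.1.le

theorem lim1 (hg : Good g) (p : Circle) (hp : ∀ k, p ∈ LL k) :
    Tendsto (fun k => g k p) atTop (𝓝 (E (3 / 8))) := by
  have h1 : Tendsto (fun k => co (g k p)) atTop (𝓝 (3 / 8)) := by
    have ha : Tendsto (fun k => 1 / 2 - cc k) atTop (𝓝 (3 / 8)) := by
      have := (cl hg.BC).const_sub (1 / 2)
      norm_num at this ⊢
      exact this
    have hb' : Tendsto (fun k => 1 / 2 - bb k) atTop (𝓝 (3 / 8)) := by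
      have := (bl hg.BC).const_sub (1 / 2)
      norm_num at this ⊢
      exact this
    refine tendsto_of_tendsto_of_tendsto_of_le_of_le ha hb' ?_ ?_
    · intro k; exact ((hg.map k p).1 (hp k)).1
    · intro k; exact ((hg.map k p).1 (hp k)).2
  have h2 : Tendsto (fun k => E (co (g k p))) atTop (𝓝 (E (3 / 8))) :=
    (continuous_E.tendsto _).comp h1
  simpa only [E_co] using h2

theorem lim2 (hg : Good g) (p : Circle) (hp : ∀ k, p ∈ RT k) :
    Tendsto (fun k => g k p) atTop (𝓝 (E (5 / 8))) := by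
  have h1 : Tendsto (fun k => co (g k p)) atTop (𝓝 (5 / 8)) := by
    have ha : Tendsto (fun k => 1 / 2 + bb k) atTop (𝓝 (5 / 8)) := by
      have := (bl hg.BC).const_add (1 / 2)
      norm_num at this ⊢
      exact this
    have hb' : Tendsto (fun k => 1 / 2 + cc k) atTop (𝓝 (5 / 8)) := by
      have := (cl hg.BC).const_add (1 / 2)
      norm_num at this ⊢
      exact this
    refine tendsto_of_tendsto_of_tendsto_of_le_of_le ha hb' ?_ ?_
    · intro k; exact ((hg.map k p).2.1 (hp k)).1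
    · intro k; exact ((hg.map k p).2.1 (hp k)).2
  have h2 : Tendsto (fun k => E (co (g k p))) atTop (𝓝 (E (5 / 8))) :=
    (continuous_E.tendsto _).comp h1
  simpa only [E_co] using h2

theorem pts (hBC : S_BC) : (∀ k, E (1 / 32) ∈ LL k) ∧ (∀ k, E (31 / 32) ∈ LL k) ∧
    (∀ k, E (1 / 4) ∈ RT k) ∧ ∀ k, E (1 / 2) ∈ RT k := by
  have hb := hBC.1
  refine ⟨fun k => ?_, fun k => ?_, fun k => ?_, fun k => ?_⟩
  · left
    rw [co_E_of (by norm_num) (by norm_num)]
    have := (hb k).1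
    linarith
  · right
    rw [co_E_of (by norm_num) (by norm_num)]
    have := (hb k).1
    linarith
  · have := (hb k).2.2.2.2.1
    constructor
    · rw [co_E_of (by norm_num) (by norm_num)]; linarith
    · rw [co_E_of (by norm_num) (by norm_num)]; linarith
  · have := (hb k).2.2.2.2.1
    constructor
    · rw [co_E_of (by norm_num) (by norm_num)]; linarith
    · rw [co_E_of (by norm_num) (by norm_num)]; linarith

theorem E_ne {s t : ℝ} (h1 : 0 ≤ s) (h2 : s < 1) (h3 : 0 ≤ t) (h4 : t < 1) (h5 : s ≠ t) :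
    E s ≠ E t := fun h => h5 (E_injOn h1 (by linarith) h3 (by linarith) h)

/-- a sequence tending to infinity in an infinite set -/
theorem seq_of_infinite {S : Set ℕ} (hS : S.Infinite) :
    ∃ κ : ℕ → ℕ, Function.Injective κ ∧ ∀ j, κ j ∈ S := by
  have := hS.to_subtype
  exact ⟨fun j => (Infinite.natEmbedding S j : ℕ), fun a b h =>
    (Infinite.natEmbedding S).injective (Subtype.ext h), fun j => (Infinite.natEmbedding S j).2⟩

theorem finite_of_conv (hg : Good g) (hinj : Function.Injective g) (H : Subgroup HC)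
    (hH : IsConvergence H) (u v : HC) : {k | u * g k * v ∈ H}.Finite := by
  by_contra hS
  obtain ⟨κ, hκ, hκS⟩ := seq_of_infinite hS
  obtain ⟨ψ, hψ, a, b, hab⟩ := hH (fun j => u * g (κ j) * v) (by
    intro i j hij
    apply hκ
    apply hinj
    simpa using hij) hκS
  have hκψ : Tendsto (fun j => κ (ψ j)) atTop atTop :=
    (hκ.comp hψ.injective).nat_tendsto_atTop
  have key : ∀ p : Circle, v⁻¹ p ≠ b → Tendsto (fun j => g (κ (ψ j)) p) atTop (𝓝 (u⁻¹ a)) := by
    intro p hp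
    have h1 : Tendsto (fun j => (u * g (κ (ψ j)) * v) (v⁻¹ p)) atTop (𝓝 a) := by
      rw [tendsto_nhds]
      intro U hU haU
      have := hab {v⁻¹ p} isCompact_singleton (fun h => hp h.symm) U hU haU
      filter_upwards [this] with j hj
      exact hj _ rfl
    have h2 := ((u⁻¹).continuous.tendsto a).comp h1
    refine h2.congr fun j => ?_
    show u.symm (u (g (κ (ψ j)) (v (v.symm p)))) = g (κ (ψ j)) p
    rw [u.symm_apply_apply, v.apply_symm_apply]
  obtain ⟨q1, q2, q3, q4⟩ := pts hg.BC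
  have hv : ∀ p q : Circle, p ≠ q → v⁻¹ p ≠ b ∨ v⁻¹ q ≠ b := by
    intro p q hpq
    by_contra hc
    push Not at hc
    exact hpq (v⁻¹.injective (hc.1.trans hc.2.symm))
  have hL : E (3 / 8) = u⁻¹ a := by
    rcases hv (E (1 / 32)) (E (31 / 32)) (E_ne (by norm_num) (by norm_num) (by norm_num)
      (by norm_num) (by norm_num)) with h | h
    · exact tendsto_nhds_unique ((lim1 hg _ q1).comp hκψ) (key _ h)
    · exact tendsto_nhds_unique ((lim1 hg _ q2).comp hκψ) (key _ h)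
  have hR : E (5 / 8) = u⁻¹ a := by
    rcases hv (E (1 / 4)) (E (1 / 2)) (E_ne (by norm_num) (by norm_num) (by norm_num)
      (by norm_num) (by norm_num)) with h | h
    · exact tendsto_nhds_unique ((lim2 hg _ q3).comp hκψ) (key _ h)
    · exact tendsto_nhds_unique ((lim2 hg _ q4).comp hκψ) (key _ h)
  exact E_ne (by norm_num) (by norm_num) (by norm_num) (by norm_num) (by norm_num)
    (hL.trans hR.symm)

/-- no group containing infinitely many `u * g k * v` is conjugate to a group of Moebius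
transformations -/
theorem finite_of_moebius (hg : Good g) (H : Subgroup HC)
    (hH : ∃ φ : HC, ∀ f ∈ H, IsMoebius (φ * f * φ⁻¹)) (u v : HC) :
    {k | u * g k * v ∈ H}.Finite := by
  by_contra hS
  obtain ⟨κ, hκ, hκS⟩ := seq_of_infinite hS
  have hκt : Tendsto κ atTop atTop := hκ.nat_tendsto_atTop
  obtain ⟨φ, hφ⟩ := hH
  have hc : Continuous fun z : Circle => ((φ (u z) : Circle) : ℂ) :=
    continuous_subtype_val.comp (φ.continuous.comp u.continuous)
  obtain ⟨q1, q2, q3, q4⟩ := pts hg.BC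
  have L1 : ∀ p : Circle, (∀ k, p ∈ LL k) → Tendsto (fun j => ((φ (u (g (κ j) p)) : Circle) : ℂ))
      atTop (𝓝 ((φ (u (E (3 / 8))) : Circle) : ℂ)) := fun p hp =>
    (hc.tendsto _).comp ((lim1 hg p hp).comp hκt)
  have L2 : ∀ p : Circle, (∀ k, p ∈ RT k) → Tendsto (fun j => ((φ (u (g (κ j) p)) : Circle) : ℂ))
      atTop (𝓝 ((φ (u (E (5 / 8))) : Circle) : ℂ)) := fun p hp =>
    (hc.tendsto _).comp ((lim2 hg p hp).comp hκt)
  have l1 := L1 _ q1
  have l2 := L1 _ q2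
  have l3 := L2 _ q3
  have l4 := L2 _ q4
  have hcr : ∀ j, ((φ (u (g (κ j) (E (1 / 32)))) : ℂ) - φ (u (g (κ j) (E (1 / 4))))) *
      ((φ (u (g (κ j) (E (31 / 32)))) : ℂ) - φ (u (g (κ j) (E (1 / 2))))) *
      (((φ (v⁻¹ (E (1 / 32))) : ℂ) - φ (v⁻¹ (E (1 / 2)))) *
        ((φ (v⁻¹ (E (31 / 32))) : ℂ) - φ (v⁻¹ (E (1 / 4))))) =
      ((φ (u (g (κ j) (E (1 / 32)))) : ℂ) - φ (u (g (κ j) (E (1 / 2))))) *
      ((φ (u (g (κ j) (E (31 / 32)))) : ℂ) - φ (u (g (κ j) (E (1 / 4))))) *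
      (((φ (v⁻¹ (E (1 / 32))) : ℂ) - φ (v⁻¹ (E (1 / 4)))) *
        ((φ (v⁻¹ (E (31 / 32))) : ℂ) - φ (v⁻¹ (E (1 / 2))))) := by
    intro j
    have hm := hφ _ (hκS j)
    have e : ∀ z, (φ * (u * g (κ j) * v) * φ⁻¹) (φ (v⁻¹ z)) = φ (u (g (κ j) z)) := by
      intro z
      change φ (u (g (κ j) (v (φ.symm (φ (v.symm z)))))) = φ (u (g (κ j) z))
      rw [φ.symm_apply_apply, v.apply_symm_apply]
    have := Pool.Agent.KS6_91.PL.W791.PC.NF.cross hm (φ (v⁻¹ (E (1 / 32))))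
      (φ (v⁻¹ (E (31 / 32)))) (φ (v⁻¹ (E (1 / 4)))) (φ (v⁻¹ (E (1 / 2))))
    simpa only [e] using this
  have L := ((l1.sub l3).mul (l2.sub l4)).mul_const
    (((φ (v⁻¹ (E (1 / 32))) : ℂ) - φ (v⁻¹ (E (1 / 2)))) *
        ((φ (v⁻¹ (E (31 / 32))) : ℂ) - φ (v⁻¹ (E (1 / 4)))))
  have R := ((l1.sub l4).mul (l2.sub l3)).mul_const
    (((φ (v⁻¹ (E (1 / 32))) : ℂ) - φ (v⁻¹ (E (1 / 4)))) *
        ((φ (v⁻¹ (E (31 / 32))) : ℂ) - φ (v⁻¹ (E (1 / 2)))))
  have hU := tendsto_nhds_unique (L.congr hcr) R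
  have injv : ∀ s t : ℝ, 0 ≤ s → s < 1 → 0 ≤ t → t < 1 → s ≠ t →
      ((φ (v⁻¹ (E s)) : Circle) : ℂ) - ((φ (v⁻¹ (E t)) : Circle) : ℂ) ≠ 0 := by
    intro s t h1 h2 h3 h4 h5 h6
    exact E_ne h1 h2 h3 h4 h5 (v⁻¹.injective (φ.injective (Subtype.ext (sub_eq_zero.1 h6))))
  have inju : ∀ s t : ℝ, 0 ≤ s → s < 1 → 0 ≤ t → t < 1 → s ≠ t →
      ((φ (u (E s)) : Circle) : ℂ) - ((φ (u (E t)) : Circle) : ℂ) ≠ 0 := by
    intro s t h1 h2 h3 h4 h5 h6
    exact E_ne h1 h2 h3 h4 h5 (u.injective (φ.injective (Subtype.ext (sub_eq_zero.1 h6))))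
  have hxa := inju (3 / 8) (5 / 8) (by norm_num) (by norm_num) (by norm_num) (by norm_num)
    (by norm_num)
  have hpp := injv (1 / 32) (31 / 32) (by norm_num) (by norm_num) (by norm_num) (by norm_num)
    (by norm_num)
  have hqq := injv (1 / 4) (1 / 2) (by norm_num) (by norm_num) (by norm_num) (by norm_num)
    (by norm_num)
  have key : (((φ (u (E (3 / 8))) : ℂ) - φ (u (E (5 / 8)))) *
      ((φ (u (E (3 / 8))) : ℂ) - φ (u (E (5 / 8))))) *
      (((φ (v⁻¹ (E (1 / 32))) : ℂ) - φ (v⁻¹ (E (31 / 32)))) *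
        ((φ (v⁻¹ (E (1 / 4))) : ℂ) - φ (v⁻¹ (E (1 / 2))))) = 0 := by
    linear_combination -hU
  exact mul_ne_zero (mul_ne_zero hxa hxa) (mul_ne_zero hpp hqq) key

/-! ### Finitely generated subgroups -/

/-- the exponent sum of the `k`-th letter -/
noncomputable def ex (k : ℕ) : FreeGroup ℕ →* Multiplicative ℤ :=
  FreeGroup.lift fun i => if i = k then Multiplicative.ofAdd 1 else 1

theorem ex_fin (w : FreeGroup ℕ) : ∃ N, ∀ k, N ≤ k → ex k w = 1 := by
  induction w using FreeGroup.induction_on with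
  | C1 => exact ⟨0, fun k _ => map_one _⟩
  | of x =>
    refine ⟨x + 1, fun k hk => ?_⟩
    rw [ex, FreeGroup.lift_apply_of, if_neg (by omega)]
  | inv_of x hx =>
    obtain ⟨N, hN⟩ := hx
    exact ⟨N, fun k hk => by rw [map_inv, hN k hk, inv_one]⟩
  | mul x y hx hy =>
    obtain ⟨N, hN⟩ := hx
    obtain ⟨N', hN'⟩ := hy
    exact ⟨max N N', fun k hk => by
      rw [map_mul, hN k (le_trans (le_max_left _ _) hk), hN' k (le_trans (le_max_right _ _) hk),
        mul_one]⟩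

/-- the words in which the letters from the `N`-th one on have exponent sum zero -/
def KN (N : ℕ) : Subgroup (FreeGroup ℕ) where
  carrier := {w | ∀ k, N ≤ k → ex k w = 1}
  one_mem' := fun k _ => map_one _
  mul_mem' := fun {a b} ha hb k hk => by rw [map_mul, ha k hk, hb k hk, mul_one]
  inv_mem' := fun {a} ha k hk => by rw [map_inv, ha k hk, inv_one]

theorem KN_mono {N N' : ℕ} (h : N ≤ N') : KN N ≤ KN N' := fun _ hw k hk => hw k (h.trans hk)

theorem finite_of_fg (hinj : Function.Injective (FreeGroup.lift g)) (H : Subgroup HC)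
    (hH : H ≤ (FreeGroup.lift g).range) (hfg : H.FG) (u v : HC)
    (hu : u ∈ (FreeGroup.lift g).range) (hv : v ∈ (FreeGroup.lift g).range) :
    {k | u * g k * v ∈ H}.Finite := by
  obtain ⟨S, hS⟩ := hfg
  have h1 : ∀ s ∈ S, ∃ N, s ∈ (KN N).map (FreeGroup.lift g) := by
    intro s hs
    obtain ⟨w, hw⟩ := hH (hS ▸ Subgroup.subset_closure hs)
    obtain ⟨N, hN⟩ := ex_fin w
    exact ⟨N, w, hN, hw⟩
  have h2 : ∃ N, H ≤ (KN N).map (FreeGroup.lift g) := by
    choose! f hf using h1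
    refine ⟨S.sup f, ?_⟩
    rw [← hS, Subgroup.closure_le]
    intro s hs
    exact Subgroup.map_mono (KN_mono (Finset.le_sup hs)) (hf s hs)
  obtain ⟨N, hN⟩ := h2
  obtain ⟨wu, rfl⟩ := hu
  obtain ⟨wv, rfl⟩ := hv
  obtain ⟨Nu, hNu⟩ := ex_fin wu
  obtain ⟨Nv, hNv⟩ := ex_fin wv
  refine (Set.finite_lt_nat (max N (max Nu Nv))).subset ?_
  intro k hk
  by_contra hlt
  have hle : max N (max Nu Nv) ≤ k := not_lt.1 hlt
  obtain ⟨w, hw, hwe⟩ := hN hk
  have h3 : w = wu * FreeGroup.of k * wv := by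
    apply hinj
    rw [hwe, map_mul, map_mul, FreeGroup.lift_apply_of]
  have h4 := hw k (le_trans (le_max_left _ _) hle)
  rw [h3, map_mul, map_mul, hNu k (by omega), hNv k (by omega), ex, FreeGroup.lift_apply_of,
    if_pos rfl, one_mul, mul_one] at h4
  have h5 := congrArg Multiplicative.toAdd h4
  simp at h5

end Pool.Agent.KS6_91.PL.Conv
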