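import Pool.Agent.KS6_91.PL.W983_PL_All
import Pool.Agent.KS6_91.PL.ConvC

/-!
# The group and its laminations
-/
set_option autoImplicit false
open Set Topology

namespace Pool.Agent.KS6_91.PL.Conv

open Pool.Agent.KS6_91.PL.W983.PL

theorem data_of (hBC : S_BC) (hMAP : S_MAP) (hPL : S_PL) (hHOM : S_HOM) (hWC : S_WC)
    (hFIX : S_FIX) (hWORD : S_WORD) (hTF : S_TF) (hDISC : S_DISC) (hSG : S_SG) (hSIG : S_SIG)
    (hSIGLAM : S_SIGLAM) (hLAM : S_LAM) :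
    ∃ g : ℕ → HC, Good g ∧ Function.Injective (FreeGroup.lift g) ∧
      (∀ f ∈ (FreeGroup.lift g).range, OrientationPreserving f) ∧
      TorsionFree (FreeGroup.lift g).range ∧ Countable (FreeGroup.lift g).range ∧
      Discrete (FreeGroup.lift g).range ∧
      (∀ h ∈ (FreeGroup.lift g).range, h ≠ 1 → ∃ p q, p ≠ q ∧ {z : Circle | h z = z} = {p, q}) ∧
      ∃ Λ₁ Λ₂ : Set (Circle × Circle), IsLamination Λ₁ ∧ IsLamination Λ₂ ∧
        Inv (FreeGroup.lift g).range Λ₁ ∧ Inv (FreeGroup.lift g).range Λ₂ ∧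
        Dense (Ends Λ₁) ∧ Dense (Ends Λ₂) ∧ VeryFull Λ₁ ∧ VeryFull Λ₂ ∧
        Ends Λ₁ ∩ Ends Λ₂ = ∅ := by
  obtain ⟨F, hF⟩ := hPL
  choose g hg using fun k => hHOM (F k) (hF.per k)
  have hgen : IsGen F g := ⟨hF, fun k => (hg k).1, fun k => (hg k).2⟩
  obtain ⟨w1, w2, w3, w4, w5, w6, w7⟩ := hWC F g hgen
  have hcon : ∀ s t, t ≠ inv s → ∀ z ∈ Dm t, ∀ w ∈ Dm t,
      |co (lt g s z) - co (lt g s w)| ≤ 1 / 2 * |co z - co w| :=
    fun s t hst z hz w hw => w1 s t hst z (w4 t hz) w (w4 t hw)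
  set G := (FreeGroup.lift g).range with hG
  -- base point
  have ho : ∀ s, E 0 ∉ Dm s := by
    intro s hs
    have h1 := (w7 s _ hs).1
    rw [co_E_of le_rfl one_pos] at h1
    norm_num at h1
  have hoW := hWORD g Dm w3 w2 (E 0) ho
  have hinj : Function.Injective (FreeGroup.lift g) := by
    rw [injective_iff_map_eq_one]
    intro w hw
    by_contra hne
    obtain ⟨s, hs⟩ := hoW w hne
    rw [hw] at hs
    exact ho s hs
  obtain ⟨htf, hcount⟩ := hTF g hinj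
  have hop := op_range hgen
  -- discreteness
  have hdisc : Discrete G := by
    have hK : IsCompact (arc (1 / 16) (15 / 16)) := isCompact_Icc.image continuous_E
    have hoK : E 0 ∈ (arc (1 / 16) (15 / 16))ᶜ := by
      rintro ⟨t, ⟨h1, h2⟩, ht⟩
      have := E_injOn (a := 0) (by linarith) (by linarith) le_rfl (by norm_num) ht
      linarith
    obtain ⟨ε, hε, hball⟩ := Metric.isOpen_iff.1 hK.isClosed.isOpen_compl _ hoK
    refine hDISC G (E 0) ε hε ?_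
    rintro h ⟨w, rfl⟩ hne
    have hw : w ≠ 1 := by
      rintro rfl
      exact hne (map_one _)
    obtain ⟨s, hs⟩ := hoW w hw
    by_contra hlt
    push Not at hlt
    have h1 := hball (Metric.mem_ball.2 hlt)
    apply h1
    have h2 := w7 s _ hs
    exact ⟨co (FreeGroup.lift g w (E 0)), ⟨h2.1, h2.2.1⟩, E_co _⟩
  -- fixed points
  have hfix : ∀ h ∈ G, h ≠ 1 → ∃ p q, p ≠ q ∧ {z : Circle | h z = z} = {p, q} := by
    rintro h ⟨w, rfl⟩ hne
    have hw : w ≠ 1 := by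
      rintro rfl
      exact hne (map_one _)
    obtain ⟨p, q, hpq, hz⟩ := hFIX g Dm w3 w2 hcon w5 w6 w hw
    refine ⟨p, q, hpq, ?_⟩
    ext z
    simp only [Set.mem_ofPred_eq, Set.mem_insert_iff, Set.mem_singleton_iff]
    exact hz z
  -- special points
  have hsp : ∀ a b : ℝ, (a = 1 / 8 ∨ a = 3 / 8 ∨ a = 5 / 8 ∨ a = 7 / 8) →
      (b = 1 / 8 ∨ b = 3 / 8 ∨ b = 5 / 8 ∨ b = 7 / 8) → a ≠ b → ∀ h ∈ G, h (E a) ≠ E b := by
    have key : ∀ a : ℝ, (a = 1 / 8 ∨ a = 3 / 8 ∨ a = 5 / 8 ∨ a = 7 / 8) →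
        co (E a) = a ∧ ∀ s, E a ∉ Dm s := by
      intro a ha
      have h1 : co (E a) = a := by
        rcases ha with rfl | rfl | rfl | rfl <;> exact co_E_of (by norm_num) (by norm_num)
      refine ⟨h1, fun s hs => ?_⟩
      obtain ⟨_, _, n1, n2, n3, n4⟩ := w7 s _ hs
      rw [h1] at n1 n2 n3 n4
      rcases ha with h | h | h | h
      · exact n1 h
      · exact n2 h
      · exact n3 h
      · exact n4 h
    rintro a b ha hb hab h ⟨w, rfl⟩ heq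
    by_cases hw : w = 1
    · subst hw
      rw [map_one] at heq
      have h1 : E a = E b := heq
      have := congrArg co h1
      rw [(key a ha).1, (key b hb).1] at this
      exact hab this
    · obtain ⟨s, hs⟩ := hWORD g Dm w3 w2 (E a) (key a ha).2 w hw
      rw [heq] at hs
      exact (key b hb).2 s hs
  have hGc : (G : Set HC).Countable := hcount
  -- first lamination
  let Z1 : Set Circle := {z | ∃ h ∈ G, z = h (E (3 / 8)) ∨ z = h (E (5 / 8))}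
  have hZ1c : Z1.Countable := by
    have : Z1 ⊆ ⋃ h ∈ (G : Set HC), ({h (E (3 / 8)), h (E (5 / 8))} : Set Circle) := by
      rintro z ⟨h, hh, hz⟩
      simp only [Set.mem_iUnion]
      exact ⟨h, hh, by simpa using hz⟩
    exact Set.Countable.mono this (hGc.biUnion fun h _ => (Set.toFinite _).countable)
  have hZ1i : ∀ h ∈ G, ∀ z ∈ Z1, h z ∈ Z1 := by
    rintro h hh z ⟨h', hh', rfl | rfl⟩
    · exact ⟨h * h', mul_mem hh hh', Or.inl rfl⟩
    · exact ⟨h * h', mul_mem hh hh', Or.inr rfl⟩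
  have hZ1y : E (1 / 8) ∉ Z1 := by
    rintro ⟨h, hh, hz | hz⟩
    · exact hsp (3 / 8) (1 / 8) (by norm_num) (by norm_num) (by norm_num) h hh hz.symm
    · exact hsp (5 / 8) (1 / 8) (by norm_num) (by norm_num) (by norm_num) h hh hz.symm
  have hZ1r : E (7 / 8) ∉ Z1 := by
    rintro ⟨h, hh, hz | hz⟩
    · exact hsp (3 / 8) (7 / 8) (by norm_num) (by norm_num) (by norm_num) h hh hz.symm
    · exact hsp (5 / 8) (7 / 8) (by norm_num) (by norm_num) (by norm_num) h hh hz.symm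
  obtain ⟨Λ1, a1, a2, a3, a4, a5, a6⟩ := hLAM F g hgen Z1 hZ1c hZ1i hZ1y hZ1r
  -- reflection
  obtain ⟨σ, hσR, hσE, hσσ, hσC⟩ := hSIG
  have hss : ∀ x : Circle, σ (σ x) = x := fun x => by
    have : (σ * σ) x = x := by rw [hσσ]; rfl
    exact this
  have hconj := conj_mem hgen hSG hσE hσσ
  have hn38 : E (3 / 8) ∉ Ends Λ1 := by
    intro h
    have : E (3 / 8) ∈ Ends Λ1 ∩ Z1 := ⟨h, 1, one_mem _, Or.inl rfl⟩
    rw [a6] at this
    exact this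
  have hn58 : E (5 / 8) ∉ Ends Λ1 := by
    intro h
    have : E (5 / 8) ∈ Ends Λ1 ∩ Z1 := ⟨h, 1, one_mem _, Or.inr rfl⟩
    rw [a6] at this
    exact this
  let Z2 : Set Circle := σ '' Ends Λ1
  have hZ2c : Z2.Countable := a5.image _
  have hZ2i : ∀ h ∈ G, ∀ z ∈ Z2, h z ∈ Z2 := by
    rintro h hh z ⟨e, ⟨b, heb⟩, rfl⟩
    refine ⟨(σ * h * σ) e, ⟨(σ * h * σ) b, a4 _ (hconj h hh) e b heb⟩, ?_⟩
    show σ (σ (h (σ e))) = h (σ e)
    exact hss _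
  have hZ2y : E (1 / 8) ∉ Z2 := by
    rintro ⟨e, he, heq⟩
    have h1 : e = E (3 / 8) := by
      rw [← hss e, heq, hσE]
      norm_num
    exact hn38 (h1 ▸ he)
  have hZ2r : E (7 / 8) ∉ Z2 := by
    rintro ⟨e, he, heq⟩
    have h1 : e = E (5 / 8) := by
      rw [← hss e, heq, hσE, ← E_add_one]
      norm_num
    exact hn58 (h1 ▸ he)
  obtain ⟨Λ', b1, b2, b3, b4, b5, b6⟩ := hLAM F g hgen Z2 hZ2c hZ2i hZ2y hZ2r
  obtain ⟨c1, c2, c3⟩ := hSIGLAM σ hσR hσσ hσC Λ' b1 b2 b3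
  have hdis : Ends Λ1 ∩ Ends (refl σ Λ') = ∅ := by
    rw [Set.eq_empty_iff_forall_notMem]
    rintro z ⟨hz1, b, hz2⟩
    have h1 : σ z ∈ Ends Λ' ∩ Z2 := ⟨⟨σ b, hz2⟩, ⟨z, hz1, rfl⟩⟩
    rw [b6] at h1
    exact h1
  refine ⟨g, ⟨hBC, hMAP F g hgen, w2, w3, hcon⟩, hinj, hop, htf, hcount, hdisc, hfix, Λ1,
    refl σ Λ', a1, c1, a4, ?_, a3, c3, a2, c2, hdis⟩
  intro h hh a b hab
  show (σ (h a), σ (h b)) ∈ Λ'
  have h1 := b4 _ (hconj h hh) (σ a) (σ b) hab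
  have e : ∀ x : Circle, (σ * h * σ) (σ x) = σ (h x) := fun x => by
    show σ (h (σ (σ x))) = σ (h x)
    rw [hss]
  rw [e, e] at h1
  exact h1

theorem data :
    ∃ g : ℕ → HC, Good g ∧ Function.Injective (FreeGroup.lift g) ∧
      (∀ f ∈ (FreeGroup.lift g).range, OrientationPreserving f) ∧
      TorsionFree (FreeGroup.lift g).range ∧ Countable (FreeGroup.lift g).range ∧
      Discrete (FreeGroup.lift g).range ∧
      (∀ h ∈ (FreeGroup.lift g).range, h ≠ 1 → ∃ p q, p ≠ q ∧ {z : Circle | h z = z} = {p, q}) ∧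
      ∃ Λ₁ Λ₂ : Set (Circle × Circle), IsLamination Λ₁ ∧ IsLamination Λ₂ ∧
        Inv (FreeGroup.lift g).range Λ₁ ∧ Inv (FreeGroup.lift g).range Λ₂ ∧
        Dense (Ends Λ₁) ∧ Dense (Ends Λ₂) ∧ VeryFull Λ₁ ∧ VeryFull Λ₂ ∧
        Ends Λ₁ ∩ Ends Λ₂ = ∅ := by
  have hBC : S_BC := Pool.Agent.KS6_91.PL.W571.PC.t_BC
  have hPL : S_PL := Pool.Agent.KS6_91.PL.W922.PCPL.pl hBC
  have hMAP : S_MAP := Pool.Agent.KS6_91.PL.W381.PCMap.map hBC
  have hCON : S_CON := Pool.Agent.KS6_91.PL.W696.PCCon.con hBC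
  have hWC : S_WC := Pool.Agent.KS6_91.PL.W827.PCWC.wc hBC hMAP hCON
  have hPOS : S_POS := Pool.Agent.KS6_91.PL.W782.PCPos.pos hBC
  have hAR : S_AR := Pool.Agent.KS6_91.PL.W789.PCAR.main
  have hARC : S_ARC := Pool.Agent.KS6_91.PL.W701.PC.arc'
  have hAV : S_AV := Pool.Agent.KS6_91.PL.W368.PCAvcut.av
  have hCUT : S_CUT := Pool.Agent.KS6_91.PL.W368.PCAvcut.cut hBC
  have hCOL : S_COL := Pool.Agent.KS6_91.PL.W214.PC.col hBC hAV hPOS
  have hD1A : S_D1A := Pool.Agent.KS6_91.PL.W409.PCD1A.main hBC hPOS hAR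
  have hD1B : S_D1B := Pool.Agent.KS6_91.PL.W237.PC.D1B hBC hPOS hAR
  have hD1C : S_D1C := Pool.Agent.KS6_91.PL.W294.PC.main hBC hPOS hARC
  have hD1D : S_D1D := Pool.Agent.KS6_91.PL.W431.PCD1D.t_D1D hPOS hARC
  have hD1 : S_D1 := Pool.Agent.KS6_91.PL.W863.PC.d1 hD1A hD1B hD1C hD1D
  have hD2 : S_D2 := Pool.Agent.KS6_91.PL.W589.PCD2.d2 hBC hPOS
  have hD3 : S_D3 := Pool.Agent.KS6_91.PL.W403.PCD3.main hBC hPOS hAR hWC hD2
  have hMAX : S_MAX := Pool.Agent.KS6_91.PL.W202.PCMax.main Pool.Agent.KS6_91.PL.W805.PCVF.vf Pool.Agent.KS6_91.PL.W701.PC.lk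
  exact data_of hBC hMAP hPL Pool.Agent.KS6_91.PL.W571.PC.t_HOM hWC
    Pool.Agent.KS6_91.PL.W152.PCFix.fix
    Pool.Agent.KS6_91.PL.W237.PC.word Pool.Agent.KS6_91.PL.W237.PC.tf
    Pool.Agent.KS6_91.PL.W800.PCDisc.disc
    (Pool.Agent.KS6_91.PL.W395.PC.main hBC)
    Pool.Agent.KS6_91.PL.W639.PCSig.main Pool.Agent.KS6_91.PL.W55.PC.siglam
    (lam_of hPOS hAV hCUT Pool.Agent.KS6_91.PL.W205.PCFill.t_FILL hCOL hD1 hD3 hMAX)

end Pool.Agent.KS6_91.PL.Conv
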