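import Pool.Agent.KS6_91.PL.W983_PL_Stm

/-!
# PC-FIX: in a contracting ping-pong every nontrivial element has exactly two fixed points
-/
set_option autoImplicit false
open Set Topology

namespace Pool.Agent.KS6_91.PL.W152.PCFix

open Pool.Agent.KS6_91.PL.W983.PL

/-- product of a word -/
noncomputable def pr (g : ℕ → HC) (L : List (ℕ × Bool)) : HC := (L.map (lt g)).prod

theorem pr_nil (g : ℕ → HC) : pr g [] = 1 := rfl

theorem pr_cons (g : ℕ → HC) (s : ℕ × Bool) (L : List (ℕ × Bool)) :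
    pr g (s :: L) = lt g s * pr g L := by
  simp [pr]

theorem pr_append (g : ℕ → HC) (L M : List (ℕ × Bool)) :
    pr g (L ++ M) = pr g L * pr g M := by
  simp [pr]

theorem lift_mk (g : ℕ → HC) (L : List (ℕ × Bool)) : FreeGroup.lift g (FreeGroup.mk L) = pr g L := by
  rw [FreeGroup.lift_mk]
  rfl

theorem inv_inv' (s : ℕ × Bool) : inv (inv s) = s := by
  simp [inv]

theorem ne_inv_of {s t : ℕ × Bool} (h : s.1 = t.1 → s.2 = t.2) : t ≠ inv s := by
  rintro rfl
  have := h rfl
  simp [inv] at this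

theorem inv_ne_of {s t : ℕ × Bool} (h : s.1 = t.1 → s.2 = t.2) : inv t ≠ s := by
  rintro rfl
  have := h rfl
  simp [inv] at this

section

variable {g : ℕ → HC} {D : ℕ × Bool → Set Circle}

theorem maps (hdis : ∀ s t, s ≠ t → Disjoint (D s) (D t))
    (hpp : ∀ s z, z ∉ D (inv s) → lt g s z ∈ D s) :
    ∀ (M : List (ℕ × Bool)) (s : ℕ × Bool), FreeGroup.IsReduced (s :: M) → ∀ z,
      z ∉ D (inv ((s :: M).getLast (by simp))) → pr g (s :: M) z ∈ D s := by
  intro M
  induction M with
  | nil =>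
    intro s _ z hz
    rw [pr_cons, pr_nil, mul_one]
    exact hpp s z (by simpa using hz)
  | cons t M ih =>
    intro s hs z hz
    have hs' : FreeGroup.IsReduced (t :: M) := by
      unfold FreeGroup.IsReduced at hs ⊢
      exact (List.isChain_cons_cons.1 hs).2
    have h1 : s.1 = t.1 → s.2 = t.2 := by
      unfold FreeGroup.IsReduced at hs
      exact (List.isChain_cons_cons.1 hs).1
    have h2 := ih t hs' z (by simpa using hz)
    rw [pr_cons]
    show lt g s (pr g (t :: M) z) ∈ D s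
    apply hpp
    intro h3
    exact Set.disjoint_left.1 (hdis t (inv s) (ne_inv_of h1)) h2 h3

theorem contr (hdis : ∀ s t, s ≠ t → Disjoint (D s) (D t))
    (hpp : ∀ s z, z ∉ D (inv s) → lt g s z ∈ D s)
    (hcon : ∀ s t, t ≠ inv s → ∀ z ∈ D t, ∀ w ∈ D t,
      |co (lt g s z) - co (lt g s w)| ≤ 1 / 2 * |co z - co w|) :
    ∀ (M : List (ℕ × Bool)) (s : ℕ × Bool), FreeGroup.IsReduced (s :: M) → ∀ t,
      t ≠ inv ((s :: M).getLast (by simp)) → ∀ z ∈ D t, ∀ w ∈ D t,
        |co (pr g (s :: M) z) - co (pr g (s :: M) w)| ≤ 1 / 2 * |co z - co w| := by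
  intro M
  induction M with
  | nil =>
    intro s _ t ht z hz w hw
    rw [pr_cons, pr_nil, mul_one]
    exact hcon s t (by simpa using ht) z hz w hw
  | cons u M ih =>
    intro s hs t ht z hz w hw
    have hs' : FreeGroup.IsReduced (u :: M) := by
      unfold FreeGroup.IsReduced at hs ⊢
      exact (List.isChain_cons_cons.1 hs).2
    have h1 : s.1 = u.1 → s.2 = u.2 := by
      unfold FreeGroup.IsReduced at hs
      exact (List.isChain_cons_cons.1 hs).1
    have ht' : t ≠ inv ((u :: M).getLast (by simp)) := by simpa using ht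
    have h2 := ih u hs' t ht' z hz w hw
    have hdis' := hdis t _ ht'
    have hz' := maps hdis hpp M u hs' z (Set.disjoint_left.1 hdis' hz)
    have hw' := maps hdis hpp M u hs' w (Set.disjoint_left.1 hdis' hw)
    rw [pr_cons]
    show |co (lt g s (pr g (u :: M) z)) - co (lt g s (pr g (u :: M) w))| ≤ _
    refine (hcon s u (ne_inv_of h1) _ hz' _ hw').trans ?_
    have h3 : 0 ≤ |co z - co w| := abs_nonneg _
    linarith

/-- fixed point of a cyclically reduced word in the domain of its first letter -/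
theorem fixpt (hdis : ∀ s t, s ≠ t → Disjoint (D s) (D t))
    (hpp : ∀ s z, z ∉ D (inv s) → lt g s z ∈ D s)
    (hcon : ∀ s t, t ≠ inv s → ∀ z ∈ D t, ∀ w ∈ D t,
      |co (lt g s z) - co (lt g s w)| ≤ 1 / 2 * |co z - co w|)
    (hcl : ∀ s, IsClosed (co '' D s)) (hne : ∀ s, (D s).Nonempty)
    (M : List (ℕ × Bool)) (s : ℕ × Bool) (hs : FreeGroup.IsReduced (s :: M))
    (hc : s ≠ inv ((s :: M).getLast (by simp))) :
    ∃ p ∈ D s, pr g (s :: M) p = p ∧ ∀ z ∈ D s, pr g (s :: M) z = z → z = p := by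
  have hC := contr hdis hpp hcon M s hs s hc
  have hM : ∀ z ∈ D s, pr g (s :: M) z ∈ D s := fun z hz =>
    maps hdis hpp M s hs z (Set.disjoint_left.1 (hdis _ _ hc) hz)
  have hE : ∀ x ∈ co '' D s, E x ∈ D s := by
    rintro x ⟨z, hz, rfl⟩
    rw [E_co]
    exact hz
  let X := {x : ℝ // x ∈ co '' D s}
  haveI : CompleteSpace X := (hcl s).completeSpace_coe
  haveI : Nonempty X := by
    obtain ⟨z, hz⟩ := hne s
    exact ⟨⟨co z, z, hz, rfl⟩⟩
  let f : X → X := fun x => ⟨co (pr g (s :: M) (E x.1)), pr g (s :: M) (E x.1),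
    hM _ (hE _ x.2), rfl⟩
  have hf : ContractingWith (1 / 2 : NNReal) f := by
    refine ⟨by rw [← NNReal.coe_lt_coe]; push_cast; norm_num, ?_⟩
    apply LipschitzWith.of_dist_le_mul
    intro x y
    have h1 := hC (E x.1) (hE _ x.2) (E y.1) (hE _ y.2)
    have hx : co (E x.1) = x.1 := by
      obtain ⟨z, _, hz⟩ := x.2
      rw [← hz, E_co]
    have hy : co (E y.1) = y.1 := by
      obtain ⟨z, _, hz⟩ := y.2
      rw [← hz, E_co]
    rw [hx, hy] at h1
    rw [Subtype.dist_eq, Real.dist_eq, Subtype.dist_eq, Real.dist_eq]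
    simpa using h1
  have hfix := hf.fixedPoint_isFixedPt
  set x := ContractingWith.fixedPoint f hf with hx
  have h1 : co (pr g (s :: M) (E x.1)) = x.1 := congrArg Subtype.val hfix
  have hxE : co (E x.1) = x.1 := by
    obtain ⟨z, _, hz⟩ := x.2
    rw [← hz, E_co]
  refine ⟨E x.1, hE _ x.2, co_inj (by rw [h1, hxE]), ?_⟩
  intro z hz hz2
  have h2 := hC z hz (E x.1) (hE _ x.2)
  rw [hz2, h1, hxE] at h2
  have h3 : |co z - x.1| = 0 := le_antisymm (by linarith [abs_nonneg (co z - x.1)]) (abs_nonneg _)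
  have h4 : co z = x.1 := by
    rw [abs_eq_zero] at h3
    linarith
  rw [← h4, E_co]

theorem pr_invRev (L : List (ℕ × Bool)) : pr g (FreeGroup.invRev L) = (pr g L)⁻¹ := by
  rw [← lift_mk, ← lift_mk, ← FreeGroup.inv_mk, map_inv]

theorem cyc (hdis : ∀ s t, s ≠ t → Disjoint (D s) (D t))
    (hpp : ∀ s z, z ∉ D (inv s) → lt g s z ∈ D s)
    (hcon : ∀ s t, t ≠ inv s → ∀ z ∈ D t, ∀ w ∈ D t,
      |co (lt g s z) - co (lt g s w)| ≤ 1 / 2 * |co z - co w|)
    (hcl : ∀ s, IsClosed (co '' D s)) (hne : ∀ s, (D s).Nonempty)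
    (L : List (ℕ × Bool)) (hL : L ≠ []) (hs : FreeGroup.IsCyclicallyReduced L) :
    ∃ p q, p ≠ q ∧ ∀ z, pr g L z = z ↔ z = p ∨ z = q := by
  obtain ⟨s, M, rfl⟩ := List.exists_cons_of_ne_nil hL
  set e := (s :: M).getLast (by simp) with he
  have hse : e.1 = s.1 → e.2 = s.2 := by
    apply hs.2 e _ s
    · simp
    · rw [Option.mem_def, List.getLast?_eq_getLast_of_ne_nil (by simp)]
  have hc : s ≠ inv e := ne_inv_of hse
  obtain ⟨p, hp, hp1, hp2⟩ := fixpt hdis hpp hcon hcl hne M s hs.1 hc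
  -- the inverse word
  have hr : FreeGroup.IsReduced (FreeGroup.invRev (s :: M)) := by
    rw [FreeGroup.isReduced_iff_reduce_eq, FreeGroup.reduce_invRev, hs.1.reduce_eq]
  have hn : FreeGroup.invRev (s :: M) ≠ [] := by
    simp [FreeGroup.invRev]
  have hhead : (FreeGroup.invRev (s :: M)).head? = some (inv e) := by
    unfold FreeGroup.invRev
    rw [List.head?_reverse, List.getLast?_map, List.getLast?_eq_getLast_of_ne_nil (by simp)]
    rfl
  obtain ⟨s', M', hM'⟩ := List.exists_cons_of_ne_nil hn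
  have hs' : s' = inv e := by
    rw [hM'] at hhead
    simpa using hhead
  have hlast : (s' :: M').getLast (by simp) = inv s := by
    have h1 : (FreeGroup.invRev (s :: M)).getLast? = some (inv s) := by
      unfold FreeGroup.invRev
      rw [List.getLast?_reverse]
      rfl
    rw [hM', List.getLast?_eq_getLast_of_ne_nil (by simp)] at h1
    simpa using h1
  have hc' : s' ≠ inv ((s' :: M').getLast (by simp)) := by
    rw [hlast, inv_inv', hs']
    exact (Ne.symm hc)
  rw [hM'] at hr
  obtain ⟨q, hq, hq1, hq2⟩ := fixpt hdis hpp hcon hcl hne M' s' hr hc'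
  have hinv : pr g (s' :: M') = (pr g (s :: M))⁻¹ := by
    rw [← hM', pr_invRev]
  rw [hs'] at hq hq2
  have hfix : ∀ z, pr g (s' :: M') z = z ↔ pr g (s :: M) z = z := by
    intro z
    rw [hinv]
    constructor
    · intro h
      calc pr g (s :: M) z = pr g (s :: M) ((pr g (s :: M))⁻¹ z) := by rw [h]
        _ = z := (pr g (s :: M)).apply_symm_apply z
    · intro h
      calc (pr g (s :: M))⁻¹ z = (pr g (s :: M))⁻¹ (pr g (s :: M) z) := by rw [h]
        _ = z := (pr g (s :: M)).symm_apply_apply z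
  refine ⟨p, q, ?_, ?_⟩
  · rintro rfl
    exact Set.disjoint_left.1 (hdis _ _ hc) hp hq
  · intro z
    constructor
    · intro hz
      by_cases hzD : z ∈ D (inv e)
      · right
        apply hq2 z hzD
        rw [← hs']
        exact (hfix z).2 hz
      · left
        apply hp2 z _ hz
        have := maps hdis hpp M s hs.1 z hzD
        rwa [hz] at this
    · rintro (rfl | rfl)
      · exact hp1
      · exact (hfix _).1 hq1

end

theorem fix : S_FIX := by
  intro g D hdis hpp hcon hcl hne w hw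
  classical
  set L := w.toWord with hL
  set R := FreeGroup.reduceCyclically L with hR
  set C := FreeGroup.reduceCyclically.conjugator L with hC
  have h1 : C ++ R ++ FreeGroup.invRev C = L := FreeGroup.reduceCyclically.conj_conjugator_reduceCyclically L
  have hred : FreeGroup.IsReduced L := FreeGroup.isReduced_toWord
  have hcyc : FreeGroup.IsCyclicallyReduced R := FreeGroup.reduceCyclically.isCyclicallyReduced hred
  have hw2 : FreeGroup.lift g w = pr g C * pr g R * (pr g C)⁻¹ := by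
    rw [← FreeGroup.mk_toWord (x := w), lift_mk, ← hL, ← h1, pr_append, pr_append, pr_invRev]
  have hR0 : R ≠ [] := by
    intro h2
    apply hw
    have h3 : w = FreeGroup.mk L := FreeGroup.mk_toWord.symm
    rw [h3, ← h1, h2, ← FreeGroup.mul_mk, ← FreeGroup.mul_mk, ← FreeGroup.inv_mk,
      ← FreeGroup.one_eq_mk, mul_one, mul_inv_cancel]
  obtain ⟨p, q, hpq, hfix⟩ := cyc hdis hpp hcon hcl hne R hR0 hcyc
  refine ⟨pr g C p, pr g C q, fun h => hpq ((pr g C).injective h), ?_⟩
  intro z
  have e1 : FreeGroup.lift g w z = pr g C (pr g R ((pr g C)⁻¹ z)) := by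
    rw [hw2]; rfl
  have e2 : pr g C ((pr g C)⁻¹ z) = z := (pr g C).apply_symm_apply z
  rw [e1]
  have e3 : pr g C (pr g R ((pr g C)⁻¹ z)) = z ↔ pr g R ((pr g C)⁻¹ z) = (pr g C)⁻¹ z := by
    constructor
    · intro h
      apply (pr g C).injective
      rw [h, e2]
    · intro h
      rw [h, e2]
  rw [e3, hfix]
  have e4 : ∀ u, (pr g C)⁻¹ z = u ↔ z = pr g C u := by
    intro u
    constructor
    · rintro rfl
      exact e2.symm
    · rintro rfl
      exact (pr g C).symm_apply_apply u
  rw [e4, e4]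

end Pool.Agent.KS6_91.PL.W152.PCFix
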