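import Pool.Agent.KS6_91.PL.W983_PL_Stm

/-!
# PC-MAX: the maximal lamination
-/
set_option autoImplicit false
open Set Topology

namespace Pool.Agent.KS6_91.PL.W202.PCMax

open Pool.Agent.KS6_91.PL.W983.PL

theorem ccw_or {a b c : Circle} (hab : a ≠ b) (hca : c ≠ a) (hcb : c ≠ b) :
    Ccw a b c ∨ Ccw b a c := by
  obtain ⟨p, hp0, hp1, rfl⟩ := E_surj a
  obtain ⟨q, hq0, hq1, rfl⟩ := E_surj' p b
  obtain ⟨r, hr0, hr1, rfl⟩ := E_surj' p c
  have hpq : p < q := by
    rcases hq0.eq_or_lt with h | h
    · subst h; exact absurd rfl hab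
    · exact h
  have hpr : p < r := by
    rcases hr0.eq_or_lt with h | h
    · subst h; exact absurd rfl hca
    · exact h
  rcases lt_trichotomy q r with h | h | h
  · exact Or.inl (ccw_E hpq h hr1)
  · subst h; exact absurd rfl hcb
  · right
    exact ccw_rot (ccw_rot (ccw_E hpr h hq1))

theorem ccw_ne {a b c : Circle} (h : Ccw a b c) : a ≠ b ∧ a ≠ c ∧ b ≠ c := by
  unfold Ccw at h
  refine ⟨?_, ?_, ?_⟩
  · rintro rfl; rw [area_self'] at h; exact lt_irrefl _ h
  · rintro rfl; rw [area_rot, area_self'] at h; exact lt_irrefl _ h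
  · rintro rfl; rw [area_self] at h; exact lt_irrefl _ h

theorem isOpen_ccw (a b : Circle) : IsOpen {z : Circle | Ccw a b z} := by
  unfold Ccw area
  apply isOpen_lt continuous_const
  have h1 : Continuous fun z : Circle => (z : ℂ) := continuous_subtype_val
  have h2 : Continuous fun z : Circle => (z : ℂ).re := Complex.continuous_re.comp h1
  have h3 : Continuous fun z : Circle => (z : ℂ).im := Complex.continuous_im.comp h1
  fun_prop

theorem isOpen_linked (a b : Circle) : IsOpen {p : Circle × Circle | Linked a b p.1 p.2} := by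
  unfold Linked
  apply IsOpen.union
  · exact ((isOpen_ccw a b).preimage continuous_fst).inter ((isOpen_ccw b a).preimage continuous_snd)
  · exact ((isOpen_ccw b a).preimage continuous_fst).inter ((isOpen_ccw a b).preimage continuous_snd)

theorem uns_pair {B : Set (Circle × Circle)} {a b : Circle} (h : (a, b) ∈ W983.PL.Max B) :
    Uns B {a, b} := by
  intro q hq
  have h1 := h.2 q hq
  by_contra hc
  rw [not_or] at hc
  obtain ⟨hc1, hc2⟩ := hc
  push Not at hc1 hc2
  obtain ⟨z, hz, hz1⟩ := hc1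
  obtain ⟨w, hw, hw1⟩ := hc2
  rcases hz with rfl | hz
  · rcases hw with rfl | hw
    · exact not_ccw_swap hz1 hw1
    · have hw' : w = b := hw
      subst hw'
      exact h1 (Or.inl ⟨hz1, hw1⟩)
  · have hz' : z = b := hz
    subst hz'
    rcases hw with rfl | hw
    · exact h1 (Or.inr ⟨hw1, hz1⟩)
    · have hw' : w = z := hw
      subst hw'
      exact not_ccw_swap hz1 hw1

theorem main : S_VF → S_LK → S_MAX := by
  intro hVF hLK B EB hsw hne hunl hcls
  have hBM : B ⊆ W983.PL.Max B := fun p hp => ⟨hne p hp, fun q hq => hunl q hq p hp⟩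
  have hlam : IsLamination (W983.PL.Max B) := by
    refine ⟨?_, ?_, ?_, ?_⟩
    · intro a b h
      refine ⟨fun h' => h.1 h'.symm, fun q hq hl => h.2 q hq ?_⟩
      rcases hl with ⟨h1, h2⟩ | ⟨h1, h2⟩
      · exact Or.inr ⟨h2, h1⟩
      · exact Or.inl ⟨h2, h1⟩
    · intro a b h
      exact h.1
    · intro a b hab hcl
      refine ⟨hab, fun q hq hl => ?_⟩
      obtain ⟨p, hp1, hp2⟩ := mem_closure_iff.1 hcl _ (isOpen_linked q.1 q.2) hl
      exact hp2.2 q hq hp1
    · intro a b c d hab hcd hl
      have hU : Uns B {a, b, c, d} := by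
        intro q hq
        have h1 := uns_pair hab q hq
        have h2 := uns_pair hcd q hq
        have hqne := hne q hq
        have key : ∀ P : Circle → Prop, (∀ z ∈ ({a, b} : Set Circle), P z) →
            (∀ z ∈ ({c, d} : Set Circle), P z) → ∀ z ∈ ({a, b, c, d} : Set Circle), P z := by
          intro P hP1 hP2 z hz
          rcases hz with hz | hz | hz
          · exact hP1 z (Or.inl hz)
          · exact hP1 z (Or.inr hz)
          · exact hP2 z hz
        rcases h1 with h1 | h1
        · rcases h2 with h2 | h2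
          · exact Or.inl (key _ h1 h2)
          · exact absurd hl (hLK q.1 q.2 a b c d hqne (h1 a (Or.inl rfl)) (h1 b (Or.inr rfl))
              (h2 c (Or.inl rfl)) (h2 d (Or.inr rfl)))
        · rcases h2 with h2 | h2
          · exact absurd hl (hLK q.2 q.1 a b c d hqne.symm (h1 a (Or.inl rfl)) (h1 b (Or.inr rfl))
              (h2 c (Or.inl rfl)) (h2 d (Or.inr rfl)))
          · exact Or.inr (key _ h1 h2)
      have hd : a ≠ b ∧ a ≠ c ∧ a ≠ d ∧ b ≠ c ∧ b ≠ d ∧ c ≠ d := by
        rcases hl with ⟨h1, h2⟩ | ⟨h1, h2⟩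
        · have k1 := ccw_ne h1
          have k2 := ccw_ne h2
          refine ⟨k1.1, k1.2.1, k2.2.2, k1.2.2, k2.2.1, ?_⟩
          rintro rfl
          exact not_ccw_swap h1 h2
        · have k1 := ccw_ne h1
          have k2 := ccw_ne h2
          refine ⟨k2.1, k1.2.2, k2.2.1, k1.2.1, k2.2.2, ?_⟩
          rintro rfl
          exact not_ccw_swap h1 h2
      rcases hcls _ hU with h | ⟨z₁, -, z₂, -, z₃, -, h⟩
      · exact hd.1 (h (Or.inl rfl) (Or.inr (Or.inl rfl)))
      · have ha := h (show a ∈ ({a, b, c, d} : Set Circle) by simp)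
        have hb := h (show b ∈ ({a, b, c, d} : Set Circle) by simp)
        have hc := h (show c ∈ ({a, b, c, d} : Set Circle) by simp)
        have hdd := h (show d ∈ ({a, b, c, d} : Set Circle) by simp)
        simp only [mem_insert_iff, mem_singleton_iff] at ha hb hc hdd
        obtain ⟨n1, n2, n3, n4, n5, n6⟩ := hd
        grind
  have hUfin : ∀ V : Set Circle, Uns B V → V.Finite := by
    intro V hV
    rcases hcls V hV with h | ⟨z₁, -, z₂, -, z₃, -, h⟩
    · exact h.finite
    · exact Set.Finite.subset (by simp) h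
  refine ⟨hlam, hVF _ hlam (fun V hV => hUfin V fun p hp => hV p (hBM hp)), ?_, ?_⟩
  · rw [dense_iff_inter_open]
    intro U hUo hUn
    by_contra hc
    obtain ⟨z0, hz0⟩ := hUn
    obtain ⟨t, -, -, rfl⟩ := E_surj z0
    have hO : IsOpen (E ⁻¹' U) := hUo.preimage continuous_E
    obtain ⟨ε, hε, hball⟩ := Metric.isOpen_iff.1 hO t hz0
    set δ := min ε (1 / 2) with hδ
    have hδ0 : 0 < δ := lt_min hε (by norm_num)
    have hδ1 : δ ≤ 1 / 2 := min_le_right _ _
    have hδ2 : δ ≤ ε := min_le_left _ _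
    have hVU : E '' Ioo (t - δ) (t + δ) ⊆ U := by
      rintro _ ⟨s, hs, rfl⟩
      apply hball
      rw [Metric.mem_ball, Real.dist_eq, abs_lt]
      constructor
      · linarith [hs.1]
      · linarith [hs.2]
    have hmiss : ∀ z ∈ E '' Ioo (t - δ) (t + δ), z ∉ Ends (W983.PL.Max B) := by
      intro z hz hzE
      exact hc ⟨z, hVU hz, hzE⟩
    have hU : Uns B (E '' Ioo (t - δ) (t + δ)) := by
      intro q hq
      have hq1 : q.1 ∈ Ends (W983.PL.Max B) := ⟨q.2, hBM hq⟩
      have hq2 : q.2 ∈ Ends (W983.PL.Max B) := ⟨q.1, hBM (hsw q hq)⟩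
      have hpre : IsPreconnected (E '' Ioo (t - δ) (t + δ)) :=
        (isPreconnected_Ioo).image _ continuous_E.continuousOn
      have hcov : E '' Ioo (t - δ) (t + δ) ⊆ {z | Ccw q.1 q.2 z} ∪ {z | Ccw q.2 q.1 z} := by
        intro z hz
        exact ccw_or (hne q hq) (fun h => hmiss z hz (h ▸ hq1)) (fun h => hmiss z hz (h ▸ hq2))
      have hdisj : Disjoint {z | Ccw q.1 q.2 z} {z | Ccw q.2 q.1 z} := by
        rw [Set.disjoint_left]
        intro z h1 h2
        exact not_ccw_swap h1 h2
      rcases IsPreconnected.subset_or_subset (isOpen_ccw q.1 q.2) (isOpen_ccw q.2 q.1) hdisj hcov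
        hpre with h | h
      · right
        intro z hz
        exact not_ccw_swap (h hz)
      · left
        intro z hz
        exact not_ccw_swap (h hz)
    have hinj : InjOn E (Ioo (t - δ) (t + δ)) := by
      intro x hx y hy hxy
      exact E_injOn (a := t - δ) hx.1.le (by linarith [hx.2]) hy.1.le (by linarith [hy.2]) hxy
    have hinf : (E '' Ioo (t - δ) (t + δ)).Infinite :=
      (Ioo_infinite (by linarith)).image hinj
    exact hinf (hUfin _ hU)
  · rintro a ⟨b, hab⟩
    have hne' : a ≠ b := hab.1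
    rcases hcls _ (uns_pair hab) with h | ⟨z₁, h1, z₂, h2, z₃, h3, h⟩
    · exact absurd (h (Or.inl rfl) (Or.inr rfl)) hne'
    · have ha := h (show a ∈ ({a, b} : Set Circle) by simp)
      rcases ha with ha | ha | ha
      · rw [ha]; exact h1
      · rw [ha]; exact h2
      · have ha' : a = z₃ := ha
        rw [ha']; exact h3

end Pool.Agent.KS6_91.PL.W202.PCMax
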