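import Pool.Agent.KS6_91.PL.W983_PL_Stm

/-!
Project PC, part FILL (helper205): the binary tree of intervals.
-/

set_option autoImplicit false
open Set Topology

namespace Pool.Agent.KS6_91.PL.W205.PCFill

open Pool.Agent.KS6_91.PL.W983.PL

section

variable (ψ : ℝ → ℝ) (good : Set ℝ) (p q : ℝ)

/-- admissible intervals -/
def Vd (I : ℝ × ℝ) : Prop := p ≤ I.1 ∧ I.2 ≤ q ∧ ψ I.1 < ψ I.2

/-- the property of the splitting point -/
def Sp (I : ℝ × ℝ) (m : ℝ) : Prop := m ∈ good ∧ I.1 < m ∧ m < I.2 ∧
  ψ I.1 + (ψ I.2 - ψ I.1) / 3 ≤ ψ m ∧ ψ m ≤ ψ I.2 - (ψ I.2 - ψ I.1) / 3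

variable (m : ℝ × ℝ → ℝ)

/-- nodes of the tree -/
def nd : ℝ × ℝ → List Bool → ℝ × ℝ
  | I, [] => I
  | I, (true :: l) => nd (I.1, m I) l
  | I, (false :: l) => nd (m I, I.2) l

theorem nd_true (I : ℝ × ℝ) (l : List Bool) : nd m I (true :: l) = nd m (I.1, m I) l := rfl
theorem nd_false (I : ℝ × ℝ) (l : List Bool) : nd m I (false :: l) = nd m (m I, I.2) l := rfl
theorem nd_nil (I : ℝ × ℝ) : nd m I [] = I := rfl

variable {ψ good p q m}

theorem vd_left (hm : ∀ I, Vd ψ p q I → Sp ψ good I (m I)) {I : ℝ × ℝ} (h : Vd ψ p q I) :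
    Vd ψ p q (I.1, m I) := by
  obtain ⟨h1, h2, h3⟩ := h
  obtain ⟨-, g2, g3, g4, g5⟩ := hm I ⟨h1, h2, h3⟩
  refine ⟨h1, by simp only; linarith, by simp only; linarith⟩

theorem vd_right (hm : ∀ I, Vd ψ p q I → Sp ψ good I (m I)) {I : ℝ × ℝ} (h : Vd ψ p q I) :
    Vd ψ p q (m I, I.2) := by
  obtain ⟨h1, h2, h3⟩ := h
  obtain ⟨-, g2, g3, g4, g5⟩ := hm I ⟨h1, h2, h3⟩
  refine ⟨by simp only; linarith, h2, by simp only; linarith⟩

theorem nd_prop (hm : ∀ I, Vd ψ p q I → Sp ψ good I (m I)) (l : List Bool) :
    ∀ I, Vd ψ p q I → Vd ψ p q (nd m I l) ∧ I.1 ≤ (nd m I l).1 ∧ (nd m I l).2 ≤ I.2 ∧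
      ((nd m I l).1 = I.1 ∨ (nd m I l).1 ∈ good) ∧ ((nd m I l).2 = I.2 ∨ (nd m I l).2 ∈ good) := by
  induction l with
  | nil => intro I h; exact ⟨h, le_refl _, le_refl _, Or.inl rfl, Or.inl rfl⟩
  | cons x l ih =>
    intro I h
    obtain ⟨s1, s2, s3, -, -⟩ := hm I h
    cases x with
    | true =>
      rw [nd_true]
      obtain ⟨k1, k2, k3, k4, k5⟩ := ih _ (vd_left hm h)
      simp only at k2 k3 k4 k5
      refine ⟨k1, k2, by linarith, k4, ?_⟩
      rcases k5 with k5 | k5
      · right; rw [k5]; exact s1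
      · right; exact k5
    | false =>
      rw [nd_false]
      obtain ⟨k1, k2, k3, k4, k5⟩ := ih _ (vd_right hm h)
      simp only at k2 k3 k4 k5
      refine ⟨k1, by linarith, k3, ?_, k5⟩
      rcases k4 with k4 | k4
      · right; rw [k4]; exact s1
      · right; exact k4

theorem lam' (hψ : Monotone ψ) (hm : ∀ I, Vd ψ p q I → Sp ψ good I (m I)) (l : List Bool) :
    ∀ I, Vd ψ p q I → ∀ l' : List Bool, ¬ ((nd m I l).1 < (nd m I l').1 ∧
      (nd m I l').1 < (nd m I l).2 ∧ (nd m I l).2 < (nd m I l').2) := by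
  induction l with
  | nil =>
    rintro I h l' ⟨-, -, h3⟩
    rw [nd_nil] at h3
    have := (nd_prop hm l' I h).2.2.1
    linarith
  | cons x l ih =>
    rintro I h l' ⟨h1, h2, h3⟩
    cases l' with
    | nil =>
      rw [nd_nil] at h1
      have := (nd_prop hm (x :: l) I h).2.1
      linarith
    | cons y l' =>
      cases x with
      | true =>
        cases y with
        | true => exact ih _ (vd_left hm h) l' ⟨h1, h2, h3⟩
        | false =>
          rw [nd_true, nd_false] at h2
          have a1 := (nd_prop hm l _ (vd_left hm h)).2.2.1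
          have a2 := (nd_prop hm l' _ (vd_right hm h)).2.1
          simp only at a1 a2
          linarith
      | false =>
        cases y with
        | true =>
          rw [nd_true, nd_false] at h1
          have a1 := (nd_prop hm l _ (vd_right hm h)).2.1
          have a2 := (nd_prop hm l' _ (vd_left hm h)).2.2.1
          have a3 := (nd_prop hm l' _ (vd_left hm h)).1.2.2
          have a4 := hψ.reflect_lt a3
          simp only at a1 a2
          linarith
        | false => exact ih _ (vd_right hm h) l' ⟨h1, h2, h3⟩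

theorem nd_app_true (l : List Bool) : ∀ I, nd m I (l ++ [true]) =
    ((nd m I l).1, m (nd m I l)) := by
  induction l with
  | nil => intro I; rfl
  | cons x l ih =>
    intro I
    cases x with
    | true => exact ih _
    | false => exact ih _

theorem nd_app_false (l : List Bool) : ∀ I, nd m I (l ++ [false]) =
    (m (nd m I l), (nd m I l).2) := by
  induction l with
  | nil => intro I; rfl
  | cons x l ih =>
    intro I
    cases x with
    | true => exact ih _
    | false => exact ih _

end

theorem t_FILL : S_FILL := by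
  classical
  intro ψ good p q hψ hpq hmid
  have hex : ∀ I : ℝ × ℝ, ∃ x : ℝ, Vd ψ p q I → Sp ψ good I x := by
    intro I
    by_cases h : Vd ψ p q I
    · obtain ⟨x, hx, h1, h2, h3, h4⟩ := hmid I.1 I.2 h.1 h.2.1 h.2.2
      exact ⟨x, fun _ => ⟨hx, h1, h2, h3, h4⟩⟩
    · exact ⟨0, fun h' => absurd h' h⟩
  choose m hm using hex
  have hroot : Vd ψ p q (p, q) := ⟨le_refl _, le_refl _, hpq⟩
  refine ⟨Set.range (nd m (p, q)), ?_, ⟨[], rfl⟩, ?_, ?_, ?_⟩
  · exact Set.countable_range _
  · rintro I ⟨l, rfl⟩
    obtain ⟨k1, k2, k3, k4, k5⟩ := nd_prop hm l (p, q) hroot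
    exact ⟨k2, hψ.reflect_lt k1.2.2, k3, k4, k5⟩
  · rintro I ⟨l, rfl⟩ J ⟨l', rfl⟩
    exact lam' hψ hm l (p, q) hroot l'
  · intro V hV hI
    have claim : ∀ n : ℕ, (∃ l : List Bool, V ⊆ {(nd m (p, q) l).1, m (nd m (p, q) l),
        (nd m (p, q) l).2}) ∨ (∃ l : List Bool, V ⊆ Icc (nd m (p, q) l).1 (nd m (p, q) l).2 ∧
        ψ (nd m (p, q) l).2 - ψ (nd m (p, q) l).1 ≤ (2 / 3) ^ n * (ψ q - ψ p)) := by
      intro n
      induction n with
      | zero => right; exact ⟨[], hV, by simp [nd_nil]⟩
      | succ n ih =>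
        rcases ih with ih | ⟨l, hl, hl2⟩
        · exact Or.inl ih
        · obtain ⟨k1, -, -, -, -⟩ := nd_prop hm l (p, q) hroot
          obtain ⟨-, s2, s3, s4, s5⟩ := hm _ k1
          set I := nd m (p, q) l with hIdef
          have hpow : (2 / 3 : ℝ) ^ (n + 1) * (ψ q - ψ p) = 2 / 3 * ((2 / 3) ^ n * (ψ q - ψ p)) := by
            ring
          have e1 := hI (I.1, m I) ⟨l ++ [true], nd_app_true l _⟩
          have e2 := hI (m I, I.2) ⟨l ++ [false], nd_app_false l _⟩
          simp only at e1 e2
          rcases e1 with e1 | e1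
          · right
            refine ⟨l ++ [true], ?_, ?_⟩
            · rw [nd_app_true]; exact e1
            · rw [nd_app_true, ← hIdef, hpow]
              simp only
              linarith
          · rcases e2 with e2 | e2
            · right
              refine ⟨l ++ [false], ?_, ?_⟩
              · rw [nd_app_false]; exact e2
              · rw [nd_app_false, ← hIdef, hpow]
                simp only
                linarith
            · left
              refine ⟨l, ?_⟩
              intro v hv
              have v0 := hl hv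
              have v1 := e1 hv
              have v2 := e2 hv
              simp only [mem_union, mem_Icc] at v0 v1 v2
              simp only [mem_insert_iff, mem_singleton_iff]
              rcases v1 with v1 | v1
              · left; linarith [v1.2, v0.1]
              · rcases v2 with v2 | v2
                · right; left; linarith [v1.1, v2.2]
                · right; right; linarith [v0.2, v2.1]
    by_cases hc : ∃ l : List Bool, V ⊆ {(nd m (p, q) l).1, m (nd m (p, q) l), (nd m (p, q) l).2}
    · left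
      obtain ⟨l, hl⟩ := hc
      exact ⟨_, _, _, ⟨l ++ [true], nd_app_true l _⟩, ⟨l ++ [false], nd_app_false l _⟩, hl⟩
    · right
      intro s hs t ht
      have hle : ∀ n : ℕ, |ψ s - ψ t| ≤ (2 / 3) ^ n * (ψ q - ψ p) := by
        intro n
        rcases claim n with h | ⟨l, hl, hl2⟩
        · exact absurd h hc
        · have s1 := hl hs
          have t1 := hl ht
          have a1 := hψ s1.1
          have a2 := hψ s1.2
          have a3 := hψ t1.1
          have a4 := hψ t1.2
          rw [abs_le]
          constructor <;> linarith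
      have hlim : Filter.Tendsto (fun n : ℕ => (2 / 3 : ℝ) ^ n * (ψ q - ψ p)) Filter.atTop (𝓝 0) := by
        have := (tendsto_pow_atTop_nhds_zero_of_lt_one (by norm_num : (0 : ℝ) ≤ 2 / 3)
          (by norm_num)).mul_const (ψ q - ψ p)
        simpa using this
      have h0 : |ψ s - ψ t| ≤ 0 := ge_of_tendsto' hlim hle
      have := abs_nonpos_iff.1 h0
      linarith

end Pool.Agent.KS6_91.PL.W205.PCFill
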