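import Pool.Agent.KS6_91.PL.W983_PL_Defs

/-!
# MP_fe6d1a_gt: statements of the parts
-/
set_option autoImplicit false
open Set Topology

namespace Pool.Agent.KS6_91.PL.W983.PL

/-! ## Plane geometry and general laminations -/

/-- `V` is not separated by any pair of `B`: for each pair, `V` lies in one of the two closed arcs -/
def Uns (B : Set (Circle × Circle)) (V : Set Circle) : Prop :=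
  ∀ p ∈ B, (∀ z ∈ V, ¬ Ccw p.1 p.2 z) ∨ (∀ z ∈ V, ¬ Ccw p.2 p.1 z)

/-- VF -/
def S_VF : Prop := ∀ Λ : Set (Circle × Circle), IsLamination Λ →
  (∀ V : Set Circle, Uns Λ V → V.Finite) → VeryFull Λ

/-- LK: if `{a, b}` lies in one closed side of the chord `e f` and `{c, d}` in the other, they are
not linked. -/
def S_LK : Prop := ∀ e f a b c d : Circle, e ≠ f →
  ¬ Ccw e f a → ¬ Ccw e f b → ¬ Ccw f e c → ¬ Ccw f e d → ¬ Linked a b c d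

/-- the lamination of all pairs which are not linked with a pair of `B` -/
def Max (B : Set (Circle × Circle)) : Set (Circle × Circle) :=
  {p | p.1 ≠ p.2 ∧ ∀ q ∈ B, ¬ Linked q.1 q.2 p.1 p.2}

/-- MAX (uses VF and LK) -/
def S_MAX : Prop := ∀ (B : Set (Circle × Circle)) (EB : Set Circle),
  (∀ p ∈ B, p.swap ∈ B) → (∀ p ∈ B, p.1 ≠ p.2) → (∀ p ∈ B, ∀ q ∈ B, ¬ Linked p.1 p.2 q.1 q.2) →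
  (∀ V : Set Circle, Uns B V → V.Subsingleton ∨ ∃ z₁ ∈ EB, ∃ z₂ ∈ EB, ∃ z₃ ∈ EB, V ⊆ {z₁, z₂, z₃}) →
  IsLamination (Max B) ∧ VeryFull (Max B) ∧ Dense (Ends (Max B)) ∧ Ends (Max B) ⊆ EB

/-- the reflection `z ↦ - conj z` of the circle, `E t ↦ E (1/2 - t)` -/
def IsRefl (σ : HC) : Prop := ∀ z : Circle, (σ z : ℂ) = - (starRingEnd ℂ) (z : ℂ)

def refl (σ : HC) (Λ : Set (Circle × Circle)) : Set (Circle × Circle) :=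
  {p | (σ p.1, σ p.2) ∈ Λ}

/-- SIGMA -/
def S_SIG : Prop := ∃ σ : HC, IsRefl σ ∧ (∀ t, σ (E t) = E (1 / 2 - t)) ∧ σ * σ = 1 ∧
  (∀ a b c, Ccw (σ a) (σ b) (σ c) ↔ Ccw b a c)

/-- SIGLAM -/
def S_SIGLAM : Prop := ∀ σ : HC, IsRefl σ → σ * σ = 1 →
  (∀ a b c, Ccw (σ a) (σ b) (σ c) ↔ Ccw b a c) →
  ∀ Λ, IsLamination Λ → VeryFull Λ → Dense (Ends Λ) →
    IsLamination (refl σ Λ) ∧ VeryFull (refl σ Λ) ∧ Dense (Ends (refl σ Λ))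

/-- ARC -/
def S_ARC : Prop := ∀ p q : ℝ, p < q → q < p + 1 → ∀ z₁ ∈ arc p q, ∀ z₂ ∈ arc p q,
  ∀ w₁ ∈ arc q (p + 1), ∀ w₂ ∈ arc q (p + 1), ¬ Linked z₁ z₂ w₁ w₂ ∧ ¬ Linked w₁ w₂ z₁ z₂

/-! ## The generators -/

noncomputable def bb (k : ℕ) : ℝ := 1 / 8 - 1 / 2 ^ (k + 4)
noncomputable def cc (k : ℕ) : ℝ := bb k + 1 / 2 ^ (k + 6)

/-- BC: numerical facts -/
def S_BC : Prop := (∀ k, 1 / 16 ≤ bb k ∧ bb k < cc k ∧ cc k < bb (k + 1) ∧ bb k < 1 / 8 ∧ cc k < 1 / 8 ∧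
    cc k - bb k ≤ 1 / 64) ∧ (∀ j k, j < k → cc j < bb k) ∧
  (∀ ε > 0, ∃ N, ∀ k ≥ N, 1 / 8 - ε < bb k)

/-- the lifts of the generators: piecewise affine -/
structure IsLift (F : ℕ → ℝ ≃o ℝ) : Prop where
  per : ∀ k t, F k (t + 1) = F k t + 1
  L : ∀ k t, -bb k ≤ t → t ≤ bb k →
    F k t = 1 / 2 - cc k + (t + bb k) * ((cc k - bb k) / (2 * bb k))
  Y : ∀ k t, bb k ≤ t → t ≤ cc k →
    F k t = 1 / 2 - bb k + (t - bb k) * (2 * bb k / (cc k - bb k))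
  T : ∀ k t, cc k ≤ t → t ≤ 1 - cc k →
    F k t = 1 / 2 + bb k + (t - cc k) * ((cc k - bb k) / (1 - 2 * cc k))
  R : ∀ k t, 1 - cc k ≤ t → t ≤ 1 - bb k →
    F k t = 1 / 2 + cc k + (t - (1 - cc k)) * ((1 - 2 * cc k) / (cc k - bb k))

/-- PL1 (general lemma): periodic piecewise affine order isomorphism with four pieces -/
def S_PL1 : Prop := ∀ p₀ p₁ p₂ p₃ q₀ q₁ q₂ q₃ : ℝ, p₀ < p₁ → p₁ < p₂ → p₂ < p₃ → p₃ < p₀ + 1 →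
  q₀ < q₁ → q₁ < q₂ → q₂ < q₃ → q₃ < q₀ + 1 → ∃ F : ℝ ≃o ℝ, (∀ t, F (t + 1) = F t + 1) ∧
    (∀ t, p₀ ≤ t → t ≤ p₁ → F t = q₀ + (t - p₀) * ((q₁ - q₀) / (p₁ - p₀))) ∧
    (∀ t, p₁ ≤ t → t ≤ p₂ → F t = q₁ + (t - p₁) * ((q₂ - q₁) / (p₂ - p₁))) ∧
    (∀ t, p₂ ≤ t → t ≤ p₃ → F t = q₂ + (t - p₂) * ((q₃ - q₂) / (p₃ - p₂))) ∧
    (∀ t, p₃ ≤ t → t ≤ p₀ + 1 → F t = q₃ + (t - p₃) * ((q₀ + 1 - q₃) / (p₀ + 1 - p₃)))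

/-- PL (from PL1 and BC) -/
def S_PL : Prop := ∃ F : ℕ → ℝ ≃o ℝ, IsLift F

/-- HOM: a homeomorphism of the circle from a lift -/
def S_HOM : Prop := ∀ F : ℝ ≃o ℝ, (∀ t, F (t + 1) = F t + 1) →
  ∃ g : HC, (∀ t, g (E t) = E (F t)) ∧ OrientationPreserving g

/-- the generators -/
structure IsGen (F : ℕ → ℝ ≃o ℝ) (g : ℕ → HC) : Prop where
  lift : IsLift F
  gE : ∀ k t, g k (E t) = E (F k t)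
  op : ∀ k, OrientationPreserving (g k)

/-! Sets in coordinates -/
def LL (k : ℕ) : Set Circle := {z | co z ≤ bb k ∨ 1 - bb k ≤ co z}
def RT (k : ℕ) : Set Circle := {z | cc k ≤ co z ∧ co z ≤ 1 - cc k}
def II (k : ℕ) : Set Circle := {z | 1 / 2 - bb k ≤ co z ∧ co z ≤ 1 / 2 + bb k}
def OO (k : ℕ) : Set Circle := {z | co z ≤ 1 / 2 - cc k ∨ 1 / 2 + cc k ≤ co z}
def DY (k : ℕ) : Set Circle := {z | bb k ≤ co z ∧ co z ≤ cc k}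
def DR (k : ℕ) : Set Circle := {z | 1 - cc k ≤ co z ∧ co z ≤ 1 - bb k}
def DX (k : ℕ) : Set Circle := {z | 1 / 2 - cc k ≤ co z ∧ co z ≤ 1 / 2 - bb k}
def DA (k : ℕ) : Set Circle := {z | 1 / 2 + bb k ≤ co z ∧ co z ≤ 1 / 2 + cc k}

/-- MAP -/
def S_MAP : Prop := ∀ F g, IsGen F g → ∀ k z, (z ∈ LL k → g k z ∈ DX k) ∧ (z ∈ RT k → g k z ∈ DA k) ∧
  (z ∈ II k → (g k)⁻¹ z ∈ DY k) ∧ (z ∈ OO k → (g k)⁻¹ z ∈ DR k)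

/-- CON: on each complementary component the generators contract coordinates by 1/2 -/
def S_CON : Prop := ∀ F g, IsGen F g → ∀ k z w,
  (z ∈ LL k → w ∈ LL k → |co (g k z) - co (g k w)| ≤ 1 / 2 * |co z - co w|) ∧
  (z ∈ RT k → w ∈ RT k → |co (g k z) - co (g k w)| ≤ 1 / 2 * |co z - co w|) ∧
  (z ∈ II k → w ∈ II k → |co ((g k)⁻¹ z) - co ((g k)⁻¹ w)| ≤ 1 / 2 * |co z - co w|) ∧
  (z ∈ OO k → w ∈ OO k → |co ((g k)⁻¹ z) - co ((g k)⁻¹ w)| ≤ 1 / 2 * |co z - co w|)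

/-- letters: `(k, true)` is `g k`, `(k, false)` its inverse -/
def inv (s : ℕ × Bool) : ℕ × Bool := (s.1, !s.2)
noncomputable def lt (g : ℕ → HC) (s : ℕ × Bool) : HC := cond s.2 (g s.1) (g s.1)⁻¹

/-- ping-pong domains -/
def Dm (s : ℕ × Bool) : Set Circle := if s.2 then DX s.1 ∪ DA s.1 else DY s.1 ∪ DR s.1

noncomputable def pb : ℕ → ℝ
  | 0 => 0
  | k + 1 => cc k

/-- slightly wider domains -/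
def Wd (s : ℕ × Bool) : Set Circle := if s.2 then DX s.1 ∪ DA s.1 else
  {z | (pb s.1 ≤ co z ∧ co z ≤ bb (s.1 + 1)) ∨ (1 - bb (s.1 + 1) ≤ co z ∧ co z ≤ 1 - pb s.1)}

/-- WC (from MAP, CON, BC) -/
def S_WC : Prop := ∀ F g, IsGen F g →
  (∀ s t, t ≠ inv s → ∀ z ∈ Wd t, ∀ w ∈ Wd t,
    |co (lt g s z) - co (lt g s w)| ≤ 1 / 2 * |co z - co w|) ∧
  (∀ s z, z ∉ Dm (inv s) → lt g s z ∈ Dm s) ∧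
  (∀ s t, s ≠ t → Disjoint (Dm s) (Dm t)) ∧ (∀ s, Dm s ⊆ Wd s) ∧
  (∀ s, IsClosed (co '' Dm s)) ∧ (∀ s, (Dm s).Nonempty) ∧
  (∀ s, ∀ z ∈ Dm s, 1 / 16 ≤ co z ∧ co z ≤ 15 / 16 ∧ co z ≠ 1 / 8 ∧ co z ≠ 3 / 8 ∧ co z ≠ 5 / 8 ∧
    co z ≠ 7 / 8)

/-! ## Group theory -/

/-- FIX: in a contracting ping-pong every nontrivial element has exactly two fixed points -/
def S_FIX : Prop := ∀ (g : ℕ → HC) (D : ℕ × Bool → Set Circle),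
  (∀ s t, s ≠ t → Disjoint (D s) (D t)) → (∀ s z, z ∉ D (inv s) → lt g s z ∈ D s) →
  (∀ s t, t ≠ inv s → ∀ z ∈ D t, ∀ w ∈ D t,
    |co (lt g s z) - co (lt g s w)| ≤ 1 / 2 * |co z - co w|) →
  (∀ s, IsClosed (co '' D s)) → (∀ s, (D s).Nonempty) →
  ∀ w : FreeGroup ℕ, w ≠ 1 → ∃ p q, p ≠ q ∧ ∀ z, FreeGroup.lift g w z = z ↔ z = p ∨ z = q

/-- WORD -/
def S_WORD : Prop := ∀ (g : ℕ → HC) (D : ℕ × Bool → Set Circle),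
  (∀ s t, s ≠ t → Disjoint (D s) (D t)) → (∀ s z, z ∉ D (inv s) → lt g s z ∈ D s) →
  ∀ o : Circle, (∀ s, o ∉ D s) → ∀ w : FreeGroup ℕ, w ≠ 1 → ∃ s, FreeGroup.lift g w o ∈ D s

/-- TF -/
def S_TF : Prop := ∀ g : ℕ → HC, Function.Injective (FreeGroup.lift g) →
  TorsionFree (FreeGroup.lift g).range ∧ Countable (FreeGroup.lift g).range

/-- DISC -/
def S_DISC : Prop := ∀ (G : Subgroup HC) (o : Circle) (ε : ℝ), 0 < ε →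
  (∀ h ∈ G, h ≠ 1 → ε ≤ dist (h o) o) → Discrete G

/-- NF (from MAP) -/
def S_NF : Prop := ∀ F g, IsGen F g → ¬ IsFuchsian (FreeGroup.lift g).range

/-- SG: the reflection conjugates the generators to their inverses -/
def S_SG : Prop := ∀ F g, IsGen F g → ∀ σ : HC, (∀ t, σ (E t) = E (1 / 2 - t)) →
  ∀ k, σ * g k * σ = (g k)⁻¹

/-! ## The invariant lamination -/

/-- AV -/
def S_AV : Prop := ∀ Z : Set Circle, Z.Countable → {t : ℝ | E t ∈ Z}.Countable ∧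
  ∀ a b : ℝ, a < b → ∃ t, a < t ∧ t < b ∧ E t ∉ Z

/-- choice of the cut points -/
structure Cuts (Z : Set Circle) (η ρ : ℕ → ℝ) : Prop where
  e0 : 0 < η 0 ∧ η 0 < bb 0
  eS : ∀ k, cc k < η (k + 1) ∧ η (k + 1) < bb (k + 1)
  r0 : 1 - bb 0 < ρ 0 ∧ ρ 0 < 1
  rS : ∀ k, 1 - bb (k + 1) < ρ (k + 1) ∧ ρ (k + 1) < 1 - cc k
  eZ : ∀ k, E (η k) ∉ Z
  rZ : ∀ k, E (ρ k) ∉ Z

/-- CUT (from AV and BC) -/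
def S_CUT : Prop := ∀ Z : Set Circle, Z.Countable → ∃ η ρ, Cuts Z η ρ

/-- endpoints of the images: the arc `[ρ_k - 1, η_k]` goes to `[xl, xr]`, the arc
`[η_{k+1}, ρ_{k+1}]` to `[al, ar]` -/
noncomputable def xl (F : ℕ → ℝ ≃o ℝ) (ρ : ℕ → ℝ) (k : ℕ) : ℝ := F k (ρ k - 1)
noncomputable def xr (F : ℕ → ℝ ≃o ℝ) (η : ℕ → ℝ) (k : ℕ) : ℝ := F k (η k)
noncomputable def al (F : ℕ → ℝ ≃o ℝ) (η : ℕ → ℝ) (k : ℕ) : ℝ := F k (η (k + 1))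
noncomputable def ar (F : ℕ → ℝ ≃o ℝ) (ρ : ℕ → ℝ) (k : ℕ) : ℝ := F k (ρ (k + 1))

/-- POS -/
def S_POS : Prop := ∀ F Z η ρ, IsLift F → Cuts Z η ρ →
  (∀ k, 1 / 2 - cc k ≤ xl F ρ k ∧ xl F ρ k < xr F η k ∧ xr F η k ≤ 1 / 2 - bb k) ∧
  (∀ k, 1 / 2 + bb k ≤ al F η k ∧ al F η k < ar F ρ k ∧ ar F ρ k ≤ 1 / 2 + cc k) ∧
  (∀ k, η k < η (k + 1)) ∧ (∀ k, ρ (k + 1) < ρ k) ∧ (∀ k, 0 < η k ∧ η k < 1 / 8) ∧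
  (∀ k, 7 / 8 < ρ k ∧ ρ k < 1) ∧ (∀ ε > 0, ∃ N, ∀ k ≥ N, 1 / 8 - ε < η k ∧ ρ k < 7 / 8 + ε)

structure FillOK (p q : ℝ) (good : Set ℝ) (ψ : ℝ → ℝ) (𝓕 : Set (ℝ × ℝ)) : Prop where
  cnt : 𝓕.Countable
  root : (p, q) ∈ 𝓕
  rng : ∀ I ∈ 𝓕, p ≤ I.1 ∧ I.1 < I.2 ∧ I.2 ≤ q ∧ (I.1 = p ∨ I.1 ∈ good) ∧ (I.2 = q ∨ I.2 ∈ good)
  lam : ∀ I ∈ 𝓕, ∀ J ∈ 𝓕, ¬ (I.1 < J.1 ∧ J.1 < I.2 ∧ I.2 < J.2)
  cls : ∀ V ⊆ Icc p q, (∀ I ∈ 𝓕, V ⊆ Icc I.1 I.2 ∨ V ⊆ Icc p I.1 ∪ Icc I.2 q) →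
    (∃ a m b, (a, m) ∈ 𝓕 ∧ (m, b) ∈ 𝓕 ∧ V ⊆ {a, m, b}) ∨ (∀ s ∈ V, ∀ t ∈ V, ψ s = ψ t)

/-- middle third property -/
def Mid (p q : ℝ) (good : Set ℝ) (ψ : ℝ → ℝ) : Prop :=
  ∀ a b, p ≤ a → b ≤ q → ψ a < ψ b → ∃ m ∈ good, a < m ∧ m < b ∧
    ψ a + (ψ b - ψ a) / 3 ≤ ψ m ∧ ψ m ≤ ψ b - (ψ b - ψ a) / 3

/-- FILL -/
def S_FILL : Prop := ∀ (ψ : ℝ → ℝ) (good : Set ℝ) (p q : ℝ), Monotone ψ → ψ p < ψ q →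
  Mid p q good ψ → ∃ 𝓕, FillOK p q good ψ 𝓕

def goodA (Z : Set Circle) : Set ℝ := {t | E t ∉ Z}
def goodB (F : ℕ → ℝ ≃o ℝ) (Z : Set Circle) (η ρ : ℕ → ℝ) : Set ℝ :=
  {t | E t ∉ Z ∧ ∀ k, t ∉ Icc (xl F ρ k) (xr F η k) ∧ t ∉ Icc (al F η k) (ar F ρ k)}

/-- COL (from POS, AV, BC): the map collapsing the intervals -/
def S_COL : Prop := ∀ F Z η ρ, IsLift F → Z.Countable → Cuts Z η ρ → ∃ ψ : ℝ → ℝ, Monotone ψ ∧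
  ψ (1 / 8) < ψ (7 / 8) ∧ Mid (1 / 8) (7 / 8) (goodB F Z η ρ) ψ ∧
  ∀ s t, 1 / 8 ≤ s → s < t → t ≤ 7 / 8 → ψ s = ψ t → ∃ k,
    (xl F ρ k ≤ s ∧ t ≤ xr F η k) ∨ (al F η k ≤ s ∧ t ≤ ar F ρ k)

/-- the data of the lamination -/
structure Dat (F : ℕ → ℝ ≃o ℝ) (g : ℕ → HC) (Z : Set Circle) (η ρ : ℕ → ℝ) (ψ : ℝ → ℝ)
    (𝓐 𝓑 : Set (ℝ × ℝ)) : Prop where
  gen : IsGen F g
  cuts : Cuts Z η ρ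
  Zc : Z.Countable
  Zy : E (1 / 8) ∉ Z
  Zr : E (7 / 8) ∉ Z
  fa : FillOK (ρ 0 - 1) (η 0) (goodA Z) id 𝓐
  fb : FillOK (1 / 8) (7 / 8) (goodB F Z η ρ) ψ 𝓑
  mono : Monotone ψ
  col : ∀ s t, 1 / 8 ≤ s → s < t → t ≤ 7 / 8 → ψ s = ψ t → ∃ k,
    (xl F ρ k ≤ s ∧ t ≤ xr F η k) ∨ (al F η k ≤ s ∧ t ≤ ar F ρ k)

/-- base leaves -/
def Base (η ρ : ℕ → ℝ) (𝓐 𝓑 : Set (ℝ × ℝ)) : Set (ℝ × ℝ) := {I | ∃ k, I = (η k, ρ k)} ∪ 𝓐 ∪ 𝓑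

/-- AR: arcs and generators -/
def S_AR : Prop := ∀ F g Z η ρ, IsGen F g → Cuts Z η ρ → ∀ k z,
  (z ∈ arc (ρ k - 1) (η k) ↔ g k z ∈ arc (xl F ρ k) (xr F η k)) ∧
  (z ∈ arc (η (k + 1)) (ρ (k + 1)) ↔ g k z ∈ arc (al F η k) (ar F ρ k)) ∧
  (z ∈ arc (η k) (η (k + 1)) ↔ g k z ∈ arc (xr F η k) (al F η k)) ∧
  (z ∈ arc (ρ (k + 1)) (ρ k) ↔ g k z ∈ arc (ar F ρ k) (xl F ρ k + 1))

/-- the pairs which occur as images under reduced words beginning with the letter `s` -/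
def PP (F : ℕ → ℝ ≃o ℝ) (η ρ : ℕ → ℝ) (s : ℕ × Bool) : Set (Circle × Circle) :=
  if s.2 then {p | (p.1 ∈ arc (xl F ρ s.1) (xr F η s.1) ∧ p.2 ∈ arc (xl F ρ s.1) (xr F η s.1)) ∨
      (p.1 ∈ arc (al F η s.1) (ar F ρ s.1) ∧ p.2 ∈ arc (al F η s.1) (ar F ρ s.1))}
  else {p | p.1 ∈ arc (η s.1) (η (s.1 + 1)) ∪ arc (ρ (s.1 + 1)) (ρ s.1) ∧
      p.2 ∈ arc (η s.1) (η (s.1 + 1)) ∪ arc (ρ (s.1 + 1)) (ρ s.1)}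

/-- D1A (from AR, POS) -/
def S_D1A : Prop := ∀ F g Z η ρ ψ 𝓐 𝓑, Dat F g Z η ρ ψ 𝓐 𝓑 → ∀ J ∈ Base η ρ 𝓐 𝓑, ∀ s,
  (lt g s (E J.1), lt g s (E J.2)) ∈ PP F η ρ s

/-- D1B (from AR, POS) -/
def S_D1B : Prop := ∀ F g Z η ρ, IsGen F g → Cuts Z η ρ → ∀ s t, t ≠ inv s → ∀ p ∈ PP F η ρ t,
  (lt g s p.1, lt g s p.2) ∈ PP F η ρ s

/-- D1C (from POS, ARC) -/
def S_D1C : Prop := ∀ F g Z η ρ ψ 𝓐 𝓑, Dat F g Z η ρ ψ 𝓐 𝓑 → ∀ I ∈ Base η ρ 𝓐 𝓑, ∀ s,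
  ∀ p ∈ PP F η ρ s, ¬ Linked (E I.1) (E I.2) p.1 p.2

/-- D1D (from POS, ARC) -/
def S_D1D : Prop := ∀ F g Z η ρ ψ 𝓐 𝓑, Dat F g Z η ρ ψ 𝓐 𝓑 → ∀ I ∈ Base η ρ 𝓐 𝓑,
  ∀ J ∈ Base η ρ 𝓐 𝓑, ¬ Linked (E I.1) (E I.2) (E J.1) (E J.2)

/-- the leaves: all images of the base leaves -/
def PB (g : ℕ → HC) (Bs : Set (ℝ × ℝ)) : Set (Circle × Circle) :=
  {p | ∃ h ∈ (FreeGroup.lift g).range, ∃ I ∈ Bs,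
    p = (h (E I.1), h (E I.2)) ∨ p = (h (E I.2), h (E I.1))}

def EBs (g : ℕ → HC) (Bs : Set (ℝ × ℝ)) : Set Circle :=
  {z | ∃ h ∈ (FreeGroup.lift g).range, ∃ I ∈ Bs, z = h (E I.1) ∨ z = h (E I.2)}

/-- D1 (from D1A, D1B, D1C, D1D) -/
def S_D1 : Prop := ∀ F g Z η ρ ψ 𝓐 𝓑, Dat F g Z η ρ ψ 𝓐 𝓑 →
  ∀ p ∈ PB g (Base η ρ 𝓐 𝓑), ∀ q ∈ PB g (Base η ρ 𝓐 𝓑), ¬ Linked p.1 p.2 q.1 q.2

/-- the two closed sides of a base leaf -/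
def UnsB (Bs : Set (ℝ × ℝ)) (V : Set Circle) : Prop :=
  ∀ I ∈ Bs, V ⊆ arc I.1 I.2 ∨ V ⊆ arc I.2 (I.1 + 1)

/-- the possible positions of `V` -/
def InD (F : ℕ → ℝ ≃o ℝ) (η ρ : ℕ → ℝ) (V : Set Circle) (s : ℕ × Bool) : Prop :=
  if s.2 then V ⊆ arc (xl F ρ s.1) (xr F η s.1) ∨ V ⊆ arc (al F η s.1) (ar F ρ s.1)
  else V ⊆ arc (η s.1) (η (s.1 + 1)) ∪ arc (ρ (s.1 + 1)) (ρ s.1)

/-- D2 (from POS) -/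
def S_D2 : Prop := ∀ F g Z η ρ ψ 𝓐 𝓑, Dat F g Z η ρ ψ 𝓐 𝓑 → ∀ V : Set Circle,
  UnsB (Base η ρ 𝓐 𝓑) V → V.Subsingleton ∨
    (∃ z₁ z₂ z₃, V ⊆ {z₁, z₂, z₃} ∧ ∀ z ∈ ({z₁, z₂, z₃} : Set Circle),
      ∃ I ∈ Base η ρ 𝓐 𝓑, z = E I.1 ∨ z = E I.2) ∨ ∃ s, InD F η ρ V s

/-- D3 (from D2, AR, POS, WC) -/
def S_D3 : Prop := ∀ F g Z η ρ ψ 𝓐 𝓑, Dat F g Z η ρ ψ 𝓐 𝓑 → ∀ V : Set Circle,
  Uns (PB g (Base η ρ 𝓐 𝓑)) V → V.Subsingleton ∨ ∃ z₁ ∈ EBs g (Base η ρ 𝓐 𝓑),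
    ∃ z₂ ∈ EBs g (Base η ρ 𝓐 𝓑), ∃ z₃ ∈ EBs g (Base η ρ 𝓐 𝓑), V ⊆ {z₁, z₂, z₃}

/-- LAM (assembly: AV, CUT, FILL, COL, D1, D3, MAX) -/
def S_LAM : Prop := ∀ F g, IsGen F g → ∀ Z : Set Circle, Z.Countable →
  (∀ h ∈ (FreeGroup.lift g).range, ∀ z ∈ Z, h z ∈ Z) → E (1 / 8) ∉ Z → E (7 / 8) ∉ Z →
  ∃ Λ, IsLamination Λ ∧ VeryFull Λ ∧ Dense (Ends Λ) ∧ Inv (FreeGroup.lift g).range Λ ∧
    (Ends Λ).Countable ∧ Ends Λ ∩ Z = ∅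

end Pool.Agent.KS6_91.PL.W983.PL
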