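import Mathlib
import Pool.Agent.KS6_91.PL.W983_PL_Stm
set_option autoImplicit false

namespace Pool.Agent.KS6_91.PL.W214.PC

open Set Topology MeasureTheory
open Pool.Agent.KS6_91.PL.W983.PL

noncomputable def psi (W : Set ℝ) (t : ℝ) : ℝ := (volume (Icc (1 / 8 : ℝ) t \ W)).toReal

lemma vol_lt_top (W : Set ℝ) (t : ℝ) : volume (Icc (1 / 8 : ℝ) t \ W) ≠ ⊤ :=
  ((measure_mono sdiff_subset).trans_lt (by rw [Real.volume_Icc]; exact ENNReal.ofReal_lt_top)).ne

lemma psi_mono (W : Set ℝ) : Monotone (psi W) := by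
  intro s t hst
  unfold psi
  exact ENNReal.toReal_mono (vol_lt_top W t)
    (measure_mono (sdiff_subset_sdiff_left (Icc_subset_Icc_right hst)))

lemma psi_le (W : Set ℝ) {s t : ℝ} :
    volume (Icc (1 / 8 : ℝ) t \ W) ≤ volume (Icc (1 / 8 : ℝ) s \ W) + volume (Ioc s t \ W) := by
  refine (measure_mono ?_).trans (measure_union_le _ _)
  rintro u ⟨⟨h1, h2⟩, h3⟩
  rcases le_or_gt u s with h | h
  · exact Or.inl ⟨⟨h1, h⟩, h3⟩
  · exact Or.inr ⟨⟨h, h2⟩, h3⟩

lemma psi_lip (W : Set ℝ) {s t : ℝ} (hst : s ≤ t) : psi W t ≤ psi W s + (t - s) := by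
  unfold psi
  have h1 : volume (Ioc s t \ W) ≤ ENNReal.ofReal (t - s) :=
    (measure_mono sdiff_subset).trans (by rw [Real.volume_Ioc])
  have h2 := (psi_le W (s := s) (t := t)).trans (add_le_add_right h1 _)
  have h3 := ENNReal.toReal_mono (ENNReal.add_ne_top.mpr ⟨vol_lt_top W s, ENNReal.ofReal_ne_top⟩) h2
  rwa [ENNReal.toReal_add (vol_lt_top W s) ENNReal.ofReal_ne_top,
    ENNReal.toReal_ofReal (by linarith)] at h3

lemma psi_cont (W : Set ℝ) : Continuous (psi W) := by
  have : LipschitzWith 1 (psi W) := by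
    apply LipschitzWith.of_dist_le_mul
    intro s t
    rw [NNReal.coe_one, one_mul, Real.dist_eq, Real.dist_eq]
    rcases le_total s t with h | h
    · have h1 := psi_lip W h
      have h2 := psi_mono W h
      rw [abs_sub_comm, abs_of_nonneg (by linarith), abs_sub_comm, abs_of_nonneg (by linarith)]
      linarith
    · have h1 := psi_lip W h
      have h2 := psi_mono W h
      rw [abs_of_nonneg (by linarith), abs_of_nonneg (by linarith)]
      linarith
  exact this.continuous

/-- if `psi` increases, there is a good point between -/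
lemma exists_good (W : Set ℝ) (Zr : Set ℝ) (hZ : Zr.Countable) {s t : ℝ}
    (h : psi W s < psi W t) : ∃ m, s < m ∧ m < t ∧ m ∉ W ∧ m ∉ Zr := by
  by_contra hcon
  push Not at hcon
  have h1 : Ioc s t \ W ⊆ Zr ∪ {t} := by
    rintro u ⟨⟨h1, h2⟩, h3⟩
    rcases h2.eq_or_lt with h4 | h4
    · exact Or.inr h4
    · exact Or.inl (hcon u h1 h4 h3)
  have h2 : volume (Ioc s t \ W) = 0 :=
    measure_mono_null h1 ((hZ.union (countable_singleton t)).measure_zero _)
  have h3 := psi_le W (s := s) (t := t)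
  rw [h2, add_zero] at h3
  have h4 := ENNReal.toReal_mono (vol_lt_top W s) h3
  unfold psi at h
  linarith

lemma psi_gap (W : Set ℝ) {s t u v : ℝ} (hs : 1 / 8 ≤ s) (hsu : s ≤ u) (huv : u < v) (hvt : v ≤ t)
    (hW : ∀ w, u < w → w < v → w ∉ W) : psi W s < psi W t := by
  have h1 : (Icc (1 / 8 : ℝ) s \ W) ∪ Ioo u v ⊆ Icc (1 / 8 : ℝ) t \ W := by
    rintro w (⟨⟨h1, h2⟩, h3⟩ | ⟨h1, h2⟩)
    · exact ⟨⟨h1, by linarith⟩, h3⟩
    · exact ⟨⟨by linarith, by linarith⟩, hW w h1 h2⟩
  have h2 : Disjoint (Icc (1 / 8 : ℝ) s \ W) (Ioo u v) := by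
    rw [Set.disjoint_left]
    rintro w ⟨⟨_, h2⟩, _⟩ ⟨h3, _⟩
    linarith
  have h3 := measure_mono (μ := volume) h1
  rw [measure_union h2 measurableSet_Ioo, Real.volume_Ioo] at h3
  have h4 := ENNReal.toReal_mono (vol_lt_top W t) h3
  rw [ENNReal.toReal_add (vol_lt_top W s) ENNReal.ofReal_ne_top,
    ENNReal.toReal_ofReal (by linarith)] at h4
  unfold psi
  linarith

/-- the union of the intervals -/
def WW (x y a d : ℕ → ℝ) : Set ℝ := {w | ∃ j, (x j ≤ w ∧ w ≤ y j) ∨ (a j ≤ w ∧ w ≤ d j)}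

lemma last (x y a d b c : ℕ → ℝ) (hx : ∀ j, 1 / 2 - c j ≤ x j) (hy : ∀ j, y j ≤ 1 / 2 - b j)
    (ha : ∀ j, 1 / 2 + b j ≤ a j) (hd : ∀ j, d j ≤ 1 / 2 + c j) (hb : ∀ j, 1 / 16 ≤ b j)
    (hbc : ∀ j, b j < c j) (hc8 : ∀ j, c j < 1 / 8) (hcb : ∀ j k, j < k → c j < b k)
    (hlim : ∀ ε > 0, ∃ N, ∀ k ≥ N, 1 / 8 - ε < b k) (s t : ℝ) (hs : 1 / 8 ≤ s) (hst : s < t)
    (ht : t ≤ 7 / 8) (hpsi : psi (WW x y a d) s = psi (WW x y a d) t) :
    ∃ k, (x k ≤ s ∧ t ≤ y k) ∨ (a k ≤ s ∧ t ≤ d k) := by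
  have hfree : ∀ u v, s ≤ u → u < v → v ≤ t → (∀ w, u < w → w < v → w ∉ WW x y a d) → False := by
    intro u v h1 h2 h3 h4
    exact absurd (psi_gap (WW x y a d) hs h1 h2 h3 h4) (by rw [hpsi]; exact lt_irrefl _)
  -- s ≥ 3/8
  have hs3 : 3 / 8 ≤ s := by
    by_contra hlt
    push Not at hlt
    refine hfree s (min t (3 / 8)) le_rfl (lt_min hst hlt) (min_le_left _ _) ?_
    rintro w h1 h2 ⟨j, h3 | h3⟩
    · have := (lt_min_iff.mp h2).2
      linarith [hx j, hc8 j]
    · have := (lt_min_iff.mp h2).2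
      linarith [ha j, hb j]
  have ht5 : t ≤ 5 / 8 := by
    by_contra hlt
    push Not at hlt
    refine hfree (max s (5 / 8)) t (le_max_left _ _) (max_lt hst hlt) le_rfl ?_
    rintro w h1 h2 ⟨j, h3 | h3⟩
    · have := (max_lt_iff.mp h1).2
      linarith [hy j, hb j]
    · have := (max_lt_iff.mp h1).2
      linarith [hd j, hc8 j]
  have hmid : t ≤ 1 / 2 - b 0 ∨ 1 / 2 + b 0 ≤ s := by
    by_contra hcon
    push Not at hcon
    obtain ⟨h1, h2⟩ := hcon
    refine hfree (max s (1 / 2 - b 0)) (min t (1 / 2 + b 0)) (le_max_left _ _)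
      (max_lt (lt_min hst h2) (lt_min h1 (by linarith [hb 0]))) (min_le_left _ _) ?_
    have hb0 : ∀ j, b 0 ≤ b j := by
      intro j
      rcases Nat.eq_zero_or_pos j with h | h
      · rw [h]
      · linarith [hcb 0 j h, hbc 0]
    rintro w h3 h4 ⟨j, h5 | h5⟩
    · have := (max_lt_iff.mp h3).2
      linarith [hy j, hb0 j]
    · have := (lt_min_iff.mp h4).2
      linarith [ha j, hb0 j]
  rcases hmid with hm | hm
  · -- left
    have hex : ∃ n, 1 / 2 - b n < t := by
      obtain ⟨N, hN⟩ := hlim (t - 3 / 8) (by linarith)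
      exact ⟨N, by linarith [hN N le_rfl]⟩
    classical
    obtain ⟨n, hn⟩ : ∃ n, n = Nat.find hex := ⟨_, rfl⟩
    have hn1 : 1 / 2 - b n < t := by rw [hn]; exact Nat.find_spec hex
    have hn2 : ∀ m, m < n → t ≤ 1 / 2 - b m := by
      intro m hm'
      rw [hn] at hm'
      exact not_lt.mp (Nat.find_min hex hm')
    rcases n with _ | k
    · linarith
    have hk := hn2 k (Nat.lt_succ_self k)
    have hkk : c k < b (k + 1) := hcb k (k + 1) (Nat.lt_succ_self k)
    have hsc : 1 / 2 - c k ≤ s := by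
      by_contra hlt
      push Not at hlt
      refine hfree (max s (1 / 2 - b (k + 1))) (min t (1 / 2 - c k)) (le_max_left _ _)
        (max_lt (lt_min hst hlt) (lt_min hn1 (by linarith))) (min_le_left _ _) ?_
      rintro w h3 h4 ⟨j, h5 | h5⟩
      · have e1 := (max_lt_iff.mp h3).2
        have e2 := (lt_min_iff.mp h4).2
        rcases lt_trichotomy j k with hj | hj | hj
        · linarith [hx j, hcb j k hj, hbc k]
        · subst hj
          linarith [hx j]
        · rcases (Nat.succ_le_of_lt hj).eq_or_lt with hj1 | hj1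
          · have : j = k + 1 := hj1.symm
            subst this
            linarith [hy (k + 1)]
          · have := hcb (k + 1) j hj1
            linarith [hy j, hbc (k + 1)]
      · have e2 := (lt_min_iff.mp h4).2
        linarith [ha j, hb j, hb k, hbc k]
    refine ⟨k, Or.inl ⟨?_, ?_⟩⟩
    · by_contra hlt
      push Not at hlt
      refine hfree s (min t (x k)) le_rfl (lt_min hst hlt) (min_le_left _ _) ?_
      rintro w h3 h4 ⟨j, h5 | h5⟩
      · have e2 := (lt_min_iff.mp h4)
        rcases lt_trichotomy j k with hj | hj | hj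
        · linarith [hx j, hcb j k hj, e2.1]
        · subst hj
          linarith [e2.2]
        · have := hcb k j hj
          linarith [hy j]
      · have e2 := (lt_min_iff.mp h4)
        linarith [ha j, hb j, hb k, e2.1]
    · by_contra hlt
      push Not at hlt
      refine hfree (max s (y k)) t (le_max_left _ _) (max_lt hst hlt) le_rfl ?_
      rintro w h3 h4 ⟨j, h5 | h5⟩
      · have e2 := (max_lt_iff.mp h3)
        rcases lt_trichotomy j k with hj | hj | hj
        · linarith [hx j, hcb j k hj, e2.1]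
        · subst hj
          linarith [e2.2]
        · have := hcb k j hj
          linarith [hy j, e2.1]
      · linarith [ha j, hb j, hb k]
  · -- right
    have hex : ∃ n, s < 1 / 2 + b n := by
      obtain ⟨N, hN⟩ := hlim (5 / 8 - s) (by linarith)
      exact ⟨N, by linarith [hN N le_rfl]⟩
    classical
    obtain ⟨n, hn⟩ : ∃ n, n = Nat.find hex := ⟨_, rfl⟩
    have hn1 : s < 1 / 2 + b n := by rw [hn]; exact Nat.find_spec hex
    have hn2 : ∀ m, m < n → 1 / 2 + b m ≤ s := by
      intro m hm'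
      rw [hn] at hm'
      exact not_lt.mp (Nat.find_min hex hm')
    rcases n with _ | k
    · linarith
    have hk := hn2 k (Nat.lt_succ_self k)
    have hkk : c k < b (k + 1) := hcb k (k + 1) (Nat.lt_succ_self k)
    have hsc : t ≤ 1 / 2 + c k := by
      by_contra hlt
      push Not at hlt
      refine hfree (max s (1 / 2 + c k)) (min t (1 / 2 + b (k + 1))) (le_max_left _ _)
        (max_lt (lt_min hst hn1) (lt_min hlt (by linarith))) (min_le_left _ _) ?_
      rintro w h3 h4 ⟨j, h5 | h5⟩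
      · have e1 := (max_lt_iff.mp h3).2
        linarith [hy j, hb j, hb k, hbc k]
      · have e1 := (max_lt_iff.mp h3).2
        have e2 := (lt_min_iff.mp h4).2
        rcases lt_trichotomy j k with hj | hj | hj
        · linarith [hd j, hcb j k hj, hbc k]
        · subst hj
          linarith [hd j]
        · rcases (Nat.succ_le_of_lt hj).eq_or_lt with hj1 | hj1
          · have : j = k + 1 := hj1.symm
            subst this
            linarith [ha (k + 1)]
          · have := hcb (k + 1) j hj1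
            linarith [ha j, hbc (k + 1)]
    refine ⟨k, Or.inr ⟨?_, ?_⟩⟩
    · by_contra hlt
      push Not at hlt
      refine hfree s (min t (a k)) le_rfl (lt_min hst hlt) (min_le_left _ _) ?_
      rintro w h3 h4 ⟨j, h5 | h5⟩
      · linarith [hy j, hb j, hb k]
      · have e2 := (lt_min_iff.mp h4)
        rcases lt_trichotomy j k with hj | hj | hj
        · linarith [hd j, hcb j k hj, e2.1]
        · subst hj
          linarith [e2.2]
        · have := hcb k j hj
          linarith [ha j, e2.1]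
    · by_contra hlt
      push Not at hlt
      refine hfree (max s (d k)) t (le_max_left _ _) (max_lt hst hlt) le_rfl ?_
      rintro w h3 h4 ⟨j, h5 | h5⟩
      · have e2 := (max_lt_iff.mp h3)
        linarith [hy j, hb j, hb k, e2.1]
      · have e2 := (max_lt_iff.mp h3)
        rcases lt_trichotomy j k with hj | hj | hj
        · linarith [hd j, hcb j k hj, e2.1]
        · subst hj
          linarith [e2.2]
        · have := hcb k j hj
          linarith [ha j]

theorem col : S_BC → S_AV → S_POS → S_COL := by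
  intro hBC hAV hPOS F Z η ρ hF hZ hcut
  obtain ⟨hB1, hB2, hB3⟩ := hBC
  obtain ⟨hP1, hP2, -⟩ := hPOS F Z η ρ hF hcut
  obtain ⟨W, hW⟩ : ∃ W, W = WW (xl F ρ) (xr F η) (al F η) (ar F ρ) := ⟨_, rfl⟩
  have hgood : ∀ m, m ∉ W → E m ∉ Z → m ∈ goodB F Z η ρ := by
    intro m h1 h2
    refine ⟨h2, fun k => ⟨fun h3 => h1 ?_, fun h3 => h1 ?_⟩⟩
    · rw [hW]; exact ⟨k, Or.inl h3⟩
    · rw [hW]; exact ⟨k, Or.inr h3⟩
  refine ⟨psi W, psi_mono W, ?_, ?_, ?_⟩
  · refine psi_gap W le_rfl (u := 1 / 8) (v := 3 / 8) le_rfl (by norm_num) (by norm_num) ?_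
    rw [hW]
    rintro w h1 h2 ⟨j, h3 | h3⟩
    · linarith [(hP1 j).1, (hB1 j).2.2.2.2.1]
    · linarith [(hP2 j).1, (hB1 j).1]
  · intro a b hpa hbq hab
    have hlt : a < b := by
      by_contra hge
      push Not at hge
      exact absurd (psi_mono W hge) (not_le.mpr hab)
    have hcont : ContinuousOn (psi W) (Icc a b) := (psi_cont W).continuousOn
    obtain ⟨s, hs, hs1⟩ := intermediate_value_Icc hlt.le hcont
      (⟨by linarith, by linarith⟩ : psi W a + (psi W b - psi W a) / 3 ∈ Icc (psi W a) (psi W b))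
    obtain ⟨t, ht, ht1⟩ := intermediate_value_Icc hlt.le hcont
      (⟨by linarith, by linarith⟩ : psi W b - (psi W b - psi W a) / 3 ∈ Icc (psi W a) (psi W b))
    obtain ⟨m, h1, h2, h3, h4⟩ := exists_good W {t : ℝ | E t ∈ Z} (hAV Z hZ).1
      (s := s) (t := t) (by rw [hs1, ht1]; linarith)
    refine ⟨m, hgood m h3 h4, lt_of_le_of_lt hs.1 h1, lt_of_lt_of_le h2 ht.2, ?_, ?_⟩
    · rw [← hs1]; exact psi_mono W h1.le
    · rw [← ht1]; exact psi_mono W h2.le
  · intro s t hs hst ht hpsi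
    rw [hW] at hpsi
    exact last (xl F ρ) (xr F η) (al F η) (ar F ρ) bb cc (fun j => (hP1 j).1)
      (fun j => (hP1 j).2.2) (fun j => (hP2 j).1) (fun j => (hP2 j).2.2) (fun j => (hB1 j).1)
      (fun j => (hB1 j).2.1) (fun j => (hB1 j).2.2.2.2.1) hB2 hB3 s t hs hst ht hpsi

end Pool.Agent.KS6_91.PL.W214.PC
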