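import Pool.Agent.KS6_91.PL.W983_PL_Stm

set_option autoImplicit false
open Set Topology

namespace Pool.Agent.KS6_91.PL.W237.PC
open Pool.Agent.KS6_91.PL.W983.PL

theorem arc_sub {a b c d : ℝ} (h : a ≤ c) (h' : d ≤ b) : arc c d ⊆ arc a b :=
  Set.image_mono (Set.Icc_subset_Icc h h')

theorem arc_shift (a b : ℝ) : arc a b ⊆ arc (a + 1) (b + 1) := by
  rintro z ⟨t, ⟨h1, h2⟩, rfl⟩
  exact ⟨t + 1, ⟨by linarith, by linarith⟩, E_add_one t⟩

theorem arc_shift' (a b : ℝ) : arc a b ⊆ arc (a - 1) (b - 1) := by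
  rintro z ⟨t, ⟨h1, h2⟩, rfl⟩
  refine ⟨t - 1, ⟨by linarith, by linarith⟩, ?_⟩
  rw [← E_add_one (t - 1)]
  congr 1
  ring

theorem D1B (hBC : S_BC) (hPOS : S_POS) (hAR : S_AR) : S_D1B := by
  intro F g Z η ρ hg hc s t hst p hp
  obtain ⟨P1, P2, P3, P4, P5, P6, _⟩ := hPOS F Z η ρ hg.lift hc
  obtain ⟨B1, B2, _⟩ := hBC
  have A := hAR F g Z η ρ hg hc
  have hη : StrictMono η := strictMono_nat_of_lt_succ P3
  have hρ : StrictAnti ρ := strictAnti_nat_of_succ_lt P4
  obtain ⟨k, sb⟩ := s
  obtain ⟨j, tb⟩ := t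
  have b1 := B1 k
  have b2 := B1 j
  have x1 := P1 k
  have x2 := P1 j
  have a1 := P2 k
  have a2 := P2 j
  have e1 := P5 k
  have e2 := P5 j
  have e3 := P5 (k+1)
  have e4 := P5 (j+1)
  have r1 := P6 k
  have r2 := P6 j
  have r3 := P6 (k+1)
  have r4 := P6 (j+1)
  cases sb with
  | true =>
    have m1 : ∀ z, z ∈ arc (ρ k - 1) (η k) → g k z ∈ arc (xl F ρ k) (xr F η k) :=
      fun z => (A k z).1.1
    have m2 : ∀ z, z ∈ arc (η (k + 1)) (ρ (k + 1)) → g k z ∈ arc (al F η k) (ar F ρ k) :=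
      fun z => (A k z).2.1.1
    cases tb with
    | true =>
      simp only [PP, if_true, Set.mem_setOf_eq, lt, cond_true] at hp ⊢
      right
      rcases hp with ⟨h1, h2⟩ | ⟨h1, h2⟩
      · exact ⟨m2 _ (arc_sub (by linarith) (by linarith) h1),
          m2 _ (arc_sub (by linarith) (by linarith) h2)⟩
      · exact ⟨m2 _ (arc_sub (by linarith) (by linarith) h1),
          m2 _ (arc_sub (by linarith) (by linarith) h2)⟩
    | false =>
      have hjk : j ≠ k := by
        rintro rfl
        exact hst rfl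
      simp only [PP, if_true, Set.mem_setOf_eq, lt, cond_true, Bool.false_eq_true, if_false] at hp ⊢
      rcases lt_or_gt_of_ne hjk with h | h
      · left
        have h3 : η (j+1) ≤ η k := hη.monotone h
        have h4 : ρ k ≤ ρ (j+1) := hρ.antitone h
        have key : ∀ z, z ∈ arc (η j) (η (j + 1)) ∪ arc (ρ (j + 1)) (ρ j) →
            z ∈ arc (ρ k - 1) (η k) := by
          rintro z (hz | hz)
          · exact arc_sub (by linarith) (by linarith) hz
          · exact arc_sub (by linarith) (by linarith) (arc_shift' _ _ hz)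
        exact ⟨m1 _ (key _ hp.1), m1 _ (key _ hp.2)⟩
      · right
        have h3 : η (k+1) ≤ η j := hη.monotone h
        have h4 : ρ j ≤ ρ (k+1) := hρ.antitone h
        have key : ∀ z, z ∈ arc (η j) (η (j + 1)) ∪ arc (ρ (j + 1)) (ρ j) →
            z ∈ arc (η (k + 1)) (ρ (k + 1)) := by
          rintro z (hz | hz)
          · exact arc_sub (by linarith) (by linarith) hz
          · exact arc_sub (by linarith) (by linarith) hz
        exact ⟨m2 _ (key _ hp.1), m2 _ (key _ hp.2)⟩
  | false =>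
    have hinv : ∀ z, g k ((g k)⁻¹ z) = z := fun z => (g k).apply_symm_apply z
    have m3 : ∀ z, z ∈ arc (xr F η k) (al F η k) → (g k)⁻¹ z ∈ arc (η k) (η (k + 1)) := by
      intro z hz
      rw [(A k _).2.2.1, hinv]
      exact hz
    have m4 : ∀ z, z ∈ arc (ar F ρ k) (xl F ρ k + 1) → (g k)⁻¹ z ∈ arc (ρ (k + 1)) (ρ k) := by
      intro z hz
      rw [(A k _).2.2.2, hinv]
      exact hz
    cases tb with
    | false =>
      simp only [PP, Set.mem_setOf_eq, lt, cond_false, Bool.false_eq_true, if_false] at hp ⊢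
      have key : ∀ z, z ∈ arc (η j) (η (j + 1)) ∪ arc (ρ (j + 1)) (ρ j) →
          z ∈ arc (ar F ρ k) (xl F ρ k + 1) := by
        rintro z (hz | hz)
        · exact arc_sub (by linarith) (by linarith) (arc_shift _ _ hz)
        · exact arc_sub (by linarith) (by linarith) hz
      exact ⟨Or.inr (m4 _ (key _ hp.1)), Or.inr (m4 _ (key _ hp.2))⟩
    | true =>
      have hjk : j ≠ k := by
        rintro rfl
        exact hst rfl
      simp only [PP, Set.mem_setOf_eq, lt, cond_false, Bool.false_eq_true, if_false, if_true] at hp ⊢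
      rcases lt_or_gt_of_ne hjk with h | h
      · have h5 := B2 j k h
        have key : ∀ z, (z ∈ arc (xl F ρ j) (xr F η j) ∨ z ∈ arc (al F η j) (ar F ρ j)) →
            z ∈ arc (xr F η k) (al F η k) := by
          rintro z (hz | hz)
          · exact arc_sub (by linarith) (by linarith) hz
          · exact arc_sub (by linarith) (by linarith) hz
        rcases hp with ⟨h1, h2⟩ | ⟨h1, h2⟩
        · exact ⟨Or.inl (m3 _ (key _ (Or.inl h1))), Or.inl (m3 _ (key _ (Or.inl h2)))⟩
        · exact ⟨Or.inl (m3 _ (key _ (Or.inr h1))), Or.inl (m3 _ (key _ (Or.inr h2)))⟩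
      · have h5 := B2 k j h
        have key : ∀ z, (z ∈ arc (xl F ρ j) (xr F η j) ∨ z ∈ arc (al F η j) (ar F ρ j)) →
            z ∈ arc (ar F ρ k) (xl F ρ k + 1) := by
          rintro z (hz | hz)
          · exact arc_sub (by linarith) (by linarith) (arc_shift _ _ hz)
          · exact arc_sub (by linarith) (by linarith) hz
        rcases hp with ⟨h1, h2⟩ | ⟨h1, h2⟩
        · exact ⟨Or.inr (m4 _ (key _ (Or.inl h1))), Or.inr (m4 _ (key _ (Or.inl h2)))⟩
        · exact ⟨Or.inr (m4 _ (key _ (Or.inr h1))), Or.inr (m4 _ (key _ (Or.inr h2)))⟩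

end Pool.Agent.KS6_91.PL.W237.PC
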