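import Pool.Agent.KS6_91.PL.W983_PL_Stm

set_option autoImplicit false

/-!
# Avoiding countable sets, and the choice of the cut points
-/

open Set Topology

namespace Pool.Agent.KS6_91.PL.W368.PCAvcut

open Pool.Agent.KS6_91.PL.W983.PL

theorem av : S_AV := by
  intro Z hZ
  have hc : {t : ℝ | E t ∈ Z}.Countable := by
    have h1 : ((fun q : Circle × ℤ => co q.1 + (q.2 : ℝ)) '' (Z ×ˢ (univ : Set ℤ))).Countable :=
      (hZ.prod (Set.countable_univ)).image _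
    refine h1.mono ?_
    intro t ht
    have h2 : E t = E (co (E t)) := (E_co (E t)).symm
    obtain ⟨n, hn⟩ := E_eq.1 h2
    exact ⟨(E t, n), ⟨ht, mem_univ _⟩, hn.symm⟩
  refine ⟨hc, fun a b hab => ?_⟩
  obtain ⟨t, ht, h1, h2⟩ := (hc.dense_compl ℝ).exists_between hab
  exact ⟨t, h1, h2, ht⟩

theorem cut (hBC : S_BC) : S_CUT := by
  intro Z hZ
  obtain ⟨-, hav⟩ := av Z hZ
  obtain ⟨b1, b2, -⟩ := hBC
  have e0 : ∃ t, 0 < t ∧ t < bb 0 ∧ E t ∉ Z := hav 0 (bb 0) (by have := (b1 0).1; linarith)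
  have eS : ∀ k, ∃ t, cc k < t ∧ t < bb (k + 1) ∧ E t ∉ Z := fun k => hav _ _ (b1 k).2.2.1
  have r0 : ∃ t, 1 - bb 0 < t ∧ t < 1 ∧ E t ∉ Z := hav _ _ (by have := (b1 0).1; linarith)
  have rS : ∀ k, ∃ t, 1 - bb (k + 1) < t ∧ t < 1 - cc k ∧ E t ∉ Z := fun k =>
    hav _ _ (by have := (b1 k).2.2.1; linarith)
  obtain ⟨x0, x1, x2, x3⟩ := e0
  choose f f1 f2 f3 using eS
  obtain ⟨y0, y1, y2, y3⟩ := r0
  choose h h1 h2 h3 using rS
  refine ⟨fun k => Nat.rec x0 (fun k _ => f k) k, fun k => Nat.rec y0 (fun k _ => h k) k,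
    ⟨⟨x1, x2⟩, fun k => ⟨f1 k, f2 k⟩, ⟨y1, y2⟩, fun k => ⟨h1 k, h2 k⟩, ?_, ?_⟩⟩
  · rintro (_ | k)
    · exact x3
    · exact f3 k
  · rintro (_ | k)
    · exact y3
    · exact h3 k

end Pool.Agent.KS6_91.PL.W368.PCAvcut
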