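import Pool.Agent.KS6_91.PL.W983_PL_Stm

/-!
# Project PC, part D3: the descent
-/
set_option autoImplicit false
open Set Topology

namespace Pool.Agent.KS6_91.PL.W403.PCD3

open Pool.Agent.KS6_91.PL.W983.PL

theorem ccw_total {a b c : Circle} (h1 : a ≠ b) (h2 : a ≠ c) (h3 : b ≠ c) :
    Ccw a b c ∨ Ccw b a c := by
  obtain ⟨p, -, -, rfl⟩ := E_surj' 0 a
  obtain ⟨q, hq0, hq1, rfl⟩ := E_surj' p b
  obtain ⟨r, hr0, hr1, rfl⟩ := E_surj' p c
  have hpq : p < q := lt_of_le_of_ne hq0 (fun h => h1 (by rw [h]))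
  have hpr : p < r := lt_of_le_of_ne hr0 (fun h => h2 (by rw [h]))
  rcases lt_trichotomy q r with h | h | h
  · exact Or.inl (ccw_E hpq h hr1)
  · exact absurd (by rw [h]) h3
  · exact Or.inr (ccw_rot (ccw_rot (ccw_E hpr h hq1)))

theorem ccw_ne {a b c : Circle} (h : Ccw a b c) : a ≠ b ∧ a ≠ c ∧ b ≠ c := by
  refine ⟨?_, ?_, ?_⟩
  · rintro rfl
    unfold Ccw at h
    rw [area_self'] at h
    exact lt_irrefl _ h
  · rintro rfl
    have h' := ccw_rot h
    unfold Ccw at h'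
    rw [area_self] at h'
    exact lt_irrefl _ h'
  · rintro rfl
    unfold Ccw at h
    rw [area_self] at h
    exact lt_irrefl _ h

theorem apply_inv (f : HC) (z : Circle) : f (f⁻¹ z) = z := f.apply_symm_apply z
theorem inv_apply (f : HC) (z : Circle) : f⁻¹ (f z) = z := f.symm_apply_apply z

theorem op_inv {f : HC} (hf : OrientationPreserving f) : OrientationPreserving f⁻¹ := by
  intro a b c h
  by_contra hn
  obtain ⟨h1, h2, h3⟩ := ccw_ne h
  have inj : Function.Injective (f⁻¹ : HC) := (f⁻¹ : HC).injective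
  rcases ccw_total (fun e => h1 (inj e)) (fun e => h2 (inj e)) (fun e => h3 (inj e)) with h4 | h4
  · exact hn h4
  · have h5 := hf _ _ _ h4
    rw [apply_inv, apply_inv, apply_inv] at h5
    exact not_ccw_swap h h5

theorem op_lt {F : ℕ → ℝ ≃o ℝ} {g : ℕ → HC} (hg : IsGen F g) (s : ℕ × Bool) :
    OrientationPreserving (lt g s) := by
  obtain ⟨k, b⟩ := s
  cases b with
  | true => exact hg.op k
  | false => exact op_inv (hg.op k)

theorem lt_mem (g : ℕ → HC) (s : ℕ × Bool) : lt g s ∈ (FreeGroup.lift g).range := by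
  obtain ⟨k, b⟩ := s
  have hk : g k ∈ (FreeGroup.lift g).range := ⟨FreeGroup.of k, by simp⟩
  cases b with
  | true => exact hk
  | false => exact inv_mem hk

/-- The conclusion. -/
def Good (g : ℕ → HC) (Bs : Set (ℝ × ℝ)) (V : Set Circle) : Prop :=
  V.Subsingleton ∨ ∃ z₁ ∈ EBs g Bs, ∃ z₂ ∈ EBs g Bs, ∃ z₃ ∈ EBs g Bs, V ⊆ {z₁, z₂, z₃}

theorem EBs_inv {g : ℕ → HC} {Bs : Set (ℝ × ℝ)} {h : HC} (hh : h ∈ (FreeGroup.lift g).range)
    {z : Circle} (hz : z ∈ EBs g Bs) : h z ∈ EBs g Bs := by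
  obtain ⟨h', hh', I, hI, hz⟩ := hz
  refine ⟨h * h', mul_mem hh hh', I, hI, ?_⟩
  rcases hz with rfl | rfl
  · exact Or.inl rfl
  · exact Or.inr rfl

theorem PB_inv {g : ℕ → HC} {Bs : Set (ℝ × ℝ)} {h : HC} (hh : h ∈ (FreeGroup.lift g).range)
    {p : Circle × Circle} (hp : p ∈ PB g Bs) : (h p.1, h p.2) ∈ PB g Bs := by
  obtain ⟨h', hh', I, hI, hz⟩ := hp
  refine ⟨h * h', mul_mem hh hh', I, hI, ?_⟩
  rcases hz with rfl | rfl
  · exact Or.inl rfl
  · exact Or.inr rfl

theorem EBs_base {g : ℕ → HC} {Bs : Set (ℝ × ℝ)} {I : ℝ × ℝ} (hI : I ∈ Bs) :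
    E I.1 ∈ EBs g Bs ∧ E I.2 ∈ EBs g Bs :=
  ⟨⟨1, one_mem _, I, hI, Or.inl rfl⟩, ⟨1, one_mem _, I, hI, Or.inr rfl⟩⟩

theorem uns_inv {g : ℕ → HC} {Bs : Set (ℝ × ℝ)} {h : HC} (hh : h ∈ (FreeGroup.lift g).range)
    (ho : OrientationPreserving h) {V : Set Circle} (hV : Uns (PB g Bs) V) :
    Uns (PB g Bs) (h ⁻¹' V) := by
  intro p hp
  rcases hV _ (PB_inv hh hp) with h1 | h1
  · left
    intro z hz hc
    exact h1 (h z) hz (ho _ _ _ hc)
  · right
    intro z hz hc
    exact h1 (h z) hz (ho _ _ _ hc)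

theorem good_inv {g : ℕ → HC} {Bs : Set (ℝ × ℝ)} {h : HC} (hh : h ∈ (FreeGroup.lift g).range)
    {V : Set Circle} (hV : Good g Bs (h ⁻¹' V)) : Good g Bs V := by
  rcases hV with hV | ⟨z₁, h₁, z₂, h₂, z₃, h₃, hV⟩
  · left
    intro a ha b hb
    have ha' : h⁻¹ a ∈ h ⁻¹' V := by
      show h (h⁻¹ a) ∈ V
      rw [apply_inv]; exact ha
    have hb' : h⁻¹ b ∈ h ⁻¹' V := by
      show h (h⁻¹ b) ∈ V
      rw [apply_inv]; exact hb
    have := hV ha' hb'
    rw [← apply_inv h a, ← apply_inv h b, this]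
  · right
    refine ⟨h z₁, EBs_inv hh h₁, h z₂, EBs_inv hh h₂, h z₃, EBs_inv hh h₃, ?_⟩
    intro a ha
    have ha' : h⁻¹ a ∈ h ⁻¹' V := by
      show h (h⁻¹ a) ∈ V
      rw [apply_inv]; exact ha
    have h4 := hV ha'
    simp only [mem_insert_iff, mem_singleton_iff] at h4 ⊢
    rcases h4 with h4 | h4 | h4
    · left; rw [← h4, apply_inv]
    · right; left; rw [← h4, apply_inv]
    · right; right; rw [← h4, apply_inv]

/-- intersections of arcs, first kind -/
theorem inter1 {η ρ : ℕ → ℝ} (k : ℕ) (h1 : η k < η (k + 1)) (h2 : ρ (k + 1) < ρ k)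
    (h3 : 0 < η k) (h4 : η (k + 1) < 1 / 8) (h5 : 7 / 8 < ρ (k + 1)) (h6 : ρ k < 1)
    {z : Circle} (hz : z ∈ arc (ρ k - 1) (η k))
    (hz' : z ∈ arc (η k) (η (k + 1)) ∪ arc (ρ (k + 1)) (ρ k)) : z = E (η k) ∨ z = E (ρ k) := by
  obtain ⟨t, ⟨ht0, ht1⟩, rfl⟩ := hz
  rcases hz' with ⟨s, ⟨hs0, hs1⟩, hs⟩ | ⟨s, ⟨hs0, hs1⟩, hs⟩
  · left
    have : s = t := E_injOn (a := ρ k - 1) (by linarith) (by linarith) (by linarith)
      (by linarith) hs
    have : t = η k := by linarith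
    rw [this]
  · right
    have hs' : E (s - 1) = E t := by
      rw [← hs, ← E_add_one (s - 1), sub_add_cancel]
    have : s - 1 = t := E_injOn (a := ρ (k + 1) - 1) (by linarith) (by linarith) (by linarith)
      (by linarith) hs'
    have : t = ρ k - 1 := by linarith
    rw [this, ← E_add_one (ρ k - 1), sub_add_cancel]

/-- intersections of arcs, second kind -/
theorem inter2 {η ρ : ℕ → ℝ} (k : ℕ) (h1 : η k < η (k + 1)) (h2 : ρ (k + 1) < ρ k)
    (h3 : 0 < η k) (h4 : η (k + 1) < 1 / 8) (h5 : 7 / 8 < ρ (k + 1)) (h6 : ρ k < 1)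
    {z : Circle} (hz : z ∈ arc (η (k + 1)) (ρ (k + 1)))
    (hz' : z ∈ arc (η k) (η (k + 1)) ∪ arc (ρ (k + 1)) (ρ k)) :
    z = E (η (k + 1)) ∨ z = E (ρ (k + 1)) := by
  obtain ⟨t, ⟨ht0, ht1⟩, rfl⟩ := hz
  rcases hz' with ⟨s, ⟨hs0, hs1⟩, hs⟩ | ⟨s, ⟨hs0, hs1⟩, hs⟩
  · left
    have : s = t := E_injOn (a := 0) (by linarith) (by linarith) (by linarith)
      (by linarith) hs
    have : t = η (k + 1) := by linarith
    rw [this]
  · right
    have : s = t := E_injOn (a := 0) (by linarith) (by linarith) (by linarith)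
      (by linarith) hs
    have : t = ρ (k + 1) := by linarith
    rw [this]

theorem two_good {g : ℕ → HC} {Bs : Set (ℝ × ℝ)} {V : Set Circle} {I : ℝ × ℝ} (hI : I ∈ Bs)
    (hV : ∀ z ∈ V, z = E I.1 ∨ z = E I.2) : Good g Bs V := by
  right
  refine ⟨E I.1, (EBs_base hI).1, E I.2, (EBs_base hI).2, E I.2, (EBs_base hI).2, ?_⟩
  intro z hz
  simp only [mem_insert_iff, mem_singleton_iff]
  rcases hV z hz with h | h
  · exact Or.inl h
  · exact Or.inr (Or.inl h)

theorem main : S_BC → S_POS → S_AR → S_WC → S_D2 → S_D3 := by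
  intro hBC hPOS hAR hWC hD2 F g Z η ρ ψ 𝓐 𝓑 hD V hV
  obtain ⟨px, pa, pη, pρ, pη', pρ', -⟩ := hPOS F Z η ρ hD.gen.lift hD.cuts
  obtain ⟨wc, -⟩ := hWC F g hD.gen
  have hbb := hBC.1
  have hpair : ∀ k, (η k, ρ k) ∈ Base η ρ 𝓐 𝓑 := fun k => Or.inl (Or.inl ⟨k, rfl⟩)
  -- positions of base leaves
  have hpos : ∀ I ∈ Base η ρ 𝓐 𝓑, I.1 < I.2 ∧ I.2 < I.1 + 1 := by
    rintro I ((⟨k, rfl⟩ | hI) | hI)
    · have := pη' k
      have := pρ' k
      constructor
      · show η k < ρ k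
        linarith
      · show ρ k < η k + 1
        linarith
    · have h1 := hD.fa.rng I hI
      have := pη' 0
      have := pρ' 0
      constructor
      · exact h1.2.1
      · linarith [h1.1, h1.2.2.1]
    · have h1 := hD.fb.rng I hI
      constructor
      · exact h1.2.1
      · linarith [h1.1, h1.2.2.1]
  -- unseparated by the base leaves
  have hB : ∀ V : Set Circle, Uns (PB g (Base η ρ 𝓐 𝓑)) V → UnsB (Base η ρ 𝓐 𝓑) V := by
    intro V hV I hI
    obtain ⟨h1, h2⟩ := hpos I hI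
    have hp : ((E I.1, E I.2) : Circle × Circle) ∈ PB g (Base η ρ 𝓐 𝓑) :=
      ⟨1, one_mem _, I, hI, Or.inl rfl⟩
    rcases hV _ hp with h | h
    · left
      intro z hz
      exact (not_ccw_iff h1 h2 z).1 (h z hz)
    · right
      intro z hz
      exact (not_ccw_iff' h1 h2 z).1 (h z hz)
  -- a bad set lies in one of the domains
  have hDom : ∀ V : Set Circle, Uns (PB g (Base η ρ 𝓐 𝓑)) V → ¬ Good g (Base η ρ 𝓐 𝓑) V →
      ∃ s, InD F η ρ V s := by
    intro V hV hbad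
    rcases hD2 F g Z η ρ ψ 𝓐 𝓑 hD V (hB V hV) with h | ⟨z₁, z₂, z₃, h1, h2⟩ | h
    · exact absurd (Or.inl h) hbad
    · exfalso
      apply hbad
      right
      have h3 : ∀ z ∈ ({z₁, z₂, z₃} : Set Circle), z ∈ EBs g (Base η ρ 𝓐 𝓑) := by
        intro z hz
        obtain ⟨I, hI, h4⟩ := h2 z hz
        rcases h4 with rfl | rfl
        · exact (EBs_base hI).1
        · exact (EBs_base hI).2
      exact ⟨z₁, h3 z₁ (by simp), z₂, h3 z₂ (by simp), z₃, h3 z₃ (by simp), h1⟩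
    · exact h
  -- the domains are in the wider sets
  have hWd : ∀ (V : Set Circle) (s : ℕ × Bool), InD F η ρ V s → V ⊆ Wd s := by
    rintro V ⟨k, b⟩ h z hz
    have b1 := hbb k
    have b2 := hbb (k + 1)
    cases b with
    | true =>
      have h' : V ⊆ arc (xl F ρ k) (xr F η k) ∨ V ⊆ arc (al F η k) (ar F ρ k) := h
      show z ∈ DX k ∪ DA k
      rcases h' with h' | h'
      · left
        obtain ⟨t, ⟨ht0, ht1⟩, rfl⟩ := h' hz
        have := px k
        have hc : co (E t) = t := co_E_of (by linarith) (by linarith)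
        show 1 / 2 - cc k ≤ co (E t) ∧ co (E t) ≤ 1 / 2 - bb k
        rw [hc]
        exact ⟨by linarith, by linarith⟩
      · right
        obtain ⟨t, ⟨ht0, ht1⟩, rfl⟩ := h' hz
        have := pa k
        have hc : co (E t) = t := co_E_of (by linarith) (by linarith)
        show 1 / 2 + bb k ≤ co (E t) ∧ co (E t) ≤ 1 / 2 + cc k
        rw [hc]
        exact ⟨by linarith, by linarith⟩
    | false =>
      have h' : V ⊆ arc (η k) (η (k + 1)) ∪ arc (ρ (k + 1)) (ρ k) := h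
      show (pb k ≤ co z ∧ co z ≤ bb (k + 1)) ∨ (1 - bb (k + 1) ≤ co z ∧ co z ≤ 1 - pb k)
      have e1 := pη' k
      have e2 := pη' (k + 1)
      have r1 := pρ' k
      have r2 := pρ' (k + 1)
      have e3 := (hD.cuts.eS k).2
      have r3 := (hD.cuts.rS k).1
      have e4 : pb k ≤ η k := by
        cases k with
        | zero => exact e1.1.le
        | succ k => exact (hD.cuts.eS k).1.le
      have r4 : ρ k ≤ 1 - pb k := by
        cases k with
        | zero =>
          show ρ 0 ≤ 1 - 0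
          linarith
        | succ k => exact (hD.cuts.rS k).2.le
      rcases h' hz with ⟨t, ⟨ht0, ht1⟩, rfl⟩ | ⟨t, ⟨ht0, ht1⟩, rfl⟩
      · left
        have hc : co (E t) = t := co_E_of (by linarith) (by linarith)
        rw [hc]
        exact ⟨by linarith, by linarith⟩
      · right
        have hc : co (E t) = t := co_E_of (by linarith) (by linarith)
        rw [hc]
        exact ⟨by linarith, by linarith⟩
  -- the descent
  have key : ∀ (n : ℕ) (V : Set Circle), Uns (PB g (Base η ρ 𝓐 𝓑)) V →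
      ¬ Good g (Base η ρ 𝓐 𝓑) V → ∀ z ∈ V, ∀ w ∈ V, |co z - co w| ≤ (1 / 2) ^ n := by
    intro n
    induction n with
    | zero =>
      intro V _ _ z _ w _
      rw [pow_zero, abs_le]
      have := co_nonneg z
      have := co_nonneg w
      have := co_lt_one z
      have := co_lt_one w
      constructor <;> linarith
    | succ n ih =>
      intro V hV hbad z hz w hw
      obtain ⟨s, hs⟩ := hDom V hV hbad
      have hV1 := uns_inv (lt_mem g s) (op_lt hD.gen s) hV
      have hbad1 : ¬ Good g (Base η ρ 𝓐 𝓑) ((lt g s) ⁻¹' V) := fun h =>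
        hbad (good_inv (lt_mem g s) h)
      obtain ⟨s1, hs1⟩ := hDom _ hV1 hbad1
      have hne : s1 ≠ inv s := by
        rintro rfl
        obtain ⟨k, b⟩ := s
        have e1 := pη' k
        have e2 := pη' (k + 1)
        have r1 := pρ' k
        have r2 := pρ' (k + 1)
        cases b with
        | true =>
          have h1 : V ⊆ arc (xl F ρ k) (xr F η k) ∨ V ⊆ arc (al F η k) (ar F ρ k) := hs
          have h2 : (g k) ⁻¹' V ⊆ arc (η k) (η (k + 1)) ∪ arc (ρ (k + 1)) (ρ k) := hs1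
          have hbad2 : ¬ Good g (Base η ρ 𝓐 𝓑) ((g k) ⁻¹' V) := hbad1
          rcases h1 with h1 | h1
          · apply hbad2
            apply two_good (hpair k)
            intro x hx
            have h3 : x ∈ arc (ρ k - 1) (η k) :=
              (hAR F g Z η ρ hD.gen hD.cuts k x).1.2 (h1 hx)
            exact inter1 k (pη k) (pρ k) e1.1 e2.2 r2.1 r1.2 h3 (h2 hx)
          · apply hbad2
            apply two_good (hpair (k + 1))
            intro x hx
            have h3 : x ∈ arc (η (k + 1)) (ρ (k + 1)) :=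
              (hAR F g Z η ρ hD.gen hD.cuts k x).2.1.2 (h1 hx)
            exact inter2 k (pη k) (pρ k) e1.1 e2.2 r2.1 r1.2 h3 (h2 hx)
        | false =>
          have h1 : V ⊆ arc (η k) (η (k + 1)) ∪ arc (ρ (k + 1)) (ρ k) := hs
          have h2 : ⇑((g k)⁻¹ : HC) ⁻¹' V ⊆ arc (xl F ρ k) (xr F η k) ∨
            ⇑((g k)⁻¹ : HC) ⁻¹' V ⊆ arc (al F η k) (ar F ρ k) := hs1
          have h4 : ∀ x ∈ V, g k x ∈ ⇑((g k)⁻¹ : HC) ⁻¹' V := by
            intro x hx
            show ((g k)⁻¹ : HC) (g k x) ∈ V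
            rw [inv_apply]
            exact hx
          rcases h2 with h2 | h2
          · apply hbad
            apply two_good (hpair k)
            intro x hx
            have h3 : x ∈ arc (ρ k - 1) (η k) :=
              (hAR F g Z η ρ hD.gen hD.cuts k x).1.2 (h2 (h4 x hx))
            exact inter1 k (pη k) (pρ k) e1.1 e2.2 r2.1 r1.2 h3 (h1 hx)
          · apply hbad
            apply two_good (hpair (k + 1))
            intro x hx
            have h3 : x ∈ arc (η (k + 1)) (ρ (k + 1)) :=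
              (hAR F g Z η ρ hD.gen hD.cuts k x).2.1.2 (h2 (h4 x hx))
            exact inter2 k (pη k) (pρ k) e1.1 e2.2 r2.1 r1.2 h3 (h1 hx)
      have mz : (lt g s)⁻¹ z ∈ (lt g s) ⁻¹' V := by
        show (lt g s) ((lt g s)⁻¹ z) ∈ V
        rw [apply_inv]; exact hz
      have mw : (lt g s)⁻¹ w ∈ (lt g s) ⁻¹' V := by
        show (lt g s) ((lt g s)⁻¹ w) ∈ V
        rw [apply_inv]; exact hw
      have h5 := wc s s1 hne _ (hWd _ _ hs1 mz) _ (hWd _ _ hs1 mw)
      rw [apply_inv, apply_inv] at h5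
      have h6 := ih _ hV1 hbad1 _ mz _ mw
      calc |co z - co w| ≤ 1 / 2 * |co ((lt g s)⁻¹ z) - co ((lt g s)⁻¹ w)| := h5
        _ ≤ 1 / 2 * (1 / 2) ^ n := by linarith
        _ = (1 / 2) ^ (n + 1) := by rw [pow_succ]; ring
  by_contra hbad
  apply hbad
  left
  intro z hz w hw
  apply co_inj
  have h7 : ∀ n : ℕ, |co z - co w| ≤ (1 / 2) ^ n := fun n => key n V hV hbad z hz w hw
  have h8 : |co z - co w| ≤ 0 := by
    refine ge_of_tendsto' (tendsto_pow_atTop_nhds_zero_of_lt_one (by norm_num) (by norm_num) :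
      Filter.Tendsto (fun n : ℕ => (1 / 2 : ℝ) ^ n) Filter.atTop (nhds 0)) h7
  have h9 : co z - co w = 0 := abs_eq_zero.1 (le_antisymm h8 (abs_nonneg _))
  linarith

end Pool.Agent.KS6_91.PL.W403.PCD3
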