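import Pool.Agent.KS6_91.PL.W983_PL_Stm

/-!
Project PC, piece S_SIG: the reflection.
-/

set_option autoImplicit false
open Set Topology Pool.Agent.KS6_91.PL.W983.PL

namespace Pool.Agent.KS6_91.PL.W639.PCSig

/-- the reflection -/
noncomputable def sg : HC := (Homeomorph.inv Circle).trans (Homeomorph.mulLeft (E (1 / 2)))

theorem sg_apply (z : Circle) : sg z = E (1 / 2) * z⁻¹ := rfl

theorem coe_half : ((E (1 / 2) : Circle) : ℂ) = -1 := by
  unfold E
  have h : 2 * Real.pi * (1 / 2) = Real.pi := by ring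
  rw [h, Circle.coe_exp, Complex.exp_pi_mul_I]

theorem sg_coe (z : Circle) : (sg z : ℂ) = - (starRingEnd ℂ) (z : ℂ) := by
  rw [sg_apply, Circle.coe_mul, coe_half, Circle.coe_inv_eq_conj]
  ring

theorem main : S_SIG := by
  refine ⟨sg, sg_coe, ?_, ?_, ?_⟩
  · intro t
    rw [sg_apply]
    unfold E
    have h : 2 * Real.pi * (1 / 2 - t) = 2 * Real.pi * (1 / 2) - 2 * Real.pi * t := by ring
    rw [h, Circle.exp_sub]
    rfl
  · ext1 z
    change sg (sg z) = z
    rw [sg_apply, sg_apply, mul_inv_rev, inv_inv, mul_comm z, mul_inv_cancel_left]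
  · intro a b c
    unfold Ccw
    have h : area (sg a) (sg b) (sg c) = area b a c := by
      unfold area
      simp only [sg_coe, Complex.neg_re, Complex.neg_im, Complex.conj_re, Complex.conj_im, neg_neg]
      ring
    rw [h]

end Pool.Agent.KS6_91.PL.W639.PCSig
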