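import Pool.Agent.KS6_91.PL.W983_PL_Stm

/-! PC-LK: linked pairs and arcs -/

set_option autoImplicit false

open Set

namespace Pool.Agent.KS6_91.PL.W701.PC

open Pool.Agent.KS6_91.PL.W983.PL

theorem sin_nonneg01 {x : ℝ} (h0 : 0 ≤ x) (h1 : x ≤ 1) : 0 ≤ Real.sin (Real.pi * x) := by
  have hpi := Real.pi_pos
  apply Real.sin_nonneg_of_nonneg_of_le_pi
  · positivity
  · nlinarith

theorem sgn {x s t : ℝ} (hs : 0 ≤ s) (ht : 0 ≤ t) (h : 0 < 4 * x * s * t) : 0 < x := by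
  by_contra hx
  push Not at hx
  have h1 : 4 * x * s ≤ 0 := mul_nonpos_of_nonpos_of_nonneg (by linarith) hs
  have h2 : 4 * x * s * t ≤ 0 := mul_nonpos_of_nonpos_of_nonneg h1 ht
  linarith

theorem core {p q ta tb tc td : ℝ} (ha : ta ∈ Icc p q) (hb : tb ∈ Icc p q)
    (hc : tc ∈ Icc q (p + 1)) (hd : td ∈ Icc q (p + 1)) : ¬ Linked (E ta) (E tb) (E tc) (E td) := by
  obtain ⟨a1, a2⟩ := ha
  obtain ⟨b1, b2⟩ := hb
  obtain ⟨c1, c2⟩ := hc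
  obtain ⟨d1, d2⟩ := hd
  have hneg : Real.sin (Real.pi * (ta - tb)) = - Real.sin (Real.pi * (tb - ta)) := by
    rw [← Real.sin_neg]
    congr 1
    ring
  have s1 := sin_nonneg01 (x := tc - tb) (by linarith) (by linarith)
  have s2 := sin_nonneg01 (x := tc - ta) (by linarith) (by linarith)
  have s3 := sin_nonneg01 (x := td - tb) (by linarith) (by linarith)
  have s4 := sin_nonneg01 (x := td - ta) (by linarith) (by linarith)
  unfold Linked Ccw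
  rw [area_E, area_E, area_E, area_E]
  rintro (⟨h1, h2⟩ | ⟨h1, h2⟩)
  · have k1 := sgn s1 s2 h1
    have k2 := sgn s4 s3 h2
    linarith
  · have k1 := sgn s2 s1 h1
    have k2 := sgn s3 s4 h2
    linarith

theorem lk : S_LK := by
  intro e f a b c d hef ha hb hc hd
  obtain ⟨p, -, -, rfl⟩ := E_surj e
  obtain ⟨q, hq0, hq1, rfl⟩ := E_surj' p f
  have hpq : p < q := lt_of_le_of_ne hq0 fun h => hef (by rw [h])
  rw [not_ccw_iff hpq hq1] at ha hb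
  rw [not_ccw_iff' hpq hq1] at hc hd
  obtain ⟨ta, hta, rfl⟩ := ha
  obtain ⟨tb, htb, rfl⟩ := hb
  obtain ⟨tc, htc, rfl⟩ := hc
  obtain ⟨td, htd, rfl⟩ := hd
  exact core hta htb htc htd

theorem arc' : S_ARC := by
  rintro p q hpq hq z₁ ⟨t₁, ht₁, rfl⟩ z₂ ⟨t₂, ht₂, rfl⟩ w₁ ⟨s₁, hs₁, rfl⟩ w₂ ⟨s₂, hs₂, rfl⟩
  refine ⟨core ht₁ ht₂ hs₁ hs₂, ?_⟩
  rw [← E_add_one t₁, ← E_add_one t₂]
  exact core hs₁ hs₂ ⟨by linarith [ht₁.1], by linarith [ht₁.2]⟩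
    ⟨by linarith [ht₂.1], by linarith [ht₂.2]⟩

end Pool.Agent.KS6_91.PL.W701.PC
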