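import Pool.Agent.KS6_91.PL.W983_PL_Stm

/-!
# Project PC, part AR: arcs under the generators
-/

set_option autoImplicit false

namespace Pool.Agent.KS6_91.PL.W789.PCAR

open Set Topology Pool.Agent.KS6_91.PL.W983.PL

lemma per_nat {F : ℕ → ℝ ≃o ℝ} (h : IsLift F) (k : ℕ) (t : ℝ) (n : ℕ) :
    F k (t + n) = F k t + n := by
  induction n with
  | zero => simp
  | succ n ih =>
    have e : t + ((n + 1 : ℕ) : ℝ) = (t + n) + 1 := by push_cast; ring
    rw [e, h.per, ih]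
    push_cast
    ring

lemma per_int {F : ℕ → ℝ ≃o ℝ} (h : IsLift F) (k : ℕ) (t : ℝ) (n : ℤ) :
    F k (t + n) = F k t + n := by
  obtain ⟨m, rfl | rfl⟩ := n.eq_nat_or_neg
  · exact_mod_cast per_nat h k t m
  · have h1 := per_nat h k (t + ((-(m : ℤ) : ℤ) : ℝ)) m
    have e : t + ((-(m : ℤ) : ℤ) : ℝ) + (m : ℝ) = t := by push_cast; ring
    rw [e] at h1
    rw [h1]
    push_cast
    ring

lemma arc_iff {F : ℕ → ℝ ≃o ℝ} {g : ℕ → HC} (h : IsGen F g) (k : ℕ) (a b : ℝ) (z : Circle) :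
    z ∈ arc a b ↔ g k z ∈ arc (F k a) (F k b) := by
  constructor
  · rintro ⟨t, ⟨h1, h2⟩, rfl⟩
    exact ⟨F k t, ⟨(F k).monotone h1, (F k).monotone h2⟩, (h.gE k t).symm⟩
  · rintro ⟨u, ⟨h1, h2⟩, hu⟩
    obtain ⟨t, ht⟩ : ∃ t, E t = z := ⟨co z, E_co z⟩
    rw [← ht, h.gE] at hu
    obtain ⟨n, hn⟩ := E_eq.1 hu
    have h3 : F k (t + n) = u := by rw [per_int h.lift, hn]
    refine ⟨t + n, ⟨?_, ?_⟩, ?_⟩
    · rw [← h3] at h1
      exact (F k).le_iff_le.1 h1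
    · rw [← h3] at h2
      exact (F k).le_iff_le.1 h2
    · rw [E_add_int, ht]

theorem main : S_AR := by
  intro F g Z η ρ h _ k z
  refine ⟨arc_iff h k _ _ z, arc_iff h k _ _ z, arc_iff h k _ _ z, ?_⟩
  have e : xl F ρ k + 1 = F k (ρ k) := by
    unfold xl
    rw [← h.lift.per k (ρ k - 1)]
    congr 1
    ring
  rw [e]
  exact arc_iff h k _ _ z

/-- the same statement in the form of the task -/
theorem main' (_ : S_BC) (_ : S_POS) : S_AR := main

end Pool.Agent.KS6_91.PL.W789.PCAR
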