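import Pool.Agent.KS6_91.PL.W983_PL_Stm

/-!
# MP_fe6d1a_gt: D1, the images of the base leaves are not linked (assembly)
-/
set_option autoImplicit false
open Set Topology

namespace Pool.Agent.KS6_91.PL.W863.PC

open Pool.Agent.KS6_91.PL.W983.PL

theorem tri (a b c : Circle) (h : area a b c = 0) : a = b ∨ b = c ∨ a = c := by
  obtain ⟨p, -, -, rfl⟩ := E_surj a
  obtain ⟨q, -, -, rfl⟩ := E_surj b
  obtain ⟨r, -, -, rfl⟩ := E_surj c
  rw [area_E] at h
  have hpi := Real.pi_pos
  have key : ∀ x y : ℝ, Real.sin (Real.pi * (y - x)) = 0 → E x = E y := by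
    intro x y hxy
    rw [Real.sin_eq_zero_iff] at hxy
    obtain ⟨n, hn⟩ := hxy
    rw [E_eq]
    refine ⟨-n, ?_⟩
    have : Real.pi * (y - x - n) = 0 := by linarith
    rcases mul_eq_zero.1 this with h1 | h1
    · exact absurd h1 hpi.ne'
    · push_cast
      linarith
  rcases mul_eq_zero.1 h with h1 | h1
  · rcases mul_eq_zero.1 h1 with h2 | h2
    · rcases mul_eq_zero.1 h2 with h3 | h3
      · norm_num at h3
      · exact Or.inl (key _ _ h3)
    · exact Or.inr (Or.inl (key _ _ h2))
  · exact Or.inr (Or.inr (key _ _ h1))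

theorem op_iff (f : HC) (hf : OrientationPreserving f) (a b c : Circle) :
    Ccw (f a) (f b) (f c) ↔ Ccw a b c := by
  constructor
  · intro h
    rcases lt_trichotomy (area a b c) 0 with h1 | h1 | h1
    · exfalso
      have h2 : Ccw b a c := by
        unfold Ccw
        rw [area_swap]
        linarith
      exact not_ccw_swap h (hf _ _ _ h2)
    · exfalso
      have h' : (0 : ℝ) < area (f a) (f b) (f c) := h
      rcases tri a b c h1 with h2 | h2 | h2
      · rw [h2, area_self'] at h'
        exact lt_irrefl _ h'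
      · rw [h2, area_self] at h'
        exact lt_irrefl _ h'
      · rw [h2, ← area_rot, area_self] at h'
        exact lt_irrefl _ h'
    · exact h1
  · exact hf a b c

theorem range_op (g : ℕ → HC) (hg : ∀ k, OrientationPreserving (g k)) (w : FreeGroup ℕ) :
    ∀ a b c : Circle, Ccw (FreeGroup.lift g w a) (FreeGroup.lift g w b) (FreeGroup.lift g w c) ↔
      Ccw a b c := by
  induction w using FreeGroup.induction_on with
  | C1 => intro a b c; simp
  | of k =>
    intro a b c
    rw [FreeGroup.lift_apply_of]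
    exact op_iff _ (hg k) a b c
  | inv_of k ih =>
    intro a b c
    rw [map_inv, FreeGroup.lift_apply_of]
    rw [← op_iff _ (hg k)]
    simp only [← Homeomorph.mul_apply, mul_inv_cancel, Homeomorph.one_apply]
  | mul x y hx hy =>
    intro a b c
    rw [map_mul]
    simp only [Homeomorph.mul_apply]
    rw [hx, hy]

theorem linked_iff (h : HC) (hh : ∀ a b c : Circle, Ccw (h a) (h b) (h c) ↔ Ccw a b c)
    (a b c d : Circle) : Linked (h a) (h b) (h c) (h d) ↔ Linked a b c d := by
  unfold Linked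
  rw [hh, hh, hh, hh]

theorem linked_swap (a b c d : Circle) : Linked b a c d ↔ Linked a b c d := by
  unfold Linked
  tauto

theorem linked_swap' (a b c d : Circle) : Linked a b d c ↔ Linked a b c d := by
  unfold Linked
  tauto

theorem word (hA : S_D1A) (hB : S_D1B) (F : ℕ → ℝ ≃o ℝ) (g : ℕ → HC) (Z : Set Circle)
    (η ρ : ℕ → ℝ) (ψ : ℝ → ℝ) (𝓐 𝓑 : Set (ℝ × ℝ)) (hD : Dat F g Z η ρ ψ 𝓐 𝓑)
    (J : ℝ × ℝ) (hJ : J ∈ Base η ρ 𝓐 𝓑) :
    ∀ L : List (ℕ × Bool), FreeGroup.IsReduced L → ∀ (s : ℕ × Bool) (L' : List (ℕ × Bool)),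
      L = s :: L' →
      ((L.map (lt g)).prod (E J.1), (L.map (lt g)).prod (E J.2)) ∈ PP F η ρ s := by
  intro L
  induction L with
  | nil => intro _ s L' h; cases h
  | cons s L ih =>
    intro hred s' L' h
    obtain ⟨rfl, rfl⟩ := List.cons.inj h
    cases L with
    | nil =>
      simp only [List.map_cons, List.map_nil, List.prod_cons, List.prod_nil, mul_one]
      exact hA F g Z η ρ ψ 𝓐 𝓑 hD J hJ s
    | cons t L'' =>
      have hred' : FreeGroup.IsReduced (t :: L'') := by
        unfold FreeGroup.IsReduced at hred ⊢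
        exact hred.tail
      have h1 := ih hred' t L'' rfl
      have hne : t ≠ inv s := by
        intro hts
        unfold FreeGroup.IsReduced at hred
        have h2 := (List.isChain_cons_cons.mp hred).1
        rw [hts] at h2
        have h3 := h2 rfl
        simp [inv] at h3
      have h4 := hB F g Z η ρ hD.gen hD.cuts s t hne _ h1
      rw [List.map_cons, List.prod_cons]
      exact h4

theorem d1 : S_D1A → S_D1B → S_D1C → S_D1D → S_D1 := by
  intro hA hB hC hDD F g Z η ρ ψ 𝓐 𝓑 hD p hp q hq hl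
  obtain ⟨h, hh, I, hI, hpI⟩ := hp
  obtain ⟨h', hh', J, hJ, hqJ⟩ := hq
  have hl2 : Linked (h (E I.1)) (h (E I.2)) (h' (E J.1)) (h' (E J.2)) := by
    rcases hpI with rfl | rfl <;> rcases hqJ with rfl | rfl
    · exact hl
    · exact (linked_swap' _ _ _ _).mp hl
    · exact (linked_swap _ _ _ _).mp hl
    · exact (linked_swap _ _ _ _).mp ((linked_swap' _ _ _ _).mp hl)
  have hr : h⁻¹ * h' ∈ (FreeGroup.lift g).range :=
    Subgroup.mul_mem _ (Subgroup.inv_mem _ hh) hh'
  obtain ⟨v, hv⟩ := hh
  have hv' := range_op g hD.gen.op v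
  rw [hv] at hv'
  obtain ⟨w, hw⟩ := hr
  have e : ∀ z : Circle, h' z = h (FreeGroup.lift g w z) := by
    intro z
    rw [hw, ← Homeomorph.mul_apply, mul_inv_cancel_left]
  rw [e, e, linked_iff h hv'] at hl2
  by_cases hw1 : w = 1
  · rw [hw1] at hl2
    simp only [map_one, Homeomorph.one_apply] at hl2
    exact hDD F g Z η ρ ψ 𝓐 𝓑 hD I hI J hJ hl2
  · have hne : w.toWord ≠ [] := by
      intro h0
      exact hw1 (FreeGroup.toWord_eq_nil_iff.mp h0)
    obtain ⟨s, L', hs⟩ := List.exists_cons_of_ne_nil hne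
    have hword := word hA hB F g Z η ρ ψ 𝓐 𝓑 hD J hJ w.toWord FreeGroup.isReduced_toWord s L' hs
    have hprod : FreeGroup.lift g w = (w.toWord.map (lt g)).prod := by
      conv_lhs => rw [← FreeGroup.mk_toWord (x := w)]
      rw [FreeGroup.lift_mk]
      rfl
    rw [← hprod] at hword
    exact hC F g Z η ρ ψ 𝓐 𝓑 hD I hI s _ hword hl2

end Pool.Agent.KS6_91.PL.W863.PC
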