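import Pool.Agent.KS6_91.PL.W983_PL_Stm

/-!
Project PC: periodic piecewise affine order isomorphisms.
-/

set_option autoImplicit false

namespace Pool.Agent.KS6_91.PL.W922.PCPL

open Set Pool.Agent.KS6_91.PL.W983.PL

/-- gluing -/
noncomputable def glue (c : ℝ) (f g : ℝ → ℝ) (t : ℝ) : ℝ := if t ≤ c then f t else g t

theorem glue_mono {c : ℝ} {f g : ℝ → ℝ} (hf : StrictMono f) (hg : StrictMono g) (h : f c = g c) :
    StrictMono (glue c f g) := by
  intro s t hst
  unfold glue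
  by_cases h1 : s ≤ c
  · by_cases h2 : t ≤ c
    · rw [if_pos h1, if_pos h2]; exact hf hst
    · rw [if_pos h1, if_neg h2]
      exact (hf.monotone h1).trans_lt (h ▸ hg (not_le.1 h2))
  · have h2 : ¬ t ≤ c := fun h => h1 (hst.le.trans h)
    rw [if_neg h1, if_neg h2]; exact hg hst

theorem glue_cont {c : ℝ} {f g : ℝ → ℝ} (hf : Continuous f) (hg : Continuous g) (h : f c = g c) :
    Continuous (glue c f g) := by
  unfold glue
  exact Continuous.if_le hf hg continuous_id continuous_const (fun x hx => by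
    have hx' : x = c := hx
    rw [hx']; exact h)

theorem glue_left {c t : ℝ} {f g : ℝ → ℝ} (h : t ≤ c) : glue c f g t = f t := if_pos h

theorem glue_right {c t : ℝ} {f g : ℝ → ℝ} (hc : f c = g c) (h : c ≤ t) : glue c f g t = g t := by
  unfold glue
  split_ifs with h1
  · have : t = c := le_antisymm h1 h
    rw [this, hc]
  · rfl

/-- affine functions -/
def aff (q p σ t : ℝ) : ℝ := q + (t - p) * σ

theorem aff_mono {q p σ : ℝ} (h : 0 < σ) : StrictMono (aff q p σ) := by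
  intro s t hst
  unfold aff
  nlinarith

theorem aff_cont {q p σ : ℝ} : Continuous (aff q p σ) := by
  unfold aff; fun_prop

/-- periodic extension -/
noncomputable def ext (p : ℝ) (h : ℝ → ℝ) (t : ℝ) : ℝ := h (t - ⌊t - p⌋) + ⌊t - p⌋

theorem ext_add_int (p : ℝ) (h : ℝ → ℝ) (t : ℝ) (n : ℤ) : ext p h (t + n) = ext p h t + n := by
  unfold ext
  have e : t + n - p = t - p + n := by ring
  rw [e, Int.floor_add_intCast]
  push_cast
  have e2 : t + n - (⌊t - p⌋ + n) = t - ⌊t - p⌋ := by ring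
  rw [e2]
  ring

theorem ext_eq {p t : ℝ} {h : ℝ → ℝ} (hp : h (p + 1) = h p + 1) (h0 : p ≤ t) (h1 : t ≤ p + 1) :
    ext p h t = h t := by
  rcases h1.eq_or_lt with h2 | h2
  · have e : t = p + ((1 : ℤ) : ℝ) := by rw [h2]; push_cast; rfl
    rw [e, ext_add_int]
    unfold ext
    rw [sub_self, Int.floor_zero]
    push_cast
    rw [hp]
    ring_nf
  · unfold ext
    have : ⌊t - p⌋ = 0 := by
      rw [Int.floor_eq_zero_iff]
      exact ⟨by linarith, by linarith⟩
    rw [this]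
    push_cast
    rw [sub_zero, add_zero]

theorem ext_mono {p : ℝ} {h : ℝ → ℝ} (hm : StrictMono h) (hp : h (p + 1) = h p + 1) :
    StrictMono (ext p h) := by
  intro s t hst
  unfold ext
  have hs0 := Int.floor_le (s - p)
  have hs1 := Int.lt_floor_add_one (s - p)
  have ht0 := Int.floor_le (t - p)
  have hle : ⌊s - p⌋ ≤ ⌊t - p⌋ := Int.floor_le_floor (by linarith)
  rcases hle.eq_or_lt with h1 | h1
  · rw [h1]
    have := hm (show s - ⌊t - p⌋ < t - ⌊t - p⌋ by linarith)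
    linarith
  · have h2 : ((⌊s - p⌋ : ℤ) : ℝ) + 1 ≤ ⌊t - p⌋ := by exact_mod_cast h1
    have h3 := hm (show s - ⌊s - p⌋ < p + 1 by linarith)
    have h4 := hm.monotone (show p ≤ t - ⌊t - p⌋ by linarith)
    linarith

theorem ext_surj {p : ℝ} {h : ℝ → ℝ} (hc : Continuous h) (hp : h (p + 1) = h p + 1) :
    Function.Surjective (ext p h) := by
  intro y
  have h0 := Int.floor_le (y - h p)
  have h1 := Int.lt_floor_add_one (y - h p)
  have h2 : y - ⌊y - h p⌋ ∈ Icc (h p) (h (p + 1)) := ⟨by linarith, by linarith⟩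
  obtain ⟨x, hx, hxy⟩ := intermediate_value_Icc (show p ≤ p + 1 by linarith) hc.continuousOn h2
  refine ⟨x + ⌊y - h p⌋, ?_⟩
  rw [ext_add_int, ext_eq hp hx.1 hx.2, hxy]
  ring

theorem pl1 : S_PL1 := by
  intro p₀ p₁ p₂ p₃ q₀ q₁ q₂ q₃ hp01 hp12 hp23 hp30 hq01 hq12 hq23 hq30
  obtain ⟨A0, hA0⟩ : ∃ A, A = aff q₀ p₀ ((q₁ - q₀) / (p₁ - p₀)) := ⟨_, rfl⟩
  obtain ⟨A1, hA1⟩ : ∃ A, A = aff q₁ p₁ ((q₂ - q₁) / (p₂ - p₁)) := ⟨_, rfl⟩
  obtain ⟨A2, hA2⟩ : ∃ A, A = aff q₂ p₂ ((q₃ - q₂) / (p₃ - p₂)) := ⟨_, rfl⟩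
  obtain ⟨A3, hA3⟩ : ∃ A, A = aff q₃ p₃ ((q₀ + 1 - q₃) / (p₀ + 1 - p₃)) := ⟨_, rfl⟩
  have m0 : StrictMono A0 := by rw [hA0]; exact aff_mono (div_pos (by linarith) (by linarith))
  have m1 : StrictMono A1 := by rw [hA1]; exact aff_mono (div_pos (by linarith) (by linarith))
  have m2 : StrictMono A2 := by rw [hA2]; exact aff_mono (div_pos (by linarith) (by linarith))
  have m3 : StrictMono A3 := by rw [hA3]; exact aff_mono (div_pos (by linarith) (by linarith))
  have c0 : Continuous A0 := by rw [hA0]; exact aff_cont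
  have c1 : Continuous A1 := by rw [hA1]; exact aff_cont
  have c2 : Continuous A2 := by rw [hA2]; exact aff_cont
  have c3 : Continuous A3 := by rw [hA3]; exact aff_cont
  have v0 : A0 p₀ = q₀ := by rw [hA0, aff]; ring
  have v0' : A0 p₁ = q₁ := by
    have : p₁ - p₀ ≠ 0 := by linarith
    rw [hA0, aff]; field_simp; ring
  have v1 : A1 p₁ = q₁ := by rw [hA1, aff]; ring
  have v1' : A1 p₂ = q₂ := by
    have : p₂ - p₁ ≠ 0 := by linarith
    rw [hA1, aff]; field_simp; ring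
  have v2 : A2 p₂ = q₂ := by rw [hA2, aff]; ring
  have v2' : A2 p₃ = q₃ := by
    have : p₃ - p₂ ≠ 0 := by linarith
    rw [hA2, aff]; field_simp; ring
  have v3 : A3 p₃ = q₃ := by rw [hA3, aff]; ring
  have v3' : A3 (p₀ + 1) = q₀ + 1 := by
    have : p₀ + 1 - p₃ ≠ 0 := by linarith
    rw [hA3, aff]; field_simp; ring
  have e3 : A2 p₃ = A3 p₃ := by rw [v2', v3]
  have e2 : A1 p₂ = glue p₃ A2 A3 p₂ := by rw [glue_left hp23.le, v1', v2]
  have e1 : A0 p₁ = glue p₂ A1 (glue p₃ A2 A3) p₁ := by rw [glue_left hp12.le, v0', v1]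
  obtain ⟨h, hh⟩ : ∃ h, h = glue p₁ A0 (glue p₂ A1 (glue p₃ A2 A3)) := ⟨_, rfl⟩
  have hm : StrictMono h := by
    rw [hh]
    exact glue_mono m0 (glue_mono m1 (glue_mono m2 m3 e3) e2) e1
  have hc : Continuous h := by
    rw [hh]
    exact glue_cont c0 (glue_cont c1 (glue_cont c2 c3 e3) e2) e1
  have w0 : ∀ t, t ≤ p₁ → h t = A0 t := fun t ht => by rw [hh]; exact glue_left ht
  have w1 : ∀ t, p₁ ≤ t → t ≤ p₂ → h t = A1 t := fun t ht ht' => by
    rw [hh, glue_right e1 ht, glue_left ht']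
  have w2 : ∀ t, p₂ ≤ t → t ≤ p₃ → h t = A2 t := fun t ht ht' => by
    rw [hh, glue_right e1 (hp12.le.trans ht), glue_right e2 ht, glue_left ht']
  have w3 : ∀ t, p₃ ≤ t → h t = A3 t := fun t ht => by
    rw [hh, glue_right e1 (by linarith), glue_right e2 (by linarith), glue_right e3 ht]
  have hp : h (p₀ + 1) = h p₀ + 1 := by
    rw [w3 _ hp30.le, w0 _ hp01.le, v0, v3']
  refine ⟨(ext_mono hm hp).orderIsoOfSurjective _ (ext_surj hc hp), ?_, ?_, ?_, ?_, ?_⟩
  · intro t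
    rw [StrictMono.coe_orderIsoOfSurjective]
    have := ext_add_int p₀ h t 1
    push_cast at this
    exact this
  · intro t h0 h1
    rw [StrictMono.coe_orderIsoOfSurjective, ext_eq hp h0 (by linarith), w0 t h1, hA0]
    rfl
  · intro t h0 h1
    rw [StrictMono.coe_orderIsoOfSurjective, ext_eq hp (by linarith) (by linarith), w1 t h0 h1, hA1]
    rfl
  · intro t h0 h1
    rw [StrictMono.coe_orderIsoOfSurjective, ext_eq hp (by linarith) (by linarith), w2 t h0 h1, hA2]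
    rfl
  · intro t h0 h1
    rw [StrictMono.coe_orderIsoOfSurjective, ext_eq hp (by linarith) h1, w3 t h0, hA3]
    rfl

theorem pl : S_BC → S_PL := by
  rintro ⟨hB, -, -⟩
  have key : ∀ k, ∃ F : ℝ ≃o ℝ, (∀ t, F (t + 1) = F t + 1) ∧
      (∀ t, -bb k ≤ t → t ≤ bb k →
        F t = 1 / 2 - cc k + (t + bb k) * ((cc k - bb k) / (2 * bb k))) ∧
      (∀ t, bb k ≤ t → t ≤ cc k →
        F t = 1 / 2 - bb k + (t - bb k) * (2 * bb k / (cc k - bb k))) ∧
      (∀ t, cc k ≤ t → t ≤ 1 - cc k →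
        F t = 1 / 2 + bb k + (t - cc k) * ((cc k - bb k) / (1 - 2 * cc k))) ∧
      (∀ t, 1 - cc k ≤ t → t ≤ 1 - bb k →
        F t = 1 / 2 + cc k + (t - (1 - cc k)) * ((1 - 2 * cc k) / (cc k - bb k))) := by
    intro k
    obtain ⟨h1, h2, h3, h4, h5, h6⟩ := hB k
    obtain ⟨F, f0, f1, f2, f3, f4⟩ := pl1 (-bb k) (bb k) (cc k) (1 - cc k) (1 / 2 - cc k)
      (1 / 2 - bb k) (1 / 2 + bb k) (1 / 2 + cc k) (by linarith) (by linarith) (by linarith)
      (by linarith) (by linarith) (by linarith) (by linarith) (by linarith)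
    refine ⟨F, f0, ?_, ?_, ?_, ?_⟩
    · intro t ht ht'
      rw [f1 t ht ht']
      congr 2
      · ring
      · congr 1 <;> ring
    · intro t ht ht'
      rw [f2 t ht ht']
      congr 2
      congr 1; ring
    · intro t ht ht'
      rw [f3 t ht ht']
      congr 2
      congr 1 <;> ring
    · intro t ht ht'
      rw [f4 t ht (by linarith)]
      congr 2
      congr 1 <;> ring
  choose F hF using key
  exact ⟨F, fun k => (hF k).1, fun k => (hF k).2.1, fun k => (hF k).2.2.1,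
    fun k => (hF k).2.2.2.1, fun k => (hF k).2.2.2.2⟩

theorem both : S_PL1 ∧ (S_BC → S_PL) := ⟨pl1, pl⟩

end Pool.Agent.KS6_91.PL.W922.PCPL
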