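import Pool.Agent.KS6_91.PL.W983_PL_Lam
import Pool.Agent.KS6_91.PL.W983_PL_Fin
import Pool.Agent.KS6_91.PL.W805_PCVF
import Pool.Agent.KS6_91.PL.W701_PC_LK
import Pool.Agent.KS6_91.PL.W202_PCMax
import Pool.Agent.KS6_91.PL.W639_PCSig
import Pool.Agent.KS6_91.PL.W55_PCSiglam
import Pool.Agent.KS6_91.PL.W571_PC_BC
import Pool.Agent.KS6_91.PL.W922_PCPL
import Pool.Agent.KS6_91.PL.W571_PC_HOM
import Pool.Agent.KS6_91.PL.W381_PCMap
import Pool.Agent.KS6_91.PL.W696_PCCon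
import Pool.Agent.KS6_91.PL.W827_PCWC
import Pool.Agent.KS6_91.PL.W152_PCFix
import Pool.Agent.KS6_91.PL.W237_PC_Word
import Pool.Agent.KS6_91.PL.W800_PCDisc
import Pool.Agent.KS6_91.PL.W791_PC_NF
import Pool.Agent.KS6_91.PL.W395_PC_SG
import Pool.Agent.KS6_91.PL.W368_PCAvcut
import Pool.Agent.KS6_91.PL.W782_PCPos
import Pool.Agent.KS6_91.PL.W205_PCFill
import Pool.Agent.KS6_91.PL.W214_PC_Col
import Pool.Agent.KS6_91.PL.W789_PCAR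
import Pool.Agent.KS6_91.PL.W409_PCD1A
import Pool.Agent.KS6_91.PL.W237_PC_D1B
import Pool.Agent.KS6_91.PL.W294_PC_D1C
import Pool.Agent.KS6_91.PL.W431_PCD1D
import Pool.Agent.KS6_91.PL.W863_PC_D1
import Pool.Agent.KS6_91.PL.W589_PCD2_D2
import Pool.Agent.KS6_91.PL.W403_PCD3

set_option autoImplicit false

namespace Pool.Agent.KS6_91.PL.W983.PL

/-- The answer to Q1 is negative. -/
theorem notQ1 : ¬ Q1 := by
  have hBC : S_BC := Pool.Agent.KS6_91.PL.W571.PC.t_BC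
  have hPL : S_PL := Pool.Agent.KS6_91.PL.W922.PCPL.pl hBC
  have hMAP : S_MAP := Pool.Agent.KS6_91.PL.W381.PCMap.map hBC
  have hCON : S_CON := Pool.Agent.KS6_91.PL.W696.PCCon.con hBC
  have hWC : S_WC := Pool.Agent.KS6_91.PL.W827.PCWC.wc hBC hMAP hCON
  have hPOS : S_POS := Pool.Agent.KS6_91.PL.W782.PCPos.pos hBC
  have hAR : S_AR := Pool.Agent.KS6_91.PL.W789.PCAR.main
  have hARC : S_ARC := Pool.Agent.KS6_91.PL.W701.PC.arc'
  have hAV : S_AV := Pool.Agent.KS6_91.PL.W368.PCAvcut.av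
  have hCUT : S_CUT := Pool.Agent.KS6_91.PL.W368.PCAvcut.cut hBC
  have hCOL : S_COL := Pool.Agent.KS6_91.PL.W214.PC.col hBC hAV hPOS
  have hD1A : S_D1A := Pool.Agent.KS6_91.PL.W409.PCD1A.main hBC hPOS hAR
  have hD1B : S_D1B := Pool.Agent.KS6_91.PL.W237.PC.D1B hBC hPOS hAR
  have hD1C : S_D1C := Pool.Agent.KS6_91.PL.W294.PC.main hBC hPOS hARC
  have hD1D : S_D1D := Pool.Agent.KS6_91.PL.W431.PCD1D.t_D1D hPOS hARC
  have hD1 : S_D1 := Pool.Agent.KS6_91.PL.W863.PC.d1 hD1A hD1B hD1C hD1D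
  have hD2 : S_D2 := Pool.Agent.KS6_91.PL.W589.PCD2.d2 hBC hPOS
  have hD3 : S_D3 := Pool.Agent.KS6_91.PL.W403.PCD3.main hBC hPOS hAR hWC hD2
  have hMAX : S_MAX := Pool.Agent.KS6_91.PL.W202.PCMax.main Pool.Agent.KS6_91.PL.W805.PCVF.vf Pool.Agent.KS6_91.PL.W701.PC.lk
  exact notQ1_of hPL Pool.Agent.KS6_91.PL.W571.PC.t_HOM hWC Pool.Agent.KS6_91.PL.W152.PCFix.fix
    Pool.Agent.KS6_91.PL.W237.PC.word Pool.Agent.KS6_91.PL.W237.PC.tf Pool.Agent.KS6_91.PL.W800.PCDisc.disc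
    (Pool.Agent.KS6_91.PL.W791.PC.NF.main hBC hMAP) (Pool.Agent.KS6_91.PL.W395.PC.main hBC)
    Pool.Agent.KS6_91.PL.W639.PCSig.main Pool.Agent.KS6_91.PL.W55.PC.siglam
    (lam_of hPOS hAV hCUT Pool.Agent.KS6_91.PL.W205.PCFill.t_FILL hCOL hD1 hD3 hMAX)

end Pool.Agent.KS6_91.PL.W983.PL
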