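import Pool.Agent.KS6_91.PL.W983_PL_Stm

/-!
# MP_fe6d1a_gt: assembly of the invariant lamination
-/
set_option autoImplicit false
open Set Topology

namespace Pool.Agent.KS6_91.PL.W983.PL

theorem ccw_total {a b c : Circle} (h1 : a ≠ b) (h2 : b ≠ c) (h3 : a ≠ c) : Ccw a b c ∨ Ccw b a c := by
  obtain ⟨p, hp0, hp1, rfl⟩ := E_surj a
  obtain ⟨q, hq0, hq1, rfl⟩ := E_surj' p b
  obtain ⟨r, hr0, hr1, rfl⟩ := E_surj' p c
  have hpq : p < q := lt_of_le_of_ne hq0 (fun h => h1 (by rw [h]))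
  have hpr : p < r := lt_of_le_of_ne hr0 (fun h => h3 (by rw [h]))
  rcases lt_trichotomy q r with h | h | h
  · exact Or.inl (ccw_E hpq h hr1)
  · exact absurd (by rw [h]) h2
  · right
    have := ccw_E hpr h hq1
    exact ccw_rot (ccw_rot this)

theorem Ccw.ne12 {a b c : Circle} (h : Ccw a b c) : a ≠ b := by
  rintro rfl
  have h7 : (0 : ℝ) < area a a c := h
  rw [area_self'] at h7
  exact lt_irrefl _ h7

theorem Ccw.ne23 {a b c : Circle} (h : Ccw a b c) : b ≠ c := (ccw_rot h).ne12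
theorem Ccw.ne13 {a b c : Circle} (h : Ccw a b c) : a ≠ c := (ccw_rot (ccw_rot h)).ne12.symm

theorem op_inv {g : HC} (hg : OrientationPreserving g) : OrientationPreserving g⁻¹ := by
  intro a b c h
  have e : ∀ x : Circle, g ((g⁻¹ : HC) x) = x := fun x => g.apply_symm_apply x
  have n1 : (g⁻¹ : HC) a ≠ (g⁻¹ : HC) b := fun h' => h.ne12 (by rw [← e a, ← e b, h'])
  have n2 : (g⁻¹ : HC) b ≠ (g⁻¹ : HC) c := fun h' => h.ne23 (by rw [← e b, ← e c, h'])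
  have n3 : (g⁻¹ : HC) a ≠ (g⁻¹ : HC) c := fun h' => h.ne13 (by rw [← e a, ← e c, h'])
  rcases ccw_total n1 n2 n3 with h' | h'
  · exact h'
  · exfalso
    have := hg _ _ _ h'
    rw [e, e, e] at this
    exact not_ccw_swap this h

theorem op_one : OrientationPreserving (1 : HC) := fun _ _ _ h => h

theorem op_mul {g h : HC} (hg : OrientationPreserving g) (hh : OrientationPreserving h) :
    OrientationPreserving (g * h) := fun a b c k => hg _ _ _ (hh a b c k)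

theorem op_range {F : ℕ → ℝ ≃o ℝ} {g : ℕ → HC} (hg : IsGen F g) :
    ∀ h ∈ (FreeGroup.lift g).range, OrientationPreserving h := by
  rintro h ⟨w, rfl⟩
  induction w using FreeGroup.induction_on with
  | C1 => rw [map_one]; exact op_one
  | of x => rw [FreeGroup.lift_apply_of]; exact hg.op x
  | inv_of x hx => rw [map_inv]; exact op_inv hx
  | mul x y hx hy => rw [map_mul]; exact op_mul hx hy

theorem linked_op {h : HC} (hh : OrientationPreserving h) {a b c d : Circle}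
    (hl : Linked a b c d) : Linked (h a) (h b) (h c) (h d) := by
  rcases hl with ⟨h1, h2⟩ | ⟨h1, h2⟩
  · exact Or.inl ⟨hh _ _ _ h1, hh _ _ _ h2⟩
  · exact Or.inr ⟨hh _ _ _ h1, hh _ _ _ h2⟩

theorem base_lt {F : ℕ → ℝ ≃o ℝ} {g : ℕ → HC} {Z : Set Circle} {η ρ : ℕ → ℝ} {ψ : ℝ → ℝ}
    {𝓐 𝓑 : Set (ℝ × ℝ)} (hPOS : S_POS) (D : Dat F g Z η ρ ψ 𝓐 𝓑) {I : ℝ × ℝ}
    (hI : I ∈ Base η ρ 𝓐 𝓑) : I.1 < I.2 ∧ I.2 < I.1 + 1 := by
  obtain ⟨_, _, _, _, p1, p2, _⟩ := hPOS F Z η ρ D.gen.lift D.cuts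
  rcases hI with (⟨k, rfl⟩ | hI) | hI
  · have h1 := p1 k
    have h2 := p2 k
    constructor
    · show η k < ρ k
      linarith
    · show ρ k < η k + 1
      linarith
  · obtain ⟨h1, h2, h3, _, _⟩ := D.fa.rng I hI
    have h4 := p1 0
    have h5 := p2 0
    exact ⟨h2, by linarith⟩
  · obtain ⟨h1, h2, h3, _, _⟩ := D.fb.rng I hI
    exact ⟨h2, by linarith⟩

theorem base_Z {F : ℕ → ℝ ≃o ℝ} {g : ℕ → HC} {Z : Set Circle} {η ρ : ℕ → ℝ} {ψ : ℝ → ℝ}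
    {𝓐 𝓑 : Set (ℝ × ℝ)} (D : Dat F g Z η ρ ψ 𝓐 𝓑) {I : ℝ × ℝ}
    (hI : I ∈ Base η ρ 𝓐 𝓑) : E I.1 ∉ Z ∧ E I.2 ∉ Z := by
  rcases hI with (⟨k, rfl⟩ | hI) | hI
  · exact ⟨D.cuts.eZ k, D.cuts.rZ k⟩
  · obtain ⟨h1, h2, h3, h4, h5⟩ := D.fa.rng I hI
    constructor
    · rcases h4 with h4 | h4
      · rw [h4, ← E_add_one, sub_add_cancel]; exact D.cuts.rZ 0
      · exact h4
    · rcases h5 with h5 | h5
      · rw [h5]; exact D.cuts.eZ 0
      · exact h5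
  · obtain ⟨h1, h2, h3, h4, h5⟩ := D.fb.rng I hI
    constructor
    · rcases h4 with h4 | h4
      · rw [h4]; exact D.Zy
      · exact h4.1
    · rcases h5 with h5 | h5
      · rw [h5]; exact D.Zr
      · exact h5.1

theorem lam_of (hPOS : S_POS) (hAV : S_AV) (hCUT : S_CUT) (hFILL : S_FILL) (hCOL : S_COL)
    (hD1 : S_D1) (hD3 : S_D3) (hMAX : S_MAX) : S_LAM := by
  intro F g hg Z hZc hZi hZy hZr
  obtain ⟨η, ρ, hc⟩ := hCUT Z hZc
  obtain ⟨ψ, hψ, hψ1, hmid, hcol⟩ := hCOL F Z η ρ hg.lift hZc hc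
  have h1 : (id (ρ 0 - 1) : ℝ) < id (η 0) := by
    have := hc.e0.1
    have := hc.r0.2
    show ρ 0 - 1 < η 0
    linarith
  have hm1 : Mid (ρ 0 - 1) (η 0) (goodA Z) id := by
    intro a b _ _ hab
    have hab' : a < b := hab
    obtain ⟨t, ht1, ht2, ht3⟩ := (hAV Z hZc).2 (a + (b - a) / 3) (b - (b - a) / 3) (by linarith)
    exact ⟨t, ht3, by linarith, by linarith, ht1.le, ht2.le⟩
  obtain ⟨𝓐, hA⟩ := hFILL id (goodA Z) (ρ 0 - 1) (η 0) monotone_id h1 hm1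
  obtain ⟨𝓑, hB⟩ := hFILL ψ (goodB F Z η ρ) (1 / 8) (7 / 8) hψ hψ1 hmid
  have D : Dat F g Z η ρ ψ 𝓐 𝓑 := ⟨hg, hc, hZc, hZy, hZr, hA, hB, hψ, hcol⟩
  have hop := op_range hg
  have hsw : ∀ p ∈ PB g (Base η ρ 𝓐 𝓑), p.swap ∈ PB g (Base η ρ 𝓐 𝓑) := by
    rintro p ⟨h, hh, I, hI, rfl | rfl⟩
    · exact ⟨h, hh, I, hI, Or.inr rfl⟩
    · exact ⟨h, hh, I, hI, Or.inl rfl⟩
  have hne0 : ∀ I ∈ Base η ρ 𝓐 𝓑, E I.1 ≠ E I.2 := by
    intro I hI h
    obtain ⟨k1, k2⟩ := base_lt hPOS D hI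
    have := E_injOn (a := I.1) le_rfl (by linarith) k1.le k2 h
    linarith
  have hne : ∀ p ∈ PB g (Base η ρ 𝓐 𝓑), p.1 ≠ p.2 := by
    rintro p ⟨h, hh, I, hI, rfl | rfl⟩
    · exact fun h' => hne0 I hI (h.injective h')
    · exact fun h' => hne0 I hI (h.injective h').symm
  obtain ⟨k1, k2, k3, k4⟩ := hMAX (PB g (Base η ρ 𝓐 𝓑)) (EBs g (Base η ρ 𝓐 𝓑)) hsw hne
    (hD1 F g Z η ρ ψ 𝓐 𝓑 D) (hD3 F g Z η ρ ψ 𝓐 𝓑 D)
  refine ⟨Max (PB g (Base η ρ 𝓐 𝓑)), k1, k2, k3, ?_, ?_, ?_⟩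
  · intro h hh a b hab
    refine ⟨fun h' => hab.1 (h.injective h'), ?_⟩
    rintro q hq hl
    have hl' := linked_op (op_inv (hop h hh)) hl
    have e : ∀ x : Circle, (h⁻¹ : HC) (h x) = x := fun x => h.symm_apply_apply x
    have hq' : ((h⁻¹ : HC) q.1, (h⁻¹ : HC) q.2) ∈ PB g (Base η ρ 𝓐 𝓑) := by
      obtain ⟨h', hh', I, hI, rfl | rfl⟩ := hq
      · exact ⟨h⁻¹ * h', mul_mem (inv_mem hh) hh', I, hI, Or.inl rfl⟩
      · exact ⟨h⁻¹ * h', mul_mem (inv_mem hh) hh', I, hI, Or.inr rfl⟩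
    have hab2 := hab.2 _ hq'
    simp only at hab2 hl'
    rw [e, e] at hl'
    exact hab2 hl'
  · refine Set.Countable.mono k4 ?_
    have hBc : (Base η ρ 𝓐 𝓑).Countable := by
      refine Set.Countable.union (Set.Countable.union ?_ hA.cnt) hB.cnt
      refine (Set.countable_range (fun k => (η k, ρ k))).mono ?_
      rintro I ⟨k, rfl⟩
      exact ⟨k, rfl⟩
    have hGc : ((FreeGroup.lift g).range : Set HC).Countable := by
      rw [MonoidHom.coe_range]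
      have : Countable (FreeGroup ℕ) := by
        unfold FreeGroup
        infer_instance
      exact Set.countable_range _
    have : EBs g (Base η ρ 𝓐 𝓑) ⊆ ⋃ h ∈ ((FreeGroup.lift g).range : Set HC),
        ⋃ I ∈ Base η ρ 𝓐 𝓑, ({h (E I.1), h (E I.2)} : Set Circle) := by
      rintro z ⟨h, hh, I, hI, hz⟩
      simp only [Set.mem_iUnion]
      exact ⟨h, hh, I, hI, by simpa using hz⟩
    refine Set.Countable.mono this (hGc.biUnion fun h _ => hBc.biUnion fun I _ => ?_)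
    exact (Set.toFinite _).countable
  · rw [Set.eq_empty_iff_forall_notMem]
    rintro z ⟨hz1, hz2⟩
    obtain ⟨h, hh, I, hI, hz⟩ := k4 hz1
    have e : ∀ x : Circle, (h⁻¹ : HC) (h x) = x := fun x => h.symm_apply_apply x
    have h3 := hZi h⁻¹ (inv_mem hh) z hz2
    rcases hz with rfl | rfl
    · rw [e] at h3
      exact (base_Z D hI).1 h3
    · rw [e] at h3
      exact (base_Z D hI).2 h3

end Pool.Agent.KS6_91.PL.W983.PL
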